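import Pool.Agent.LibDim.Layer

namespace LibDim

open Finset Matrix

variable {V E : Type} [Fintype V] [DecidableEq V] [Fintype E] [DecidableEq E]

/-- two edges share a vertex (or are equal) -/
def share (g : Gr V E) (e f : E) : Prop :=
  g.src e = g.src f ∨ g.src e = g.tgt f ∨ g.tgt e = g.src f ∨ g.tgt e = g.tgt f

/-- nonnegative matrices with row and column sums at most one -/
def comm_sub {α : Type} [Fintype α] (R : Matrix α α ℝ) : Prop :=
  (∀ a b, 0 ≤ R a b) ∧ (∀ a, ∑ b, R a b ≤ 1) ∧ ∀ b, ∑ a, R a b ≤ 1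

theorem comm_sub_transpose {α : Type} [Fintype α] {R : Matrix α α ℝ} (h : comm_sub R) :
    comm_sub Rᵀ :=
  ⟨fun a b => h.1 b a, fun a => h.2.2 a, fun b => h.2.1 b⟩

theorem comm_sub_mul {α : Type} [Fintype α] {R T : Matrix α α ℝ} (h : comm_sub R)
    (h' : comm_sub T) : comm_sub (R * T) := by
  refine ⟨fun a b => ?_, fun a => ?_, fun b => ?_⟩
  · rw [Matrix.mul_apply]
    exact Finset.sum_nonneg fun c _ => mul_nonneg (h.1 _ _) (h'.1 _ _)
  · simp only [Matrix.mul_apply]
    rw [Finset.sum_comm]
    calc ∑ c, ∑ b, R a c * T c b = ∑ c, R a c * ∑ b, T c b := by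
          simp only [Finset.mul_sum]
      _ ≤ ∑ c, R a c * 1 :=
          Finset.sum_le_sum fun c _ => mul_le_mul_of_nonneg_left (h'.2.1 c) (h.1 _ _)
      _ ≤ 1 := by simpa using h.2.1 a
  · simp only [Matrix.mul_apply]
    rw [Finset.sum_comm]
    calc ∑ c, ∑ a, R a c * T c b = ∑ c, (∑ a, R a c) * T c b := by
          simp only [Finset.sum_mul]
      _ ≤ ∑ c, 1 * T c b :=
          Finset.sum_le_sum fun c _ => mul_le_mul_of_nonneg_right (h.2.2 c) (h'.1 _ _)
      _ ≤ 1 := by simpa using h'.2.2 b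

/-- `0 ≤ tr (R M M^T) ≤ tr (M M^T)` for symmetric `M` with entries `≥ 0` -/
theorem comm_tr_nonneg {α : Type} [Fintype α] {R P : Matrix α α ℝ} (h : comm_sub R)
    (hP : ∀ a b, 0 ≤ P a b) : 0 ≤ (R * P).trace := by
  simp only [Matrix.trace, Matrix.diag, Matrix.mul_apply]
  exact Finset.sum_nonneg fun a _ => Finset.sum_nonneg fun b _ => mul_nonneg (h.1 _ _) (hP _ _)

theorem comm_tr_le {α : Type} [Fintype α] {R P : Matrix α α ℝ} (h : comm_sub R)
    (hP0 : ∀ a, 0 ≤ P a a) (hP : ∀ a b, P a b ≤ (P a a + P b b) / 2) :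
    (R * P).trace ≤ P.trace := by
  simp only [Matrix.trace, Matrix.diag, Matrix.mul_apply]
  calc ∑ a, ∑ b, R a b * P b a ≤ ∑ a, ∑ b, (R a b * P b b / 2 + R a b * P a a / 2) := by
        refine Finset.sum_le_sum fun a _ => Finset.sum_le_sum fun b _ => ?_
        have := mul_le_mul_of_nonneg_left (hP b a) (h.1 a b)
        linarith
    _ = (∑ b, (∑ a, R a b) * P b b) / 2 + (∑ a, (∑ b, R a b) * P a a) / 2 := by
        simp only [Finset.sum_add_distrib]
        congr 1
        · rw [Finset.sum_comm, Finset.sum_div]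
          refine Finset.sum_congr rfl fun b _ => ?_
          rw [Finset.sum_mul, Finset.sum_div]
        · rw [Finset.sum_div]
          refine Finset.sum_congr rfl fun a _ => ?_
          rw [Finset.sum_mul, Finset.sum_div]
    _ ≤ (∑ b, 1 * P b b) / 2 + (∑ a, 1 * P a a) / 2 := by
        have h1 : ∑ b, (∑ a, R a b) * P b b ≤ ∑ b, 1 * P b b :=
          Finset.sum_le_sum fun b _ => mul_le_mul_of_nonneg_right (h.2.2 b) (hP0 b)
        have h2 : ∑ a, (∑ b, R a b) * P a a ≤ ∑ a, 1 * P a a :=
          Finset.sum_le_sum fun a _ => mul_le_mul_of_nonneg_right (h.2.1 a) (hP0 a)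
        linarith
    _ = ∑ a, P a a := by
        simp only [one_mul]
        ring

/-- adding the endpoints of an edge -/
def comm_add (g : Gr V E) (e : E) (a : V → Bool) : V → Bool :=
  Function.update (Function.update a (g.src e) true) (g.tgt e) true

/-- removing the endpoints of an edge -/
def comm_rem (g : Gr V E) (e : E) (a : V → Bool) : V → Bool :=
  Function.update (Function.update a (g.src e) false) (g.tgt e) false

theorem comm_pair (g : Gr V E) (e : E) (a a' : V → Bool) :
    pairM g e a a' = if (a (g.src e) = false ∧ a (g.tgt e) = false) ∧ comm_add g e a = a' then 1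
      else 0 := by
  unfold pairM comm_add
  refine if_congr ?_ rfl rfl
  rw [and_assoc, eq_comm (a := a')]

theorem comm_iff (g : Gr V E) (e : E) (a a' : V → Bool) :
    ((a (g.src e) = false ∧ a (g.tgt e) = false) ∧ comm_add g e a = a') ↔
      ((a' (g.src e) = true ∧ a' (g.tgt e) = true) ∧ comm_rem g e a' = a) := by
  have hne := g.ne e
  constructor
  · rintro ⟨⟨h1, h2⟩, rfl⟩
    refine ⟨⟨?_, ?_⟩, ?_⟩
    · simp [comm_add, Function.update_apply]
    · simp [comm_add, Function.update_apply]
    · funext y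
      by_cases h3 : y = g.tgt e
      · subst h3; simp [comm_rem, h2]
      · by_cases h4 : y = g.src e
        · subst h4; simp [comm_rem, Function.update_apply, hne, h1]
        · simp [comm_rem, comm_add, Function.update_apply, h3, h4]
  · rintro ⟨⟨h1, h2⟩, rfl⟩
    refine ⟨⟨?_, ?_⟩, ?_⟩
    · simp [comm_rem, Function.update_apply]
    · simp [comm_rem, Function.update_apply]
    · funext y
      by_cases h3 : y = g.tgt e
      · subst h3; simp [comm_add, h2]
      · by_cases h4 : y = g.src e
        · subst h4; simp [comm_add, Function.update_apply, hne, h1]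
        · simp [comm_rem, comm_add, Function.update_apply, h3, h4]

theorem comm_pair' (g : Gr V E) (e : E) (a a' : V → Bool) :
    pairM g e a a' = if (a' (g.src e) = true ∧ a' (g.tgt e) = true) ∧ comm_rem g e a' = a then 1
      else 0 := by
  rw [comm_pair]
  exact if_congr (comm_iff g e a a') rfl rfl

theorem comm_pair_sub (g : Gr V E) (e : E) : comm_sub (pairM g e) := by
  refine ⟨fun a b => ?_, fun a => ?_, fun b => ?_⟩
  · rw [comm_pair]
    split_ifs <;> norm_num
  · simp only [comm_pair]
    by_cases h : a (g.src e) = false ∧ a (g.tgt e) = false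
    · simp [h]
    · simp [h]
  · simp only [comm_pair']
    by_cases h : b (g.src e) = true ∧ b (g.tgt e) = true
    · simp [h]
    · simp [h]

theorem comm_mul_transpose (g : Gr V E) (e f : E) (a b : V → Bool) :
    (pairM g e * (pairM g f)ᵀ) a b =
      if (a (g.src e) = false ∧ a (g.tgt e) = false) ∧ (b (g.src f) = false ∧ b (g.tgt f) = false)
        ∧ comm_add g e a = comm_add g f b then 1 else 0 := by
  simp only [Matrix.mul_apply, Matrix.transpose_apply, comm_pair]
  by_cases h : a (g.src e) = false ∧ a (g.tgt e) = false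
  · by_cases h' : b (g.src f) = false ∧ b (g.tgt f) = false
    · simp only [h, h', true_and, and_self]
      rw [Finset.sum_eq_single (comm_add g e a)]
      · simp [eq_comm]
      · intro c _ hc
        rw [if_neg (fun h => hc h.symm)]
        simp
      · simp
    · simp [h']
  · simp [h]

theorem comm_transpose_mul (g : Gr V E) (e f : E) (a b : V → Bool) :
    ((pairM g f)ᵀ * pairM g e) a b =
      if (a (g.src f) = true ∧ a (g.tgt f) = true) ∧ (b (g.src e) = true ∧ b (g.tgt e) = true)
        ∧ comm_rem g f a = comm_rem g e b then 1 else 0 := by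
  simp only [Matrix.mul_apply, Matrix.transpose_apply, comm_pair']
  by_cases h : a (g.src f) = true ∧ a (g.tgt f) = true
  · by_cases h' : b (g.src e) = true ∧ b (g.tgt e) = true
    · simp only [h, h', true_and, and_self]
      rw [Finset.sum_eq_single (comm_rem g f a)]
      · simp [eq_comm]
      · intro c _ hc
        rw [if_neg (fun h => hc h.symm)]
        simp
      · simp
    · simp [h']
  · simp [h]

theorem comm_comm (g : Gr V E) (e f : E) (h : ¬ share g e f) :
    pairM g e * (pairM g f)ᵀ = (pairM g f)ᵀ * pairM g e := by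
  unfold share at h
  push Not at h
  obtain ⟨h1, h2, h3, h4⟩ := h
  ext a b
  rw [comm_mul_transpose, comm_transpose_mul]
  refine if_congr ?_ rfl rfl
  constructor
  · rintro ⟨⟨a1, a2⟩, ⟨b1, b2⟩, hab⟩
    have hy : ∀ y, comm_add g e a y = comm_add g f b y := fun y => congrFun hab y
    have A1 := hy (g.src f)
    have A2 := hy (g.tgt f)
    have B1 := hy (g.src e)
    have B2 := hy (g.tgt e)
    simp only [comm_add, Function.update_apply, h1, h2, h3, h4, h1.symm, h2.symm, h3.symm,
      h4.symm, g.ne e, g.ne f, (g.ne e).symm, (g.ne f).symm, if_true, if_false] at A1 A2 B1 B2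
    refine ⟨⟨A1, A2⟩, ⟨B1.symm, B2.symm⟩, ?_⟩
    funext y
    have C := hy y
    simp only [comm_add, comm_rem, Function.update_apply] at C ⊢
    by_cases y1 : y = g.tgt e
    · subst y1; simp_all
    · by_cases y2 : y = g.src e
      · subst y2; simp_all
      · by_cases y3 : y = g.tgt f
        · subst y3; simp_all
        · by_cases y4 : y = g.src f
          · subst y4; simp_all
          · simpa [y1, y2, y3, y4] using C
  · rintro ⟨⟨a1, a2⟩, ⟨b1, b2⟩, hab⟩
    have hy : ∀ y, comm_rem g f a y = comm_rem g e b y := fun y => congrFun hab y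
    have A1 := hy (g.src f)
    have A2 := hy (g.tgt f)
    have B1 := hy (g.src e)
    have B2 := hy (g.tgt e)
    simp only [comm_rem, Function.update_apply, h1, h2, h3, h4, h1.symm, h2.symm, h3.symm,
      h4.symm, g.ne e, g.ne f, (g.ne e).symm, (g.ne f).symm, if_true, if_false] at A1 A2 B1 B2
    refine ⟨⟨B1, B2⟩, ⟨A1.symm, A2.symm⟩, ?_⟩
    funext y
    have C := hy y
    simp only [comm_add, comm_rem, Function.update_apply] at C ⊢
    by_cases y1 : y = g.tgt e
    · subst y1; simp_all
    · by_cases y2 : y = g.src e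
      · subst y2; simp_all
      · by_cases y3 : y = g.tgt f
        · subst y3; simp_all
        · by_cases y4 : y = g.src f
          · subst y4; simp_all
          · simpa [y1, y2, y3, y4] using C

theorem comm_pow_symm (g : Gr V E) (k : ℕ) :
    (opL g (fun _ => 1) ^ k)ᵀ = opL g (fun _ => 1) ^ k := by
  rw [Matrix.transpose_pow, (opL_symm g _).eq]

theorem comm_pow_nonneg (g : Gr V E) (k : ℕ) (a b : V → Bool) :
    0 ≤ (opL g (fun _ => 1) ^ k) a b := by
  induction k generalizing a b with
  | zero =>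
    rw [pow_zero, Matrix.one_apply]
    split_ifs <;> norm_num
  | succ k ih =>
    rw [pow_succ, Matrix.mul_apply]
    exact Finset.sum_nonneg fun c _ => mul_nonneg (ih _ _)
      (opL_nonneg g _ (fun _ => zero_le_one) _ _)

theorem comm_pow_le (g : Gr V E) (k : ℕ) (a b : V → Bool) :
    (opL g (fun _ => 1) ^ (k + k)) a b ≤
      ((opL g (fun _ => 1) ^ (k + k)) a a + (opL g (fun _ => 1) ^ (k + k)) b b) / 2 := by
  have hs : ∀ c d, (opL g (fun _ => 1) ^ k) c d = (opL g (fun _ => 1) ^ k) d c := by
    intro c d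
    have := congrFun (congrFun (comm_pow_symm g k) d) c
    rw [← this, Matrix.transpose_apply]
  rw [pow_add, Matrix.mul_apply, Matrix.mul_apply, Matrix.mul_apply, ← Finset.sum_add_distrib,
    Finset.sum_div]
  refine Finset.sum_le_sum fun c _ => ?_
  rw [hs c b, hs c a]
  nlinarith [sq_nonneg ((opL g (fun _ => 1) ^ k) a c - (opL g (fun _ => 1) ^ k) b c)]

theorem comm_sum_trace (g : Gr V E) (w : E → ℝ) (P : Matrix (V → Bool) (V → Bool) ℝ) :
    (sumM g w * P).trace = ∑ e, w e * (pairM g e * P).trace := by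
  unfold sumM
  rw [Finset.sum_mul, Matrix.trace_sum]
  refine Finset.sum_congr rfl fun e _ => ?_
  rw [Matrix.smul_mul, Matrix.trace_smul, smul_eq_mul]

theorem comm_sum_trace2 (g : Gr V E) (w : E → ℝ) (P : Matrix (V → Bool) (V → Bool) ℝ) :
    (sumM g w * (sumM g w)ᵀ * P).trace =
      ∑ e, ∑ f, w e * w f * (pairM g e * (pairM g f)ᵀ * P).trace := by
  unfold sumM
  rw [Matrix.transpose_sum, Finset.sum_mul_sum, Finset.sum_mul, Matrix.trace_sum]
  refine Finset.sum_congr rfl fun e _ => ?_
  rw [Finset.sum_mul, Matrix.trace_sum]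
  refine Finset.sum_congr rfl fun f _ => ?_
  rw [Matrix.transpose_smul, Matrix.smul_mul, Matrix.mul_smul, Matrix.smul_mul, Matrix.smul_mul,
    Matrix.trace_smul, Matrix.trace_smul, smul_eq_mul, smul_eq_mul]
  ring

theorem comm_sum_trace3 (g : Gr V E) (w : E → ℝ) (P : Matrix (V → Bool) (V → Bool) ℝ) :
    ((sumM g w)ᵀ * sumM g w * P).trace =
      ∑ e, ∑ f, w e * w f * ((pairM g f)ᵀ * pairM g e * P).trace := by
  unfold sumM
  rw [Matrix.transpose_sum, Finset.sum_mul_sum, Finset.sum_mul, Matrix.trace_sum]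
  rw [Finset.sum_comm (f := fun e f => w e * w f * ((pairM g f)ᵀ * pairM g e * P).trace)]
  refine Finset.sum_congr rfl fun f _ => ?_
  rw [Finset.sum_mul, Matrix.trace_sum]
  refine Finset.sum_congr rfl fun e _ => ?_
  rw [Matrix.transpose_smul, Matrix.smul_mul, Matrix.mul_smul, Matrix.smul_mul, Matrix.smul_mul,
    Matrix.trace_smul, Matrix.trace_smul, smul_eq_mul, smul_eq_mul]
  ring

/-- The commutator inequality. -/
theorem comm_ineq (g : Gr V E) (w : E → ℝ) (n : ℕ) (hn : 4 ≤ n) (he : Even n) (K : ℝ)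
    [DecidableRel (share g)]
    (hK : ∑ e, ∑ f, (if share g e f then |w e * w f| else 0) ≤ K * ∑ e, w e ^ 2) :
    (opL g (fun η => linF w η ^ 2) * opL g (fun _ => 1) ^ (n - 1)).trace
      - (opL g (linF w) * opL g (linF w) * opL g (fun _ => 1) ^ (n - 2)).trace
      ≤ (1 + K / 2) * (∑ e, w e ^ 2) * (opL g (fun _ => 1) ^ n).trace := by
  obtain ⟨k, hk⟩ := he
  have hlin := opL_lin g w
  have hsq := opL_sq g w
  have hsymm : (opL g (linF w))ᵀ = opL g (linF w) := (opL_symm g _).eq
  have hP := comm_pow_symm g n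
  have hP0 : ∀ a b, 0 ≤ (opL g (fun _ => 1) ^ n) a b := comm_pow_nonneg g n
  have hPle : ∀ a b, (opL g (fun _ => 1) ^ n) a b ≤
      ((opL g (fun _ => 1) ^ n) a a + (opL g (fun _ => 1) ^ n) b b) / 2 := by
    rw [hk]; exact comm_pow_le g k
  have hS := (opL_symm g (fun _ => (1 : ℝ))).eq
  have hM := comm_pow_symm g k
  have hMM : opL g (fun _ => 1) ^ n = opL g (fun _ => 1) ^ k * opL g (fun _ => 1) ^ k := by
    rw [hk, pow_add]
  have hn1 : opL g (fun _ => 1) * opL g (fun _ => 1) ^ (n - 1) = opL g (fun _ => (1 : ℝ)) ^ n := by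
    rw [← pow_succ']
    congr 1
    omega
  have hn2 : opL g (fun _ => 1) * opL g (fun _ => 1) ^ (n - 2)
      = opL g (fun _ => (1 : ℝ)) ^ (n - 1) := by
    rw [← pow_succ']
    congr 1
    omega
  have hn3 : opL g (fun _ => 1) ^ (n - 1) * opL g (fun _ => 1)
      = opL g (fun _ => (1 : ℝ)) ^ n := by
    rw [← pow_succ]
    congr 1
    omega
  rw [hsq]
  have e2 : opL g (linF w) = opL g (fun _ => 1) * (sumM g w)ᵀ := by
    rw [← hsymm, hlin, Matrix.transpose_mul, hS]
  have e3 : (opL g (linF w) * opL g (linF w) * opL g (fun _ => 1) ^ (n - 2)).trace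
      = ((sumM g w)ᵀ * sumM g w * opL g (fun _ => 1) ^ n).trace := by
    nth_rewrite 1 [e2]
    rw [hlin]
    calc (opL g (fun _ => 1) * (sumM g w)ᵀ * (sumM g w * opL g (fun _ => 1))
          * opL g (fun _ => 1) ^ (n - 2)).trace
        = (opL g (fun _ => 1) * ((sumM g w)ᵀ * sumM g w *
          (opL g (fun _ => 1) * opL g (fun _ => 1) ^ (n - 2)))).trace := by
          simp only [Matrix.mul_assoc]
      _ = (((sumM g w)ᵀ * sumM g w * opL g (fun _ => 1) ^ (n - 1)) * opL g (fun _ => 1)).trace := by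
          rw [Matrix.trace_mul_comm, hn2]
      _ = _ := by
          rw [Matrix.mul_assoc, hn3]
  rw [e3]
  have e4 : ((sumM g (fun e => w e ^ 2) * opL g (fun _ => 1)
        + sumM g w * sumM g w * opL g (fun _ => 1)) * opL g (fun _ => 1) ^ (n - 1)).trace
      = (sumM g (fun e => w e ^ 2) * opL g (fun _ => 1) ^ n).trace
        + (sumM g w * sumM g w * opL g (fun _ => 1) ^ n).trace := by
    rw [Matrix.add_mul, Matrix.trace_add, Matrix.mul_assoc, Matrix.mul_assoc, hn1]
  rw [e4]
  set P := opL g (fun _ => (1 : ℝ)) ^ n with hPdef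
  set J := sumM g w with hJ
  -- positivity
  have pos : 0 ≤ ((J - Jᵀ)ᵀ * (J - Jᵀ) * P).trace := by
    have h1 : ((J - Jᵀ)ᵀ * (J - Jᵀ) * P).trace
        = (((J - Jᵀ) * opL g (fun _ => 1) ^ k)ᵀ * ((J - Jᵀ) * opL g (fun _ => 1) ^ k)).trace := by
      rw [hMM, Matrix.transpose_mul, hM, ← Matrix.mul_assoc, Matrix.trace_mul_comm]
      simp only [Matrix.mul_assoc]
    rw [h1]
    simp only [Matrix.trace, Matrix.diag, Matrix.mul_apply, Matrix.transpose_apply]
    exact Finset.sum_nonneg fun a _ => Finset.sum_nonneg fun b _ => mul_self_nonneg _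
  have e5 : (Jᵀ * Jᵀ * P).trace = (J * J * P).trace := by
    rw [← Matrix.trace_transpose (J * J * P), Matrix.transpose_mul, Matrix.transpose_mul, hP,
      Matrix.trace_mul_comm]
  have e6 : ((J - Jᵀ)ᵀ * (J - Jᵀ) * P).trace
      = (Jᵀ * J * P).trace + (J * Jᵀ * P).trace - 2 * (J * J * P).trace := by
    rw [Matrix.transpose_sub, Matrix.transpose_transpose]
    have : (Jᵀ - J) * (J - Jᵀ) * P = Jᵀ * J * P - Jᵀ * Jᵀ * P - J * J * P + J * Jᵀ * P := by
      noncomm_ring
    rw [this, Matrix.trace_add, Matrix.trace_sub, Matrix.trace_sub, e5]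
    ring
  have hZ : 0 ≤ P.trace := Finset.sum_nonneg fun a _ => hP0 a a
  have h1 : (sumM g (fun e => w e ^ 2) * P).trace ≤ (∑ e, w e ^ 2) * P.trace := by
    rw [comm_sum_trace, Finset.sum_mul]
    exact Finset.sum_le_sum fun e _ => mul_le_mul_of_nonneg_left
      (comm_tr_le (comm_pair_sub g e) (fun a => hP0 a a) hPle) (sq_nonneg _)
  have h2 : (J * Jᵀ * P).trace - (Jᵀ * J * P).trace ≤ K * (∑ e, w e ^ 2) * P.trace := by
    rw [hJ, comm_sum_trace2, comm_sum_trace3, ← Finset.sum_sub_distrib]
    calc ∑ e, (∑ f, w e * w f * (pairM g e * (pairM g f)ᵀ * P).trace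
          - ∑ f, w e * w f * ((pairM g f)ᵀ * pairM g e * P).trace)
        ≤ ∑ e, ∑ f, (if share g e f then |w e * w f| else 0) * P.trace := by
          refine Finset.sum_le_sum fun e _ => ?_
          rw [← Finset.sum_sub_distrib]
          refine Finset.sum_le_sum fun f _ => ?_
          rw [← mul_sub]
          split_ifs with hef
          · have s1 : comm_sub (pairM g e * (pairM g f)ᵀ) :=
              comm_sub_mul (comm_pair_sub g e) (comm_sub_transpose (comm_pair_sub g f))
            have s2 : comm_sub ((pairM g f)ᵀ * pairM g e) :=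
              comm_sub_mul (comm_sub_transpose (comm_pair_sub g f)) (comm_pair_sub g e)
            have t1 := comm_tr_nonneg s1 hP0
            have t2 := comm_tr_nonneg s2 hP0
            have t3 := comm_tr_le s1 (fun a => hP0 a a) hPle
            have t4 := comm_tr_le s2 (fun a => hP0 a a) hPle
            refine (le_abs_self _).trans ?_
            rw [abs_mul]
            refine mul_le_mul_of_nonneg_left ?_ (abs_nonneg _)
            rw [abs_le]
            constructor <;> linarith
          · rw [comm_comm g e f hef, sub_self, mul_zero, zero_mul]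
      _ = (∑ e, ∑ f, (if share g e f then |w e * w f| else 0)) * P.trace := by
          rw [Finset.sum_mul]
          exact Finset.sum_congr rfl fun e _ => (Finset.sum_mul _ _ _).symm
      _ ≤ K * (∑ e, w e ^ 2) * P.trace := mul_le_mul_of_nonneg_right hK hZ
  nlinarith [h1, h2, pos, e6]

/-- Trivial bound for the one layer term. -/
theorem triv_ineq (g : Gr V E) (w : E → ℝ) (n : ℕ) (hn : 4 ≤ n) (he : Even n)
    (s : Finset E) (hs : ∀ e, e ∉ s → w e = 0) :
    (opL g (fun η => linF w η ^ 2) * opL g (fun _ => 1) ^ (n - 1)).trace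
      ≤ s.card * (∑ e, w e ^ 2) * (opL g (fun _ => 1) ^ n).trace := by
  have h1 : ∀ η : E → Bool, linF w η ^ 2 ≤ s.card * ∑ e, w e ^ 2 := by
    intro η
    have h2 : linF w η = ∑ e ∈ s, w e * (η e).toNat := by
      unfold linF
      symm
      apply Finset.sum_subset (Finset.subset_univ s)
      intro e _ he'
      rw [hs e he', zero_mul]
    rw [h2]
    refine (sq_sum_le_card_mul_sum_sq).trans ?_
    refine mul_le_mul_of_nonneg_left ?_ (Nat.cast_nonneg _)
    refine (Finset.sum_le_sum fun e _ => ?_).trans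
      (Finset.sum_le_univ_sum_of_nonneg fun e => sq_nonneg (w e))
    cases η e
    · simp [sq_nonneg]
    · simp
  have h3 : ∀ a b, opL g (fun η => linF w η ^ 2) a b
      ≤ s.card * (∑ e, w e ^ 2) * opL g (fun _ => 1) a b := by
    intro a b
    unfold opL
    rw [Finset.mul_sum]
    refine Finset.sum_le_sum fun η _ => ?_
    have h4 : 0 ≤ wgt g a η b := by
      unfold wgt
      split_ifs <;> norm_num
    nlinarith [h1 η]
  have hn1 : opL g (fun _ => 1) * opL g (fun _ => 1) ^ (n - 1) = opL g (fun _ => (1 : ℝ)) ^ n := by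
    rw [← pow_succ']
    congr 1
    omega
  rw [← hn1]
  simp only [Matrix.trace, Matrix.diag, Matrix.mul_apply]
  rw [Finset.mul_sum]
  refine Finset.sum_le_sum fun a _ => ?_
  rw [Finset.mul_sum]
  refine Finset.sum_le_sum fun b _ => ?_
  rw [← mul_assoc]
  exact mul_le_mul_of_nonneg_right (h3 a b) (comm_pow_nonneg g (n - 1) b a)

end LibDim
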