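import Mathlib

namespace LibDim

open Finset

/-- vertices of the discrete torus `(ℤ/n)^d` -/
abbrev Vtx (d n : ℕ) : Type := Fin d → ZMod n

/-- the unit vector in direction `i` -/
def stp {d n : ℕ} (i : Fin d) : Vtx d n := Pi.single i 1

/-- A perfect matching of the nearest neighbour graph of the torus, recorded by its partner map:
an involution that sends every vertex to one of its neighbours `x + e_i`, `x - e_i`. -/
def IsPM {d n : ℕ} (τ : Vtx d n → Vtx d n) : Prop :=
  (∀ x, τ (τ x) = x) ∧ ∀ x, ∃ i, τ x = x + stp i ∨ τ x = x - stp i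

open Classical in
/-- the finite set of perfect matchings -/
noncomputable def PMs (d n : ℕ) [NeZero n] : Finset (Vtx d n → Vtx d n) :=
  univ.filter IsPM

/-- expectation for the uniform perfect matching -/
noncomputable def expect (d n : ℕ) [NeZero n] (F : (Vtx d n → Vtx d n) → ℝ) : ℝ :=
  (∑ τ ∈ PMs d n, F τ) / (PMs d n).card

/-- the flow of a perfect matching from an even vertex to a neighbour -/
noncomputable def flow {d n : ℕ} (τ : Vtx d n → Vtx d n) (x y : Vtx d n) : ℝ :=
  (if τ x = y then 1 else 0) - 1 / (2 * d)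

/-- a vertex is even when its coordinate sum is even -/
def evenV {d n : ℕ} (x : Vtx d n) : Prop := Even (∑ i, (x i).val)

/-- the midpoint of the segment from `x` to `x + s e_i` (with `s = 1` or `s = -1`), scaled by
`1/n` -/
noncomputable def midp {d n : ℕ} (x : Vtx d n) (i : Fin d) (s : ℝ) : Fin d → ℝ :=
  fun k => (((x k).val : ℝ) + (if k = i then s / 2 else 0)) / n

open Classical in
/-- the random variable `F_n(φ)` of the problem -/
noncomputable def fld (d n : ℕ) [NeZero n] (φ : (Fin d → ℝ) → (Fin d → ℝ))
    (τ : Vtx d n → Vtx d n) : ℝ :=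
  (n : ℝ) ^ (-(d : ℝ) / 2) *
    ∑ x ∈ univ.filter (fun x : Vtx d n => evenV x),
      ∑ i : Fin d, (flow τ x (x + stp i) * φ (midp x i 1) i
        - flow τ x (x - stp i) * φ (midp x i (-1)) i)

/-- forward difference in direction `j` on the torus -/
def difV {d n : ℕ} (j : Fin d) (w : Vtx d n → ℝ) : Vtx d n → ℝ := fun x => w (x + stp j) - w x

/-- sign of a vertex -/
noncomputable def sgnV {d n : ℕ} (x : Vtx d n) : ℝ := (-1) ^ (∑ i, (x i).val)

open Classical in
/-- signed weighted number of matching edges in direction `i` -/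
noncomputable def edgeSum {d n : ℕ} [NeZero n] (i : Fin d) (w : Vtx d n → ℝ)
    (τ : Vtx d n → Vtx d n) : ℝ :=
  ∑ x, sgnV x * w x * (if τ x = x + stp i then 1 else 0)

end LibDim
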