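import Mathlib

namespace LibDim

open Finset
open scoped ContDiff

variable {d : ℕ}

/-- `ℤ^d`-periodic functions -/
def Per {β : Type*} (f : (Fin d → ℝ) → β) : Prop := ∀ x i, f (x + Pi.single i 1) = f x

/-- difference in direction `i` with step `h` -/
def dfs (i : Fin d) (h : ℝ) (f : (Fin d → ℝ) → ℝ) : (Fin d → ℝ) → ℝ :=
  fun x => f (x + Pi.single i h) - f x

/-- partial derivative -/
noncomputable def pd (i : Fin d) (f : (Fin d → ℝ) → ℝ) : (Fin d → ℝ) → ℝ :=
  fun x => fderiv ℝ f x (Pi.single i 1)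

theorem diff_zsmul_single (i : Fin d) (n : ℤ) :
    n • (Pi.single i (1 : ℝ) : Fin d → ℝ) = Pi.single i (n : ℝ) := by
  ext k
  by_cases h : k = i
  · subst h
    simp
  · simp [Pi.single_eq_of_ne h]

theorem diff_int (f : (Fin d → ℝ) → ℝ) (hp : Per f) (i : Fin d) (n : ℤ) (x : Fin d → ℝ) :
    f (x + Pi.single i (n : ℝ)) = f x := by
  have h : Function.Periodic f (Pi.single i (1 : ℝ)) := fun x => hp x i
  rw [← diff_zsmul_single]
  exact (h.zsmul n) x

theorem diff_int_sum (f : (Fin d → ℝ) → ℝ) (hp : Per f) (k : Fin d → ℤ) (s : Finset (Fin d))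
    (x : Fin d → ℝ) : f (x + ∑ i ∈ s, Pi.single i (k i : ℝ)) = f x := by
  classical
  induction s using Finset.induction_on with
  | empty => simp
  | insert a s ha ih =>
    rw [Finset.sum_insert ha]
    have h1 : x + ((Pi.single a ((k a : ℤ) : ℝ) : Fin d → ℝ) + ∑ i ∈ s, Pi.single i (k i : ℝ))
        = (x + ∑ i ∈ s, Pi.single i (k i : ℝ)) + Pi.single a ((k a : ℤ) : ℝ) := by abel
    rw [h1, diff_int f hp, ih]

/-- reduce to the compact cube by periodicity (subtract the integer parts, coordinate by coordinate) -/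
theorem per_bdd (f : (Fin d → ℝ) → ℝ) (hf : Continuous f) (hp : Per f) :
    ∃ C, ∀ x, |f x| ≤ C := by
  obtain ⟨C, hC⟩ := (isCompact_Icc (a := (0 : Fin d → ℝ)) (b := 1)).exists_bound_of_continuousOn
    hf.continuousOn
  refine ⟨C, fun x => ?_⟩
  have h1 := diff_int_sum f hp (fun i => -⌊x i⌋) Finset.univ x
  have h2 : (x + ∑ i, Pi.single i ((-⌊x i⌋ : ℤ) : ℝ)) = fun i => Int.fract (x i) := by
    rw [Finset.univ_sum_single]
    ext i
    simp only [Pi.add_apply, Int.cast_neg]
    rw [← Int.self_sub_floor]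
    ring
  rw [h2] at h1
  rw [← h1, ← Real.norm_eq_abs]
  refine hC _ ⟨fun i => ?_, fun i => ?_⟩
  · exact Int.fract_nonneg _
  · exact (Int.fract_lt_one _).le

theorem pd_smooth (i : Fin d) (f : (Fin d → ℝ) → ℝ) (hf : ContDiff ℝ ∞ f) :
    ContDiff ℝ ∞ (pd i f) :=
  (hf.fderiv_right (m := ∞) (by simp)).clm_apply contDiff_const

theorem pd_per (i : Fin d) (f : (Fin d → ℝ) → ℝ) (hp : Per f) : Per (pd i f) := by
  intro x j
  unfold pd
  have h : (fun y => f (y + Pi.single j 1)) = f := funext fun y => hp y j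
  rw [← fderiv_comp_add_right, h]

theorem diff_line (i : Fin d) (F : (Fin d → ℝ) → ℝ) (hF : Differentiable ℝ F) (x : Fin d → ℝ)
    (t : ℝ) : HasDerivAt (fun t : ℝ => F (x + Pi.single i t)) (pd i F (x + Pi.single i t)) t := by
  have h0 : ∀ t : ℝ, (Pi.single i t : Fin d → ℝ) = t • Pi.single i 1 := by
    intro t
    ext k
    by_cases h : k = i
    · subst h
      simp
    · simp [Pi.single_eq_of_ne h]
  have h1 : HasDerivAt (fun t : ℝ => x + Pi.single i t) (Pi.single i 1) t := by
    have h2 : (fun t : ℝ => x + Pi.single i t) = fun t : ℝ => x + t • Pi.single i 1 := by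
      funext t
      rw [h0 t]
    rw [h2]
    have h3 := ((hasDerivAt_id t).smul_const (Pi.single i 1 : Fin d → ℝ)).const_add x
    simpa using h3
  exact (hF (x + Pi.single i t)).hasFDerivAt.comp_hasDerivAt t h1

theorem diff_mvt (i : Fin d) (F : (Fin d → ℝ) → ℝ) (hF : Differentiable ℝ F) (C : ℝ)
    (hC : ∀ y, |pd i F y| ≤ C) (h : ℝ) (x : Fin d → ℝ) : |dfs i h F x| ≤ C * |h| := by
  have h1 := Convex.norm_image_sub_le_of_norm_hasDerivWithin_le (𝕜 := ℝ)
    (f := fun t : ℝ => F (x + Pi.single i t)) (f' := fun t => pd i F (x + Pi.single i t)) (C := C)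
    (s := Set.univ) (x := 0) (y := h) (fun t _ => (diff_line i F hF x t).hasDerivWithinAt)
    (fun t _ => by rw [Real.norm_eq_abs]; exact hC _) convex_univ (Set.mem_univ _)
    (Set.mem_univ _)
  simpa [dfs, Real.norm_eq_abs] using h1

theorem diff_dfs_smooth (j : Fin d) (h : ℝ) (f : (Fin d → ℝ) → ℝ) (hf : ContDiff ℝ ∞ f) :
    ContDiff ℝ ∞ (dfs j h f) := by
  unfold dfs
  exact (hf.comp (contDiff_id.add contDiff_const)).sub hf

theorem diff_iter_smooth (j : Fin d) (h : ℝ) (m : ℕ) (f : (Fin d → ℝ) → ℝ)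
    (hf : ContDiff ℝ ∞ f) : ContDiff ℝ ∞ ((dfs j h)^[m] f) := by
  induction m with
  | zero => exact hf
  | succ m ih =>
    rw [Function.iterate_succ_apply']
    exact diff_dfs_smooth j h _ ih

theorem diff_pd_dfs (i j : Fin d) (h : ℝ) (f : (Fin d → ℝ) → ℝ) (hf : Differentiable ℝ f) :
    pd i (dfs j h f) = dfs j h (pd i f) := by
  funext x
  unfold pd dfs
  have h1 : DifferentiableAt ℝ (fun y => f (y + Pi.single j h)) x :=
    (hf (x + Pi.single j h)).comp x (differentiableAt_id.add_const _)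
  have h2 : fderiv ℝ (fun y => f (y + Pi.single j h) - f y) x
      = fderiv ℝ (fun y => f (y + Pi.single j h)) x - fderiv ℝ f x := fderiv_fun_sub h1 (hf x)
  rw [h2, fderiv_comp_add_right]
  rfl

theorem diff_pd_iter (i j : Fin d) (h : ℝ) (m : ℕ) (f : (Fin d → ℝ) → ℝ)
    (hf : ContDiff ℝ ∞ f) : pd i ((dfs j h)^[m] f) = (dfs j h)^[m] (pd i f) := by
  induction m with
  | zero => rfl
  | succ m ih =>
    rw [Function.iterate_succ_apply', Function.iterate_succ_apply', diff_pd_dfs, ih]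
    exact (diff_iter_smooth j h m f hf).differentiable (by simp)

theorem diff_dfs_comm (i j : Fin d) (h k : ℝ) (f : (Fin d → ℝ) → ℝ) :
    dfs j h (dfs i k f) = dfs i k (dfs j h f) := by
  funext x
  unfold dfs
  rw [add_right_comm x (Pi.single j h)]
  ring

theorem diff_iter_comm (i j : Fin d) (h k : ℝ) (m : ℕ) (f : (Fin d → ℝ) → ℝ) :
    (dfs j h)^[m] (dfs i k f) = dfs i k ((dfs j h)^[m] f) := by
  induction m with
  | zero => rfl
  | succ m ih =>
    rw [Function.iterate_succ_apply', Function.iterate_succ_apply', ih, diff_dfs_comm]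

/-- Iterated differences of smooth periodic functions. Induction on m with f general: F = (dfs j h)^[m] f is differentiable with
pd j F = (dfs j h)^[m] (pd j f) (the operators commute for differentiable functions), and the mean value theorem along direction j gives
|dfs j h F x| <= |h| * sup |pd j F| <= |h| * C(m, pd j f) * |h|^m. (`Function.iterate_succ_apply'`.) -/
theorem dfs_iter_bound (j : Fin d) (m : ℕ) (f : (Fin d → ℝ) → ℝ) (hf : ContDiff ℝ ∞ f)
    (hp : Per f) : ∃ C, ∀ h x, |(dfs j h)^[m] f x| ≤ C * |h| ^ m := by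
  induction m generalizing f with
  | zero =>
    obtain ⟨C, hC⟩ := per_bdd f hf.continuous hp
    exact ⟨C, fun h x => by simpa using hC x⟩
  | succ m ih =>
    obtain ⟨C, hC⟩ := ih (pd j f) (pd_smooth j f hf) (pd_per j f hp)
    refine ⟨C, fun h x => ?_⟩
    rw [Function.iterate_succ_apply']
    have h1 := diff_mvt j ((dfs j h)^[m] f)
      ((diff_iter_smooth j h m f hf).differentiable (by simp)) (C * |h| ^ m)
      (fun y => by rw [diff_pd_iter j j h m f hf]; exact hC h y) h x
    rwa [mul_assoc, ← pow_succ] at h1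

/-- One extra difference in another direction: (dfs j h)^[m] (dfs i k f) = dfs i k ((dfs j h)^[m] f) and the mean value theorem in direction i,
pd i ((dfs j h)^[m] f) = (dfs j h)^[m] (pd i f). -/
theorem dfs_iter_bound' (i j : Fin d) (m : ℕ) (f : (Fin d → ℝ) → ℝ) (hf : ContDiff ℝ ∞ f)
    (hp : Per f) : ∃ C, ∀ h k x, |(dfs j h)^[m] (dfs i k f) x| ≤ C * |k| * |h| ^ m := by
  obtain ⟨C, hC⟩ := dfs_iter_bound j m (pd i f) (pd_smooth i f hf) (pd_per i f hp)
  refine ⟨C, fun h k x => ?_⟩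
  rw [diff_iter_comm]
  have h1 := diff_mvt i ((dfs j h)^[m] f)
    ((diff_iter_smooth j h m f hf).differentiable (by simp)) (C * |h| ^ m)
    (fun y => by rw [diff_pd_iter i j h m f hf]; exact hC h y) k x
  rwa [mul_right_comm] at h1

/-- First order Taylor bound: by the mean value theorem dfs i h f x = h * pd i f (x + ξ e_i), |ξ| <= |h|, and
|pd i f (x + ξ e_i) - pd i f x| = |dfs i ξ (pd i f) x| <= C |ξ|. -/
theorem dfs_taylor (i : Fin d) (f : (Fin d → ℝ) → ℝ) (hf : ContDiff ℝ ∞ f) (hp : Per f) :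
    ∃ C, ∀ h x, |dfs i h f x - h * pd i f x| ≤ C * h ^ 2 := by
  obtain ⟨C, hC⟩ := dfs_iter_bound i 1 (pd i f) (pd_smooth i f hf) (pd_per i f hp)
  have hC0 : 0 ≤ C := by
    have h1 := hC 1 0
    have h2 : C * |(1 : ℝ)| ^ 1 = C := by simp
    rw [h2] at h1
    exact (abs_nonneg _).trans h1
  refine ⟨C, fun h x => ?_⟩
  have hd : ∀ t ∈ Set.Icc (-|h|) |h|, HasDerivWithinAt
      (fun t : ℝ => f (x + Pi.single i t) - t * pd i f x)
      (pd i f (x + Pi.single i t) - pd i f x) (Set.Icc (-|h|) |h|) t := by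
    intro t _
    have h1 := (diff_line i f (hf.differentiable (by simp)) x t).sub
      ((hasDerivAt_id t).mul_const (pd i f x))
    rw [one_mul] at h1
    exact h1.hasDerivWithinAt
  have hb : ∀ t ∈ Set.Icc (-|h|) |h|, ‖pd i f (x + Pi.single i t) - pd i f x‖ ≤ C * |h| := by
    intro t ht
    rw [Real.norm_eq_abs]
    have h1 := hC t x
    simp only [Function.iterate_one, pow_one] at h1
    exact h1.trans (mul_le_mul_of_nonneg_left (abs_le.2 ht) hC0)
  have h2 := Convex.norm_image_sub_le_of_norm_hasDerivWithin_le hd hb (convex_Icc _ _)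
    (x := 0) (y := h) ⟨by simp, abs_nonneg h⟩ ⟨neg_abs_le h, le_abs_self h⟩
  simp only [Pi.single_zero, add_zero, zero_mul, sub_zero, Real.norm_eq_abs] at h2
  have h3 : dfs i h f x - h * pd i f x = f (x + Pi.single i h) - h * pd i f x - f x := by
    unfold dfs
    ring
  rw [h3]
  refine h2.trans (le_of_eq ?_)
  rw [mul_assoc, abs_mul_abs_self]
  ring

end LibDim
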