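import Pool.Agent.LibDim.Scalar

namespace LibDim

open Finset

/-- forward difference on the cycle -/
def dif1 {n : ℕ} {R : Type*} [Sub R] (a : ZMod n → R) : ZMod n → R := fun t => a (t + 1) - a t

/-- orthogonality of the characters of the cycle -/
theorem four_orth (n : ℕ) [NeZero n] (t : ZMod n) :
    ∑ k : ZMod n, (ZMod.stdAddChar (k * t) : ℂ) = if t = 0 then (n : ℂ) else 0 := by
  rw [AddChar.sum_mulShift t (ZMod.isPrimitive_stdAddChar n)]
  simp [ZMod.card]

/-- Fourier coefficient of a real function on the cycle -/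
noncomputable def fourA {n : ℕ} [NeZero n] (a : ZMod n → ℝ) (k : ZMod n) : ℂ :=
  ∑ t, (a t : ℂ) * ZMod.stdAddChar (k * t)

theorem four_conj {n : ℕ} [NeZero n] (a : ZMod n → ℝ) (k : ZMod n) :
    (starRingEnd ℂ) (fourA a k) = ∑ s, (a s : ℂ) * ZMod.stdAddChar (k * (-s)) := by
  unfold fourA
  rw [map_sum]
  refine Finset.sum_congr rfl fun s _ => ?_
  rw [map_mul, Complex.conj_ofReal, mul_neg, AddChar.map_neg_eq_conj]

/-- the quadratic form of a kernel in terms of the Fourier coefficients, complex form -/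
theorem four_quadC {n : ℕ} [NeZero n] (c a : ZMod n → ℝ) :
    (n : ℂ) * ∑ t, ∑ s, (c (s - t) : ℂ) * ((a t : ℂ) * a s)
      = ∑ k, (∑ r, (c r : ℂ) * ZMod.stdAddChar (k * r)) * (fourA a k * (starRingEnd ℂ) (fourA a k)) := by
  symm
  calc ∑ k, (∑ r, (c r : ℂ) * ZMod.stdAddChar (k * r)) * (fourA a k * (starRingEnd ℂ) (fourA a k))
      = ∑ k, ∑ t, ∑ s, ∑ r, ((c r : ℂ) * ((a t : ℂ) * a s)) * ZMod.stdAddChar (k * (r + t - s)) := by
        refine Finset.sum_congr rfl fun k _ => ?_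
        rw [four_conj, fourA, Finset.sum_mul_sum, Finset.mul_sum]
        refine Finset.sum_congr rfl fun t _ => ?_
        rw [Finset.mul_sum]
        refine Finset.sum_congr rfl fun s _ => ?_
        rw [Finset.sum_mul]
        refine Finset.sum_congr rfl fun r _ => ?_
        have h : k * (r + t - s) = k * r + (k * t + k * (-s)) := by ring
        rw [h, AddChar.map_add_eq_mul, AddChar.map_add_eq_mul]
        ring
    _ = ∑ t, ∑ s, ∑ r, ∑ k : ZMod n, ((c r : ℂ) * ((a t : ℂ) * a s)) * ZMod.stdAddChar (k * (r + t - s)) := by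
        rw [Finset.sum_comm]
        refine Finset.sum_congr rfl fun t _ => ?_
        rw [Finset.sum_comm]
        refine Finset.sum_congr rfl fun s _ => ?_
        rw [Finset.sum_comm]
    _ = (n : ℂ) * ∑ t, ∑ s, (c (s - t) : ℂ) * ((a t : ℂ) * a s) := by
        rw [Finset.mul_sum]
        refine Finset.sum_congr rfl fun t _ => ?_
        rw [Finset.mul_sum]
        refine Finset.sum_congr rfl fun s _ => ?_
        have h : ∀ r : ZMod n, (∑ k : ZMod n, ((c r : ℂ) * ((a t : ℂ) * a s)) *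
            ZMod.stdAddChar (k * (r + t - s))) = if r = s - t then (n : ℂ) * ((c (s - t) : ℂ) * ((a t : ℂ) * a s)) else 0 := by
          intro r
          rw [← Finset.mul_sum, four_orth]
          have h2 : r + t - s = 0 ↔ r = s - t := by
            constructor
            · intro h3
              linear_combination h3
            · intro h3
              rw [h3]
              ring
          by_cases h3 : r = s - t
          · rw [if_pos h3, if_pos (h2.2 h3), h3]
            ring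
          · rw [if_neg h3, if_neg (fun h4 => h3 (h2.1 h4)), mul_zero]
        rw [Finset.sum_congr rfl fun r _ => h r, Finset.sum_ite_eq' Finset.univ (s - t)]
        simp

/-- the quadratic form of a kernel in terms of the Fourier coefficients -/
theorem four_quad {n : ℕ} [NeZero n] (c a : ZMod n → ℝ) :
    (n : ℝ) * ∑ t, ∑ s, c (s - t) * (a t * a s)
      = ∑ k, (∑ r, (c r : ℂ) * ZMod.stdAddChar (k * r)).re * ‖fourA a k‖ ^ 2 := by
  have h := congrArg Complex.re (four_quadC c a)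
  have h1 : ((n : ℂ) * ∑ t, ∑ s, (c (s - t) : ℂ) * ((a t : ℂ) * a s)) =
      (((n : ℝ) * ∑ t, ∑ s, c (s - t) * (a t * a s) : ℝ) : ℂ) := by
    push_cast
    rfl
  rw [h1, Complex.ofReal_re, Complex.re_sum] at h
  rw [h]
  refine Finset.sum_congr rfl fun k _ => ?_
  rw [Complex.mul_conj, ← Complex.sq_norm, Complex.re_mul_ofReal]

theorem four_parseval {n : ℕ} [NeZero n] (a : ZMod n → ℝ) :
    (n : ℝ) * ∑ t, a t ^ 2 = ∑ k, ‖fourA a k‖ ^ 2 := by
  classical
  have h := four_quad (fun r : ZMod n => if r = 0 then (1 : ℝ) else 0) a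
  have h1 : ∀ k : ZMod n, (∑ r, (((fun r : ZMod n => if r = 0 then (1 : ℝ) else 0) r : ℝ) : ℂ) *
      ZMod.stdAddChar (k * r)) = 1 := by
    intro k
    rw [Finset.sum_eq_single (0 : ZMod n)]
    · simp
    · intro b _ hb
      simp [hb]
    · intro h0
      exact absurd (Finset.mem_univ _) h0
  have h2 : ∀ t : ZMod n, (∑ s, (fun r : ZMod n => if r = 0 then (1 : ℝ) else 0) (s - t) * (a t * a s))
      = a t ^ 2 := by
    intro t
    rw [Finset.sum_eq_single t]
    · simp only [sub_self, if_true]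
      ring
    · intro b _ hb
      have : b - t ≠ 0 := sub_ne_zero.2 hb
      simp [this]
    · intro h0
      exact absurd (Finset.mem_univ _) h0
  rw [Finset.sum_congr rfl fun t _ => h2 t] at h
  rw [h]
  refine Finset.sum_congr rfl fun k _ => ?_
  rw [h1]
  simp

theorem four_dif {n : ℕ} [NeZero n] (a : ZMod n → ℝ) (k : ZMod n) :
    fourA (dif1 a) k = (ZMod.stdAddChar (-k) - 1) * fourA a k := by
  have h : ∑ t : ZMod n, (a (t + 1) : ℂ) * ZMod.stdAddChar (k * t) =
      ∑ t : ZMod n, (a t : ℂ) * ZMod.stdAddChar (k * (t - 1)) := by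
    refine Fintype.sum_equiv (Equiv.addRight (1 : ZMod n)) _ _ fun t => ?_
    simp
  unfold fourA dif1
  rw [sub_mul, one_mul, Finset.mul_sum]
  have h2 : ∑ t : ZMod n, ((a (t + 1) - a t : ℝ) : ℂ) * ZMod.stdAddChar (k * t) =
      ∑ t : ZMod n, (a (t + 1) : ℂ) * ZMod.stdAddChar (k * t) -
      ∑ t : ZMod n, (a t : ℂ) * ZMod.stdAddChar (k * t) := by
    rw [← Finset.sum_sub_distrib]
    refine Finset.sum_congr rfl fun t _ => ?_
    push_cast
    ring
  rw [h2, h]
  congr 1
  refine Finset.sum_congr rfl fun t _ => ?_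
  have h3 : k * (t - 1) = -k + k * t := by ring
  rw [h3, AddChar.map_add_eq_mul]
  ring

theorem four_norm {n : ℕ} [NeZero n] (k : ZMod n) :
    ‖(ZMod.stdAddChar (-k) : ℂ) - 1‖ = ‖(ZMod.stdAddChar k : ℂ) - 1‖ := by
  rw [AddChar.map_neg_eq_conj]
  have h : (starRingEnd ℂ) (ZMod.stdAddChar k : ℂ) - 1 = (starRingEnd ℂ) ((ZMod.stdAddChar k : ℂ) - 1) := by
    simp
  rw [h, Complex.norm_conj]

theorem four_iter {n : ℕ} [NeZero n] (m : ℕ) (a : ZMod n → ℝ) (k : ZMod n) :
    ‖fourA ((dif1^[m]) a) k‖ ^ 2 = (‖(ZMod.stdAddChar k : ℂ) - 1‖ ^ 2) ^ m * ‖fourA a k‖ ^ 2 := by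
  induction m with
  | zero => simp
  | succ m ih =>
    rw [Function.iterate_succ_apply', four_dif, norm_mul, mul_pow, ih, four_norm, pow_succ]
    ring

/-- The scalar quadratic form inequality.
Proof by the discrete Fourier transform: for an additive character psi of `ZMod n` (`AddChar (ZMod n) ℂ`), z = psi 1 satisfies z^n = 1,
|z| = 1 and psi r = z ^ r.val. With A psi = sum_t a_t psi t (complex):
 sum_{t,s} ker(s-t) a_t a_s = (1/n) sum_psi kappa(psi) * A(psi) * conj(A(psi)) where kappa(psi) = sum_r ker r * psi r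
 (up to psi <-> psi^-1; orthogonality `AddChar.sum_apply_eq_ite`), so only Re kappa matters;
 sum_t (dif1^[m] a)_t^2 = (1/n) sum_psi |z-1|^(2m) |A psi|^2 and sum_t a_t^2 = (1/n) sum_psi |A psi|^2 (Parseval and
 A(dif1 a)(psi) = (psi(-1) - 1) A(a)(psi)).
 It remains to see for each psi: Re kappa <= -P/2 + 2 exc + n (P/2) (1/2)^m |z-1|^(2m).
 If Re z >= 0: `symbol_right`. If Re z < 0: |z-1|^2 = 2 - 2 Re z >= 2, so the last term is >= n P/2, and use `symbol_trivial`,
 `exc_nonneg`, `pw_nonneg`. -/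
theorem scalar_ineq (n : ℕ) [NeZero n] (hn : 4 ≤ n) (he : Even n) (x y : ℝ) (m : ℕ)
    (a : ZMod n → ℝ) :
    ∑ t, ∑ s, ker n x y (s - t) * (a t * a s)
      ≤ (-(pw n x y / 2) + 2 * exc n x y) * ∑ t, a t ^ 2
        + n * (pw n x y / 2) * (1 / 2) ^ m * ∑ t, ((dif1^[m]) a t) ^ 2 := by
  have hn0 : (0 : ℝ) < n := by
    have : 0 < n := by omega
    exact_mod_cast this
  have hP := pw_nonneg n he hn x y
  have hE := exc_nonneg n hn he x y
  refine le_of_mul_le_mul_left ?_ hn0
  have h1 := four_quad (ker n x y) a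
  have h2 := four_parseval a
  have h3 := four_parseval ((dif1^[m]) a)
  have h4 : (n : ℝ) * ((-(pw n x y / 2) + 2 * exc n x y) * ∑ t, a t ^ 2
        + n * (pw n x y / 2) * (1 / 2) ^ m * ∑ t, ((dif1^[m]) a t) ^ 2) =
      ∑ k : ZMod n, ((-(pw n x y / 2) + 2 * exc n x y) +
        n * (pw n x y / 2) * (1 / 2) ^ m * (‖(ZMod.stdAddChar k : ℂ) - 1‖ ^ 2) ^ m) *
          ‖fourA a k‖ ^ 2 := by
    have h5 : ∀ k : ZMod n, ((-(pw n x y / 2) + 2 * exc n x y) +
        n * (pw n x y / 2) * (1 / 2) ^ m * (‖(ZMod.stdAddChar k : ℂ) - 1‖ ^ 2) ^ m) *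
          ‖fourA a k‖ ^ 2 = (-(pw n x y / 2) + 2 * exc n x y) * ‖fourA a k‖ ^ 2 +
        n * (pw n x y / 2) * (1 / 2) ^ m * ‖fourA ((dif1^[m]) a) k‖ ^ 2 := by
      intro k
      rw [four_iter]
      ring
    rw [Finset.sum_congr rfl fun k _ => h5 k, Finset.sum_add_distrib, ← Finset.mul_sum,
      ← Finset.mul_sum, ← h2, ← h3]
    ring
  rw [h1, h4]
  refine Finset.sum_le_sum fun k _ => ?_
  refine mul_le_mul_of_nonneg_right ?_ (by positivity)
  have hzn : (ZMod.stdAddChar k : ℂ) ^ n = 1 := by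
    rw [← AddChar.map_nsmul_eq_pow]
    have : n • k = 0 := by
      rw [nsmul_eq_mul, ZMod.natCast_self, zero_mul]
    rw [this, AddChar.map_zero_eq_one]
  have hz1 : ‖(ZMod.stdAddChar k : ℂ)‖ = 1 := by
    exact Complex.norm_eq_one_of_pow_eq_one hzn (NeZero.ne n)
  have hsum : ∑ r : ZMod n, (ker n x y r : ℂ) * ZMod.stdAddChar (k * r) =
      ∑ r : ZMod n, (ker n x y r : ℂ) * (ZMod.stdAddChar k : ℂ) ^ r.val := by
    refine Finset.sum_congr rfl fun r _ => ?_
    rw [← AddChar.map_nsmul_eq_pow]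
    have : r.val • k = k * r := by
      rw [nsmul_eq_mul, ZMod.natCast_zmod_val, mul_comm]
    rw [this]
  rw [hsum]
  rcases le_or_gt 0 (ZMod.stdAddChar k : ℂ).re with hre | hre
  · have h6 := symbol_right n hn he x y _ hzn hre
    have h7 : 0 ≤ n * (pw n x y / 2) * (1 / 2) ^ m * (‖(ZMod.stdAddChar k : ℂ) - 1‖ ^ 2) ^ m := by
      positivity
    linarith
  · have h6 := symbol_trivial n hn he x y _ hz1
    have h7 : ‖(ZMod.stdAddChar k : ℂ) - 1‖ ^ 2 = 2 - 2 * (ZMod.stdAddChar k : ℂ).re := by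
      have h8 : ‖(ZMod.stdAddChar k : ℂ)‖ ^ 2 = 1 := by rw [hz1]; norm_num
      rw [Complex.sq_norm, Complex.normSq_apply] at h8 ⊢
      simp only [Complex.sub_re, Complex.one_re, Complex.sub_im, Complex.one_im, sub_zero]
      nlinarith
    have h9 : (1 : ℝ) ≤ (1 / 2) ^ m * (‖(ZMod.stdAddChar k : ℂ) - 1‖ ^ 2) ^ m := by
      rw [← mul_pow]
      apply one_le_pow₀
      rw [h7]
      linarith
    have h10 : n * (pw n x y / 2) ≤
        n * (pw n x y / 2) * (1 / 2) ^ m * (‖(ZMod.stdAddChar k : ℂ) - 1‖ ^ 2) ^ m := by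
      have h11 : 0 ≤ n * (pw n x y / 2) := by positivity
      nlinarith [mul_le_mul_of_nonneg_left h9 h11]
    nlinarith

end LibDim
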