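import Mathlib

namespace LibDim

open Finset

/-- a finite graph given by edges with two endpoints -/
structure Gr (V E : Type) where
  src : E → V
  tgt : E → V
  ne : ∀ e, src e ≠ tgt e

variable {V E : Type} [Fintype V] [DecidableEq V] [Fintype E] [DecidableEq E]

/-- every vertex is covered exactly once: by the left state, the right state or an edge -/
def okL (g : Gr V E) (a : V → Bool) (η : E → Bool) (b : V → Bool) : Prop :=
  ∀ y, (a y).toNat + (b y).toNat
    + ∑ e, (if g.src e = y ∨ g.tgt e = y then (η e).toNat else 0) = 1

open Classical in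
/-- weight of a layer -/
noncomputable def wgt (g : Gr V E) (a : V → Bool) (η : E → Bool) (b : V → Bool) : ℝ :=
  if okL g a η b then 1 else 0

/-- layer operator with a function of the layer inserted -/
noncomputable def opL (g : Gr V E) (f : (E → Bool) → ℝ) : Matrix (V → Bool) (V → Bool) ℝ :=
  fun a b => ∑ η : E → Bool, wgt g a η b * f η

/-- linear function of a layer -/
noncomputable def linF (w : E → ℝ) (η : E → Bool) : ℝ := ∑ e, w e * (η e).toNat

/-- the pair operator of an edge: (D_e psi)(a) = psi(a with both endpoints added) if both endpoints are free in a -/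
noncomputable def pairM (g : Gr V E) (e : E) : Matrix (V → Bool) (V → Bool) ℝ :=
  fun a a' => if a (g.src e) = false ∧ a (g.tgt e) = false ∧
    a' = Function.update (Function.update a (g.src e) true) (g.tgt e) true then 1 else 0

theorem layer_okL_symm (g : Gr V E) (a : V → Bool) (η : E → Bool) (b : V → Bool) :
    okL g a η b ↔ okL g b η a := by
  unfold okL
  constructor
  · intro h y
    rw [add_comm (b y).toNat]
    exact h y
  · intro h y
    rw [add_comm (a y).toNat]
    exact h y

theorem wgt_symm (g : Gr V E) (a : V → Bool) (η : E → Bool) (b : V → Bool) :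
    wgt g a η b = wgt g b η a := by
  unfold wgt
  by_cases h : okL g a η b
  · rw [if_pos h, if_pos ((layer_okL_symm g a η b).1 h)]
  · rw [if_neg h, if_neg (fun h' => h ((layer_okL_symm g a η b).2 h'))]

theorem opL_symm (g : Gr V E) (f : (E → Bool) → ℝ) : (opL g f).IsSymm := by
  refine Matrix.IsSymm.ext fun a b => ?_
  unfold opL
  exact Finset.sum_congr rfl fun η _ => by rw [wgt_symm]

theorem layer_wgt_nonneg (g : Gr V E) (a : V → Bool) (η : E → Bool) (b : V → Bool) :
    0 ≤ wgt g a η b := by
  unfold wgt
  split_ifs
  · exact zero_le_one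
  · exact le_refl _

theorem opL_nonneg (g : Gr V E) (f : (E → Bool) → ℝ) (hf : ∀ η, 0 ≤ f η) (a b : V → Bool) :
    0 ≤ opL g f a b :=
  Finset.sum_nonneg fun η _ => mul_nonneg (layer_wgt_nonneg g a η b) (hf η)

/-- `∑_e w_e D_e` -/
noncomputable def sumM (g : Gr V E) (w : E → ℝ) : Matrix (V → Bool) (V → Bool) ℝ :=
  ∑ e, w e • pairM g e

/-- number of edges of the layer at a vertex -/
def layer_deg (g : Gr V E) (η : E → Bool) (y : V) : ℕ :=
  ∑ e, (if g.src e = y ∨ g.tgt e = y then (η e).toNat else 0)

theorem layer_deg_update (g : Gr V E) (η : E → Bool) (e : E) (he : η e = true) (y : V) :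
    layer_deg g η y = layer_deg g (Function.update η e false) y
      + (if g.src e = y ∨ g.tgt e = y then 1 else 0) := by
  unfold layer_deg
  rw [← Finset.add_sum_erase _ _ (Finset.mem_univ e),
    ← Finset.add_sum_erase (a := e) _ (fun x => if g.src x = y ∨ g.tgt x = y then
      (Function.update η e false x).toNat else 0) (Finset.mem_univ e)]
  have h : ∑ x ∈ Finset.univ.erase e, (if g.src x = y ∨ g.tgt x = y then (η x).toNat else 0)
      = ∑ x ∈ Finset.univ.erase e, (if g.src x = y ∨ g.tgt x = y then
        (Function.update η e false x).toNat else 0) := by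
    refine Finset.sum_congr rfl fun x hx => ?_
    rw [Function.update_of_ne (Finset.ne_of_mem_erase hx)]
  rw [h, he, Function.update_self]
  simp only [Bool.toNat_true, Bool.toNat_false, ite_self]
  omega

theorem layer_deg_pos (g : Gr V E) (η : E → Bool) (e : E) (he : η e = true) (y : V)
    (hy : g.src e = y ∨ g.tgt e = y) : 1 ≤ layer_deg g η y := by
  rw [layer_deg_update g η e he y, if_pos hy]
  omega

theorem layer_okL_iff (g : Gr V E) (a : V → Bool) (η : E → Bool) (b : V → Bool) :
    okL g a η b ↔ ∀ y, (a y).toNat + (b y).toNat + layer_deg g η y = 1 := Iff.rfl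

/-- a state with the endpoints of an edge added -/
def layer_add (g : Gr V E) (a : V → Bool) (e : E) : V → Bool :=
  Function.update (Function.update a (g.src e) true) (g.tgt e) true

theorem layer_add_tgt (g : Gr V E) (a : V → Bool) (e : E) : layer_add g a e (g.tgt e) = true :=
  Function.update_self _ _ _

theorem layer_add_src (g : Gr V E) (a : V → Bool) (e : E) : layer_add g a e (g.src e) = true := by
  unfold layer_add
  rw [Function.update_of_ne (g.ne e), Function.update_self]

theorem layer_add_of_ne (g : Gr V E) (a : V → Bool) (e : E) (y : V) (h1 : g.src e ≠ y)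
    (h2 : g.tgt e ≠ y) : layer_add g a e y = a y := by
  unfold layer_add
  rw [Function.update_of_ne (Ne.symm h2), Function.update_of_ne (Ne.symm h1)]

theorem layer_ok_move (g : Gr V E) (a b : V → Bool) (η : E → Bool) (e : E) (he : η e = true)
    (h1 : a (g.src e) = false) (h2 : a (g.tgt e) = false) :
    okL g a η b ↔ okL g (layer_add g a e) (Function.update η e false) b := by
  rw [layer_okL_iff, layer_okL_iff]
  refine forall_congr' fun y => ?_
  rw [layer_deg_update g η e he y]
  by_cases hy : g.src e = y ∨ g.tgt e = y
  · rw [if_pos hy]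
    have ha : (a y).toNat = 0 := by
      rcases hy with hy | hy
      · rw [← hy, h1]; rfl
      · rw [← hy, h2]; rfl
    have hb : (layer_add g a e y).toNat = 1 := by
      rcases hy with hy | hy
      · rw [← hy, layer_add_src]; rfl
      · rw [← hy, layer_add_tgt]; rfl
    rw [ha, hb]
    constructor <;> intro h <;> omega
  · rw [if_neg hy]
    rw [not_or] at hy
    rw [layer_add_of_ne g a e y hy.1 hy.2]
    constructor <;> intro h <;> omega

theorem layer_wgt_move (g : Gr V E) (a b : V → Bool) (η : E → Bool) (e : E) (he : η e = true)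
    (h1 : a (g.src e) = false) (h2 : a (g.tgt e) = false) :
    wgt g a η b = wgt g (layer_add g a e) (Function.update η e false) b := by
  unfold wgt
  by_cases h : okL g a η b
  · rw [if_pos h, if_pos ((layer_ok_move g a b η e he h1 h2).1 h)]
  · rw [if_neg h, if_neg (fun h' => h ((layer_ok_move g a b η e he h1 h2).2 h'))]

theorem layer_wgt_zero (g : Gr V E) (a b : V → Bool) (η : E → Bool) (e : E) (he : η e = true)
    (h : ¬ (a (g.src e) = false ∧ a (g.tgt e) = false)) : wgt g a η b = 0 := by
  unfold wgt
  refine if_neg fun hok => h ?_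
  rw [layer_okL_iff] at hok
  constructor
  · have h1 := hok (g.src e)
    have h2 := layer_deg_pos g η e he (g.src e) (Or.inl rfl)
    cases hc : a (g.src e)
    · rfl
    · rw [hc] at h1
      simp only [Bool.toNat_true] at h1
      omega
  · have h1 := hok (g.tgt e)
    have h2 := layer_deg_pos g η e he (g.tgt e) (Or.inr rfl)
    cases hc : a (g.tgt e)
    · rfl
    · rw [hc] at h1
      simp only [Bool.toNat_true] at h1
      omega

/-- flipping one edge -/
def layer_flip (e : E) (η : E → Bool) : E → Bool := Function.update η e (!η e)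

theorem layer_flip_inv (e : E) : Function.Involutive (layer_flip (E := E) e) := by
  intro η
  unfold layer_flip
  rw [Function.update_self, Function.update_idem, Bool.not_not, Function.update_eq_self]

theorem layer_pair_mul (g : Gr V E) (e : E) (M : Matrix (V → Bool) (V → Bool) ℝ)
    (a b : V → Bool) :
    (pairM g e * M) a b = if a (g.src e) = false ∧ a (g.tgt e) = false then
      M (layer_add g a e) b else 0 := by
  rw [Matrix.mul_apply]
  by_cases h : a (g.src e) = false ∧ a (g.tgt e) = false
  · rw [if_pos h, Finset.sum_eq_single (layer_add g a e)]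
    · unfold pairM layer_add
      rw [if_pos ⟨h.1, h.2, rfl⟩, one_mul]
    · intro c _ hc
      unfold pairM
      rw [if_neg, zero_mul]
      rintro ⟨_, _, h3⟩
      exact hc h3
    · intro h'
      exact absurd (Finset.mem_univ _) h'
  · rw [if_neg h]
    refine Finset.sum_eq_zero fun c _ => ?_
    unfold pairM
    rw [if_neg, zero_mul]
    rintro ⟨h1, h2, _⟩
    exact h ⟨h1, h2⟩

/-- Key lemma -/
theorem layer_key (g : Gr V E) (f : (E → Bool) → ℝ) (e : E) (a b : V → Bool) :
    ∑ η : E → Bool, wgt g a η b * ((η e).toNat * f η)
      = (pairM g e * opL g (fun η => f (Function.update η e true))) a b := by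
  rw [layer_pair_mul]
  by_cases h : a (g.src e) = false ∧ a (g.tgt e) = false
  · rw [if_pos h]
    unfold opL
    rw [← Equiv.sum_comp (layer_flip_inv (E := E) e).toPerm (fun η =>
      wgt g (layer_add g a e) η b * f (Function.update η e true))]
    refine Finset.sum_congr rfl fun η _ => ?_
    change _ = wgt g (layer_add g a e) (layer_flip e η) b
      * f (Function.update (layer_flip e η) e true)
    cases hc : η e
    · have h0 : layer_flip e η e = true := by
        unfold layer_flip
        rw [Function.update_self, hc]; rfl
      rw [layer_wgt_zero g (layer_add g a e) b (layer_flip e η) e h0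
        (fun hh => by rw [layer_add_src] at hh; exact absurd hh.1 (by decide))]
      simp
    · have h0 : layer_flip e η = Function.update η e false := by
        unfold layer_flip
        rw [hc]; rfl
      rw [h0, ← layer_wgt_move g a b η e hc h.1 h.2, Function.update_idem]
      have h1 : Function.update η e true = η := by
        rw [← hc, Function.update_eq_self]
      rw [h1]
      simp
  · rw [if_neg h]
    refine Finset.sum_eq_zero fun η _ => ?_
    cases hc : η e
    · simp
    · rw [layer_wgt_zero g a b η e hc h, zero_mul]

theorem layer_key_op (g : Gr V E) (f : (E → Bool) → ℝ) (e : E) :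
    opL g (fun η => (η e).toNat * f η)
      = pairM g e * opL g (fun η => f (Function.update η e true)) := by
  ext a b
  exact layer_key g f e a b

theorem layer_one (g : Gr V E) (e : E) :
    opL g (fun η => ((η e).toNat : ℝ)) = pairM g e * opL g (fun _ => 1) := by
  have h := layer_key_op g (fun _ => 1) e
  simpa using h

theorem layer_pair_sq (g : Gr V E) (e : E) (M : Matrix (V → Bool) (V → Bool) ℝ) :
    pairM g e * (pairM g e * M) = 0 := by
  ext a b
  rw [layer_pair_mul, layer_pair_mul]
  rw [layer_add_src]
  simp

theorem layer_two (g : Gr V E) (e f : E) :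
    opL g (fun η => ((η e).toNat : ℝ) * ((η f).toNat : ℝ))
      = (if e = f then pairM g e * opL g (fun _ => 1) else 0)
        + pairM g e * (pairM g f * opL g (fun _ => 1)) := by
  by_cases h : e = f
  · subst h
    rw [if_pos rfl, layer_pair_sq, add_zero, ← layer_one]
    congr 1
    ext η
    cases η e <;> simp
  · rw [if_neg h, zero_add, ← layer_one g f, layer_key_op g (fun η => ((η f).toNat : ℝ)) e]
    congr 2
    ext η
    rw [Function.update_of_ne (Ne.symm h)]

theorem layer_opL_sum {ι : Type} (g : Gr V E) (s : Finset ι) (c : ι → ℝ)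
    (f : ι → (E → Bool) → ℝ) :
    opL g (fun η => ∑ i ∈ s, c i * f i η) = ∑ i ∈ s, c i • opL g (f i) := by
  ext a b
  rw [Matrix.sum_apply]
  simp only [Matrix.smul_apply, smul_eq_mul]
  unfold opL
  simp only [Finset.mul_sum]
  rw [Finset.sum_comm]
  refine Finset.sum_congr rfl fun i _ => Finset.sum_congr rfl fun η _ => ?_
  ring

/-- Key lemma (suggested auxiliary): for every f and every edge e,
 sum_η wgt a η b * (η e).toNat * f η = (pairM g e * opL g (fun η' => f (Function.update η' e true))) a b:
η with η e = true and okL a η b corresponds to η' = update η e false with okL (a with the endpoints of e added) η' b, the endpoints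
being free in a (the vertex equation at src e and tgt e); conversely okL (a + e) η' b forces η' e = false.
Then `opL_lin` is f = 1; D_e opL(1) = opL(fun η => (η e).toNat). -/
theorem opL_lin (g : Gr V E) (w : E → ℝ) :
    opL g (linF w) = sumM g w * opL g (fun _ => 1) := by
  have h := layer_opL_sum g Finset.univ w (fun e η => ((η e).toNat : ℝ))
  have h2 : opL g (linF w) = opL g (fun η => ∑ i, w i * ((η i).toNat : ℝ)) := rfl
  rw [h2, h]
  unfold sumM
  rw [Finset.sum_mul]
  refine Finset.sum_congr rfl fun e _ => ?_
  rw [layer_one, Matrix.smul_mul]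

/-- Second order: (linF w η)^2 = sum_e w_e^2 η_e + sum_{e ≠ f} w_e w_f η_e η_f; for e ≠ f the key lemma (twice) gives
D_e D_f opL(1), and D_e D_e = 0. -/
theorem opL_sq (g : Gr V E) (w : E → ℝ) :
    opL g (fun η => linF w η ^ 2)
      = sumM g (fun e => w e ^ 2) * opL g (fun _ => 1)
        + sumM g w * sumM g w * opL g (fun _ => 1) := by
  have h0 : (fun η : E → Bool => linF w η ^ 2)
      = fun η => ∑ p ∈ (Finset.univ : Finset (E × E)), (w p.1 * w p.2)
        * (((η p.1).toNat : ℝ) * ((η p.2).toNat : ℝ)) := by
    funext η
    unfold linF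
    rw [sq, Finset.sum_mul_sum, ← Finset.sum_product']
    rw [Finset.univ_product_univ]
    refine Finset.sum_congr rfl fun p _ => ?_
    ring
  rw [h0, layer_opL_sum g Finset.univ (fun p : E × E => w p.1 * w p.2)
    (fun p η => ((η p.1).toNat : ℝ) * ((η p.2).toNat : ℝ))]
  simp only [layer_two, smul_add]
  rw [Finset.sum_add_distrib]
  congr 1
  · rw [← Finset.univ_product_univ, Finset.sum_product]
    unfold sumM
    rw [Finset.sum_mul]
    refine Finset.sum_congr rfl fun e _ => ?_
    rw [Finset.sum_eq_single e]
    · rw [if_pos rfl, Matrix.smul_mul]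
      simp only [sq]
    · intro f _ hf
      rw [if_neg (Ne.symm hf), smul_zero]
    · intro h'
      exact absurd (Finset.mem_univ _) h'
  · rw [← Finset.univ_product_univ, Finset.sum_product]
    rw [Matrix.mul_assoc]
    unfold sumM
    rw [Finset.sum_mul]
    refine Finset.sum_congr rfl fun e _ => ?_
    rw [Finset.sum_mul, Matrix.smul_mul, Finset.mul_sum, Finset.smul_sum]
    refine Finset.sum_congr rfl fun f _ => ?_
    rw [Matrix.smul_mul, Matrix.mul_smul, smul_smul]

end LibDim
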