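import Pool.Agent.LibDim.Defs
import Pool.Agent.LibDim.Diff

namespace LibDim

open Finset Filter MeasureTheory
open scoped ContDiff

theorem MainA_val_step {n : ℕ} [NeZero n] (a : ZMod n) :
    (a + 1).val = a.val + 1 ∨ ((a + 1).val = 0 ∧ a.val + 1 = n) := by
  have hlt := ZMod.val_lt a
  have h1 : (a + 1).val = (a.val + 1) % n := by
    rw [ZMod.val_add]
    have : (1 : ZMod n).val = 1 % n := ZMod.val_one_eq_one_mod n
    rw [this, Nat.add_mod_mod]
  rcases Nat.lt_or_ge (a.val + 1) n with h | h
  · left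
    rw [h1, Nat.mod_eq_of_lt h]
  · right
    have h2 : a.val + 1 = n := by omega
    refine ⟨?_, h2⟩
    rw [h1, h2, Nat.mod_self]

theorem MainA_stp_same {d n : ℕ} (x : Vtx d n) (j : Fin d) : (x + stp j : Vtx d n) j = x j + 1 := by
  simp [stp]

theorem MainA_stp_ne {d n : ℕ} (x : Vtx d n) (j k : Fin d) (h : k ≠ j) :
    (x + stp j : Vtx d n) k = x k := by
  simp [stp, Pi.single_eq_of_ne h]

theorem MainA_samp_step {d n : ℕ} [NeZero n] {β : Type*} (F : (Fin d → ℝ) → β) (hF : Per F)
    (x : Vtx d n) (j : Fin d) :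
    F (fun k => (((x + stp j : Vtx d n) k).val : ℝ) / n)
      = F ((fun k => ((x k).val : ℝ) / n) + Pi.single j (1 / (n : ℝ))) := by
  have hn : (n : ℝ) ≠ 0 := by exact_mod_cast NeZero.ne n
  rcases MainA_val_step (x j) with h | ⟨h, h'⟩
  · congr 1
    funext k
    rcases eq_or_ne k j with rfl | hk
    · rw [MainA_stp_same, h]
      simp only [Pi.add_apply, Pi.single_eq_same]
      push_cast
      ring
    · rw [MainA_stp_ne x j k hk]
      simp [Pi.single_eq_of_ne hk]
  · rw [← hF (fun k => (((x + stp j : Vtx d n) k).val : ℝ) / n) j]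
    congr 1
    funext k
    rcases eq_or_ne k j with rfl | hk
    · simp only [Pi.add_apply, Pi.single_eq_same]
      rw [show (x k + stp k k) = x k + 1 by simp [stp], h]
      have h2 : ((x k).val : ℝ) + 1 = n := by exact_mod_cast h'
      have h3 : ((x k).val : ℝ) = n - 1 := by linarith
      rw [h3]
      field_simp
      simp
    · simp only [Pi.add_apply, Pi.single_eq_of_ne hk, add_zero]
      rw [show (x k + stp j k) = x k by simp [stp, Pi.single_eq_of_ne hk]]

theorem MainA_per_dfs {d : ℕ} (j : Fin d) (h : ℝ) (f : (Fin d → ℝ) → ℝ) (hf : Per f) :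
    Per (dfs j h f) := by
  intro x i
  unfold dfs
  rw [hf x i, show x + Pi.single i 1 + Pi.single j h = (x + Pi.single j h) + Pi.single i 1 by
    abel, hf]

theorem MainA_per_iter {d : ℕ} (j : Fin d) (h : ℝ) (f : (Fin d → ℝ) → ℝ) (hf : Per f) (m : ℕ) :
    Per ((dfs j h)^[m] f) := by
  induction m with
  | zero => exact hf
  | succ m ih =>
    rw [Function.iterate_succ_apply']
    exact MainA_per_dfs j h _ ih

theorem MainA_parity {d n : ℕ} [NeZero n] (he : Even n) (x : Vtx d n) (j : Fin d) :
    (Even (∑ i, ((x + stp j : Vtx d n) i).val)) ↔ ¬ Even (∑ i, (x i).val) := by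
  classical
  have h1 : ∑ i, ((x + stp j : Vtx d n) i).val
      = ((x + stp j : Vtx d n) j).val + ∑ i ∈ univ.erase j, ((x + stp j : Vtx d n) i).val :=
    (Finset.add_sum_erase univ _ (mem_univ j)).symm
  have h2 : ∑ i, (x i).val = (x j).val + ∑ i ∈ univ.erase j, (x i).val :=
    (Finset.add_sum_erase univ _ (mem_univ j)).symm
  have h3 : ∑ i ∈ univ.erase j, ((x + stp j : Vtx d n) i).val = ∑ i ∈ univ.erase j, (x i).val := by
    apply Finset.sum_congr rfl
    intro i hi
    rw [MainA_stp_ne x j i (Finset.ne_of_mem_erase hi)]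
  rw [h1, h2, h3, MainA_stp_same]
  rcases MainA_val_step (x j) with h | ⟨h, h'⟩
  · rw [h]
    rw [show (x j).val + 1 + ∑ i ∈ univ.erase j, (x i).val
      = ((x j).val + ∑ i ∈ univ.erase j, (x i).val) + 1 by ring]
    exact Nat.even_add_one
  · rw [h]
    have h4 : ((x j).val + ∑ i ∈ univ.erase j, (x i).val) + 1
        = n + ∑ i ∈ univ.erase j, (x i).val := by omega
    rw [← Nat.even_add_one, h4, zero_add, Nat.even_add]
    exact ⟨fun h5 => ⟨fun _ => h5, fun _ => he⟩, fun h5 => h5.1 he⟩

theorem MainA_sgn_step {d n : ℕ} [NeZero n] (he : Even n) (x : Vtx d n) (j : Fin d) :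
    sgnV (x + stp j) = - sgnV x := by
  unfold sgnV
  have h := MainA_parity he x j
  rcases Nat.even_or_odd (∑ i, (x i).val) with h1 | h1
  · have h2 : ¬ Even (∑ i, ((x + stp j : Vtx d n) i).val) := fun h3 => (h.1 h3) h1
    rw [Nat.not_even_iff_odd] at h2
    rw [h1.neg_one_pow, h2.neg_one_pow]
  · have h2 : Even (∑ i, ((x + stp j : Vtx d n) i).val) := h.2 (Nat.not_even_iff_odd.2 h1)
    rw [h1.neg_one_pow, h2.neg_one_pow]
    norm_num

theorem MainA_sgn_sub {d n : ℕ} [NeZero n] (he : Even n) (x : Vtx d n) (j : Fin d) :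
    sgnV (x - stp j) = - sgnV x := by
  have h := MainA_sgn_step he (x - stp j) j
  rw [sub_add_cancel] at h
  rw [h]
  ring

theorem MainA_sgn_even {d n : ℕ} (x : Vtx d n) (h : evenV x) : sgnV x = 1 := by
  unfold sgnV
  exact Even.neg_one_pow h

theorem MainA_sgn_odd {d n : ℕ} (x : Vtx d n) (h : ¬ evenV x) : sgnV x = -1 := by
  unfold sgnV
  exact Odd.neg_one_pow (Nat.not_even_iff_odd.1 h)

theorem MainA_sgn_sq {d n : ℕ} (x : Vtx d n) : (sgnV x) ^ 2 = 1 := by
  by_cases h : evenV x
  · rw [MainA_sgn_even x h]; norm_num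
  · rw [MainA_sgn_odd x h]; norm_num

theorem MainA_shift {d n : ℕ} [NeZero n] (f : Vtx d n → ℝ) (j : Fin d) :
    ∑ x, f (x + stp j) = ∑ x, f x :=
  Fintype.sum_equiv (Equiv.addRight (stp j)) _ _ (fun _ => rfl)

theorem MainA_mid {d n : ℕ} [NeZero n] (φ : (Fin d → ℝ) → (Fin d → ℝ)) (hφ : Per φ)
    (y : Vtx d n) (i : Fin d) : φ (midp (y + stp i) i (-1)) = φ (midp y i 1) := by
  have hn : (n : ℝ) ≠ 0 := by exact_mod_cast NeZero.ne n
  rcases MainA_val_step (y i) with h | ⟨h, h'⟩
  · congr 1
    funext k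
    unfold midp
    rcases eq_or_ne k i with rfl | hk
    · rw [MainA_stp_same, h]
      simp only [if_true]
      push_cast
      ring
    · rw [MainA_stp_ne y i k hk]
      simp [hk]
  · rw [← hφ (midp (y + stp i) i (-1)) i]
    congr 1
    funext k
    unfold midp
    rcases eq_or_ne k i with rfl | hk
    · simp only [Pi.add_apply, Pi.single_eq_same, if_true]
      rw [show (y k + stp k k) = y k + 1 by simp [stp], h]
      have h2 : ((y k).val : ℝ) + 1 = n := by exact_mod_cast h'
      have h3 : ((y k).val : ℝ) = n - 1 := by linarith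
      rw [h3]
      field_simp
      push_cast
      ring
    · simp only [Pi.add_apply, Pi.single_eq_of_ne hk, add_zero, if_neg hk]
      rw [show (y k + stp i k) = y k by simp [stp, Pi.single_eq_of_ne hk]]

theorem MainA_pm {d n : ℕ} (τ : Vtx d n → Vtx d n) (hτ : IsPM τ) (y : Vtx d n) (i : Fin d) :
    (τ (y + stp i) = y ↔ τ y = y + stp i) := by
  constructor
  · intro h
    rw [← h, hτ.1, h]
  · intro h
    rw [← h, hτ.1]

open Classical in
theorem MainA_one {d n : ℕ} [NeZero n] (hn : 4 ≤ n) (τ : Vtx d n → Vtx d n) (hτ : IsPM τ)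
    (y : Vtx d n) :
    ∑ i : Fin d, ((if τ y = y + stp i then (1 : ℝ) else 0) + (if τ y = y - stp i then (1 : ℝ) else 0))
      = 1 := by
  haveI : Fact (1 < n) := ⟨by omega⟩
  have h10 : (1 : ZMod n) ≠ 0 := one_ne_zero
  have h20 : (1 : ZMod n) + 1 ≠ 0 := by
    intro h
    have h2 : ((2 : ℕ) : ZMod n) = 0 := by
      push_cast
      rw [← h]
      norm_num
    rw [ZMod.natCast_eq_zero_iff] at h2
    have := Nat.le_of_dvd (by norm_num) h2
    omega
  have hinj : ∀ a b : Fin d, (stp a : Vtx d n) = stp b → a = b := by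
    intro a b hab
    by_contra hne
    have h := congrFun hab a
    simp only [stp, Pi.single_eq_same] at h
    rw [Pi.single_eq_of_ne hne] at h
    exact h10 h
  have hneg : ∀ a b : Fin d, (stp a : Vtx d n) ≠ - stp b := by
    intro a b hab
    have h := congrFun hab a
    rcases eq_or_ne a b with rfl | hne
    · simp only [stp, Pi.neg_apply, Pi.single_eq_same] at h
      apply h20
      nth_rewrite 1 [h]
      exact neg_add_cancel 1
    · simp only [stp, Pi.neg_apply, Pi.single_eq_same] at h
      rw [Pi.single_eq_of_ne hne, neg_zero] at h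
      exact h10 h
  obtain ⟨i, hi⟩ := hτ.2 y
  rcases hi with hi | hi
  · rw [Finset.sum_eq_single i]
    · rw [if_pos hi, if_neg, add_zero]
      rw [hi]
      intro h
      have h2 : (stp i : Vtx d n) = - stp i := by
        have := congrArg (fun z => z - y) h
        simpa using this
      exact hneg i i h2
    · intro b _ hb
      rw [if_neg, if_neg, add_zero]
      · rw [hi]
        intro h
        have h2 : (stp i : Vtx d n) = - stp b := by
          have := congrArg (fun z => z - y) h
          simpa using this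
        exact hneg i b h2
      · rw [hi]
        intro h
        exact hb (hinj i b (add_left_cancel h)).symm
    · intro h
      exact absurd (mem_univ i) h
  · rw [Finset.sum_eq_single i]
    · rw [if_pos hi, if_neg, zero_add]
      rw [hi]
      intro h
      have h2 : (stp i : Vtx d n) = - stp i := by
        have := congrArg (fun z => z - y) h
        simpa using this.symm
      exact hneg i i h2
    · intro b _ hb
      rw [if_neg, if_neg, add_zero]
      · rw [hi]
        intro h
        have h2 : (stp i : Vtx d n) = stp b := by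
          have := congrArg (fun z => y - z) h
          simpa using this
        exact hb (hinj i b h2).symm
      · rw [hi]
        intro h
        have h2 : (stp b : Vtx d n) = - stp i := by
          have := congrArg (fun z => z - y) h
          simpa using this.symm
        exact hneg b i h2
    · intro h
      exact absurd (mem_univ i) h

open Classical in
/-- the discrete gradients have no divergence against a perfect matching -/
theorem MainA_div {d n : ℕ} [NeZero n] (hn : 4 ≤ n) (he : Even n)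
    (g : Vtx d n → ℝ) (τ : Vtx d n → Vtx d n) (hτ : IsPM τ) :
    ∑ i : Fin d, ∑ x : Vtx d n, sgnV x * (g (x + stp i) - g x)
      * ((if τ x = x + stp i then (1 : ℝ) else 0) - 1 / (2 * d)) = 0 := by
  have hd : (d : ℝ) ≠ 0 := by
    obtain ⟨i, _⟩ := hτ.2 0
    have : 0 < d := lt_of_le_of_lt (Nat.zero_le _) i.isLt
    exact_mod_cast this.ne'
  have h1 : ∀ i : Fin d, ∑ x : Vtx d n, sgnV x * g (x + stp i)
      * ((if τ x = x + stp i then (1 : ℝ) else 0) - 1 / (2 * d))
      = ∑ x : Vtx d n, - (sgnV x * g x)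
        * ((if τ x = x - stp i then (1 : ℝ) else 0) - 1 / (2 * d)) := by
    intro i
    rw [← MainA_shift (fun x => - (sgnV x * g x)
        * ((if τ x = x - stp i then (1 : ℝ) else 0) - 1 / (2 * d))) i]
    apply Finset.sum_congr rfl
    intro x _
    have h2 : (τ (x + stp i) = x + stp i - stp i) ↔ τ x = x + stp i := by
      rw [add_sub_cancel_right]
      exact MainA_pm τ hτ x i
    simp only [h2, MainA_sgn_step he x i]
    ring
  have h2 : ∑ i : Fin d, ∑ x : Vtx d n, sgnV x * (g (x + stp i) - g x)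
      * ((if τ x = x + stp i then (1 : ℝ) else 0) - 1 / (2 * d))
      = ∑ i : Fin d, ∑ x : Vtx d n, (- (sgnV x * g x)) *
        (((if τ x = x + stp i then (1 : ℝ) else 0) + (if τ x = x - stp i then (1 : ℝ) else 0))
          - 1 / d) := by
    apply Finset.sum_congr rfl
    intro i _
    have h3 : ∑ x : Vtx d n, sgnV x * (g (x + stp i) - g x)
      * ((if τ x = x + stp i then (1 : ℝ) else 0) - 1 / (2 * d))
      = (∑ x : Vtx d n, sgnV x * g (x + stp i)
      * ((if τ x = x + stp i then (1 : ℝ) else 0) - 1 / (2 * d)))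
      - ∑ x : Vtx d n, sgnV x * g x
      * ((if τ x = x + stp i then (1 : ℝ) else 0) - 1 / (2 * d)) := by
      rw [← Finset.sum_sub_distrib]
      apply Finset.sum_congr rfl
      intro x _
      ring
    rw [h3, h1 i, ← Finset.sum_sub_distrib]
    apply Finset.sum_congr rfl
    intro x _
    have h4 : (1 : ℝ) / d = 1 / (2 * d) + 1 / (2 * d) := by
      rw [← add_div]
      rw [div_eq_div_iff hd (mul_ne_zero two_ne_zero hd)]
      ring
    rw [h4]
    ring
  rw [h2, Finset.sum_comm]
  apply Finset.sum_eq_zero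
  intro x _
  rw [← Finset.mul_sum, Finset.sum_sub_distrib, MainA_one hn τ hτ x, Finset.sum_const,
    Finset.card_univ, Fintype.card_fin, nsmul_eq_mul, mul_one_div_cancel hd]
  ring

open Classical in
theorem MainA_lhs {d n : ℕ} [NeZero n] (he : Even n)
    (φ : (Fin d → ℝ) → (Fin d → ℝ)) (hφ : Per φ) (τ : Vtx d n → Vtx d n) (hτ : IsPM τ) :
    ∑ x ∈ univ.filter (fun x : Vtx d n => evenV x),
      ∑ i : Fin d, (flow τ x (x + stp i) * φ (midp x i 1) i
        - flow τ x (x - stp i) * φ (midp x i (-1)) i)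
      = ∑ i : Fin d, ∑ x : Vtx d n, sgnV x * φ (midp x i 1) i
        * ((if τ x = x + stp i then (1 : ℝ) else 0) - 1 / (2 * d)) := by
  rw [Finset.sum_comm]
  apply Finset.sum_congr rfl
  intro i _
  rw [Finset.sum_sub_distrib]
  have hsecond : ∑ x ∈ univ.filter (fun x : Vtx d n => evenV x),
      flow τ x (x - stp i) * φ (midp x i (-1)) i
      = ∑ x ∈ univ.filter (fun x : Vtx d n => ¬ evenV x),
        φ (midp x i 1) i * ((if τ x = x + stp i then (1 : ℝ) else 0) - 1 / (2 * d)) := by
    rw [Finset.sum_filter, Finset.sum_filter,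
      ← MainA_shift (fun x : Vtx d n => if evenV x then
        flow τ x (x - stp i) * φ (midp x i (-1)) i else 0) i]
    apply Finset.sum_congr rfl
    intro x _
    have hp : evenV (x + stp i) ↔ ¬ evenV x := MainA_parity he x i
    by_cases hx : evenV x
    · rw [if_neg (fun h => (hp.1 h) hx), if_neg (not_not.2 hx)]
    · rw [if_pos (hp.2 hx), if_pos hx, MainA_mid φ hφ x i, add_sub_cancel_right]
      unfold flow
      simp only [MainA_pm τ hτ x i]
      ring
  rw [hsecond]
  have hsplit : ∑ x : Vtx d n, sgnV x * φ (midp x i 1) i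
        * ((if τ x = x + stp i then (1 : ℝ) else 0) - 1 / (2 * d))
      = (∑ x ∈ univ.filter (fun x : Vtx d n => evenV x), sgnV x * φ (midp x i 1) i
        * ((if τ x = x + stp i then (1 : ℝ) else 0) - 1 / (2 * d)))
      + ∑ x ∈ univ.filter (fun x : Vtx d n => ¬ evenV x), sgnV x * φ (midp x i 1) i
        * ((if τ x = x + stp i then (1 : ℝ) else 0) - 1 / (2 * d)) :=
    (Finset.sum_filter_add_sum_filter_not univ _ _).symm
  rw [hsplit, sub_eq_add_neg]
  congr 1
  · apply Finset.sum_congr rfl
    intro x hx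
    rw [MainA_sgn_even x (Finset.mem_filter.1 hx).2]
    unfold flow
    ring
  · rw [← Finset.sum_neg_distrib]
    apply Finset.sum_congr rfl
    intro x hx
    rw [MainA_sgn_odd x (Finset.mem_filter.1 hx).2]
    ring

/-- `F_n(φ)` as a sum over the edges, with a discrete gradient subtracted.
Proof. (1) For even x the term of x - e_i: x' = x - e_i is odd (n even), τ x = x - e_i iff τ x' = x' + e_i (τ is an involution), flow is
the same number, and midp x i (-1) and midp x' i 1 differ by an integer vector in direction i (0 or the wrap around), so φ takes the same value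
(`Per`, midp has the factor 1/n: the val of (x i) - 1 is val - 1 or n - 1). So fld = n^(-d/2) ∑_i ∑_x sgnV x ([τ x = x+e_i] - 1/(2d)) φ_i(midp x i 1).
(2) For g : Vtx → ℝ: ∑_x sgnV x ∑_i ([τ x = x + e_i] - 1/(2d)) (g (x+e_i) - g x) = 0: shift x in the first part, sgnV (x - e_i) = - sgnV x,
and ∑_i ([τ x = x+e_i] + [τ(x-e_i) = x]) = 1 (exactly one neighbour is the partner; the 2d neighbours are distinct as n >= 3), ∑_i 2/(2d) = 1
(d > 0; for d = 0 both sides are empty sums). (3) dfs i (1/n) G (x/n) = g (x+e_i) - g x for g x = G (x/n), by periodicity. -/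
theorem fld_eq (d n : ℕ) [NeZero n] (hn : 4 ≤ n) (he : Even n)
    (φ : (Fin d → ℝ) → (Fin d → ℝ)) (hφ : Per φ) (G : (Fin d → ℝ) → ℝ) (hG : Per G)
    (τ : Vtx d n → Vtx d n) (hτ : IsPM τ) :
    fld d n φ τ = (n : ℝ) ^ (-(d : ℝ) / 2) * ∑ i : Fin d,
      (edgeSum i (fun x => φ (midp x i 1) i
          - n * dfs i (1 / n) G (fun k => ((x k).val : ℝ) / n)) τ
        - 1 / (2 * d) * ∑ x : Vtx d n, sgnV x * (φ (midp x i 1) i
          - n * dfs i (1 / n) G (fun k => ((x k).val : ℝ) / n))) := by
  classical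
  unfold fld
  congr 1
  rw [MainA_lhs he φ hφ τ hτ]
  obtain ⟨g, hg⟩ : ∃ g : Vtx d n → ℝ, g = fun x => G (fun k => ((x k).val : ℝ) / n) := ⟨_, rfl⟩
  have hdfs : ∀ (i : Fin d) (x : Vtx d n), dfs i (1 / n) G (fun k => ((x k).val : ℝ) / n)
      = g (x + stp i) - g x := by
    intro i x
    rw [hg]
    unfold dfs
    simp only
    rw [MainA_samp_step G hG x i]
  have hdiv := MainA_div hn he g τ hτ
  have hsum : ∑ i : Fin d, (edgeSum i (fun x => φ (midp x i 1) i
          - n * dfs i (1 / n) G (fun k => ((x k).val : ℝ) / n)) τ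
        - 1 / (2 * d) * ∑ x : Vtx d n, sgnV x * (φ (midp x i 1) i
          - n * dfs i (1 / n) G (fun k => ((x k).val : ℝ) / n)))
      = (∑ i : Fin d, ∑ x : Vtx d n, sgnV x * φ (midp x i 1) i
        * ((if τ x = x + stp i then (1 : ℝ) else 0) - 1 / (2 * d)))
      - n * ∑ i : Fin d, ∑ x : Vtx d n, sgnV x * (g (x + stp i) - g x)
      * ((if τ x = x + stp i then (1 : ℝ) else 0) - 1 / (2 * d)) := by
    rw [Finset.mul_sum, ← Finset.sum_sub_distrib]
    apply Finset.sum_congr rfl
    intro i _
    unfold edgeSum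
    rw [Finset.mul_sum, Finset.mul_sum, ← Finset.sum_sub_distrib, ← Finset.sum_sub_distrib]
    apply Finset.sum_congr rfl
    intro x _
    beta_reduce
    rw [hdfs i x]
    obtain ⟨A, hA⟩ : ∃ A : ℝ, A = φ (midp x i 1) i := ⟨_, rfl⟩
    obtain ⟨B, hB⟩ : ∃ B : ℝ, B = (if τ x = x + stp i then (1 : ℝ) else 0) := ⟨_, rfl⟩
    rw [← hA, ← hB]
    ring
  rw [hsum, hdiv]
  ring

/-- The alternating sum of a function on the torus: ∑ sgnV x * difV j w x = -2 ∑ sgnV x * w x (shift, n even), iterate, Cauchy-Schwarz;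
even with the factor 4^(-m). -/
theorem alt_sum (d n : ℕ) [NeZero n] (hn : 4 ≤ n) (he : Even n) (j : Fin d)
    (w : Vtx d n → ℝ) (m : ℕ) :
    (∑ x, sgnV x * w x) ^ 2 ≤ (n : ℝ) ^ d * ∑ x, ((difV j)^[m] w x) ^ 2 := by
  have hone : ∀ u : Vtx d n → ℝ, ∑ x, sgnV x * difV j u x = -2 * ∑ x, sgnV x * u x := by
    intro u
    unfold difV
    have h1 : ∑ x, sgnV x * u (x + stp j) = - ∑ x, sgnV x * u x := by
      rw [← MainA_shift (fun x => sgnV x * u x) j, ← Finset.sum_neg_distrib]
      apply Finset.sum_congr rfl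
      intro x _
      rw [MainA_sgn_step he x j]
      ring
    have h2 : ∑ x, sgnV x * (u (x + stp j) - u x)
        = ∑ x, sgnV x * u (x + stp j) - ∑ x, sgnV x * u x := by
      rw [← Finset.sum_sub_distrib]
      apply Finset.sum_congr rfl
      intro x _
      ring
    rw [h2, h1]
    ring
  have hit : ∀ m : ℕ, ∑ x, sgnV x * (difV j)^[m] w x = (-2) ^ m * ∑ x, sgnV x * w x := by
    intro m
    induction m with
    | zero => simp
    | succ m ih =>
      rw [Function.iterate_succ_apply', hone, ih]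
      ring
  have hcs : (∑ x, sgnV x * (difV j)^[m] w x) ^ 2
      ≤ (∑ x : Vtx d n, (sgnV x) ^ 2) * ∑ x, ((difV j)^[m] w x) ^ 2 :=
    Finset.sum_mul_sq_le_sq_mul_sq _ _ _
  have hcard : ∑ x : Vtx d n, (sgnV x) ^ 2 = (n : ℝ) ^ d := by
    rw [Finset.sum_congr rfl (fun x _ => MainA_sgn_sq x), Finset.sum_const, Finset.card_univ,
      Fintype.card_fun, ZMod.card, Fintype.card_fin, nsmul_eq_mul, mul_one]
    push_cast
    rfl
  rw [hcard, hit m] at hcs
  have h4 : (1 : ℝ) ≤ ((-2 : ℝ) ^ m) ^ 2 := by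
    rw [← pow_mul, mul_comm, pow_mul]
    exact one_le_pow₀ (by norm_num)
  calc (∑ x, sgnV x * w x) ^ 2 = 1 * (∑ x, sgnV x * w x) ^ 2 := (one_mul _).symm
    _ ≤ ((-2 : ℝ) ^ m) ^ 2 * (∑ x, sgnV x * w x) ^ 2 :=
        mul_le_mul_of_nonneg_right h4 (sq_nonneg _)
    _ = ((-2 : ℝ) ^ m * ∑ x, sgnV x * w x) ^ 2 := by ring
    _ ≤ _ := hcs

/-- Differences on the torus of a sampled periodic function (induction on m; `Per` passes to differences). -/
theorem difV_sample (d n : ℕ) [NeZero n] (j : Fin d) (f : (Fin d → ℝ) → ℝ) (hf : Per f) (m : ℕ) :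
    (difV j)^[m] (fun x : Vtx d n => f (fun k => ((x k).val : ℝ) / n))
      = fun x => (dfs j (1 / n))^[m] f (fun k => ((x k).val : ℝ) / n) := by
  induction m with
  | zero => rfl
  | succ m ih =>
    rw [Function.iterate_succ_apply', ih, Function.iterate_succ_apply']
    funext x
    unfold difV
    simp only
    rw [MainA_samp_step _ (MainA_per_iter j _ f hf m) x j]
    rfl

end LibDim
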