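import Mathlib
import Pool.Agent.LibDim.Defs

namespace LibDim

open Finset Filter MeasureTheory
open scoped Pointwise

/-- the sampling map into the unit cube -/
noncomputable def riem_pt {d n : ℕ} (x : Vtx d n) : Fin d → ℝ := fun i => ((x i).val : ℝ) / (n : ℝ)

theorem riem_pt_mem (d n : ℕ) [NeZero n] (x : Vtx d n) :
    riem_pt x ∈ (Set.pi Set.univ (fun _ : Fin d => Set.Ico (0 : ℝ) 1)
      ∩ (((n : ℝ)⁻¹ • Submodule.span ℤ (Set.range (Pi.basisFun ℝ (Fin d))) : Submodule ℤ (Fin d → ℝ)) : Set (Fin d → ℝ))) := by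
  have hn : (0 : ℝ) < n := by
    exact_mod_cast Nat.pos_of_ne_zero (NeZero.ne n)
  refine ⟨?_, ?_⟩
  · intro i _
    refine ⟨?_, ?_⟩
    · unfold riem_pt
      positivity
    · unfold riem_pt
      rw [div_lt_one hn]
      exact_mod_cast ZMod.val_lt (x i)
  · have h := (BoxIntegral.unitPartition.mem_smul_span_iff (ι := Fin d) (n := n)
      (v := riem_pt x)).2 (fun i => by
        refine ⟨((x i).val : ℤ), ?_⟩
        unfold riem_pt
        rw [mul_div_cancel₀ _ (ne_of_gt hn)]
        simp)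
    exact h

theorem riem_pt_inj (d n : ℕ) [NeZero n] : Function.Injective (riem_pt : Vtx d n → Fin d → ℝ) := by
  intro x y hxy
  have hn : (0 : ℝ) < n := by
    exact_mod_cast Nat.pos_of_ne_zero (NeZero.ne n)
  funext i
  have h := congrFun hxy i
  unfold riem_pt at h
  have h2 : ((x i).val : ℝ) = ((y i).val : ℝ) := by
    field_simp at h
    exact h
  have h3 : (x i).val = (y i).val := by exact_mod_cast h2
  exact ZMod.val_injective n h3

theorem riem_pt_surj (d n : ℕ) [NeZero n] (v : Fin d → ℝ)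
    (hv : v ∈ (Set.pi Set.univ (fun _ : Fin d => Set.Ico (0 : ℝ) 1)
      ∩ (((n : ℝ)⁻¹ • Submodule.span ℤ (Set.range (Pi.basisFun ℝ (Fin d))) : Submodule ℤ (Fin d → ℝ)) : Set (Fin d → ℝ)))) :
    ∃ x : Vtx d n, riem_pt x = v := by
  have hn : (0 : ℝ) < n := by
    exact_mod_cast Nat.pos_of_ne_zero (NeZero.ne n)
  obtain ⟨h1, h2⟩ := hv
  have h3 := (BoxIntegral.unitPartition.mem_smul_span_iff (ι := Fin d) (n := n) (v := v)).1 h2
  choose a ha using h3
  have ha' : ∀ i, (a i : ℝ) = n * v i := fun i => by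
    have := ha i
    simpa using this
  have h0 : ∀ i, 0 ≤ a i := fun i => by
    have h4 := (h1 i (Set.mem_univ i)).1
    have : (0 : ℝ) ≤ a i := by
      rw [ha' i]
      exact mul_nonneg hn.le h4
    exact_mod_cast this
  have hlt : ∀ i, a i < n := fun i => by
    have h4 := (h1 i (Set.mem_univ i)).2
    have : (a i : ℝ) < n := by
      rw [ha' i]
      calc (n : ℝ) * v i < n * 1 := (mul_lt_mul_iff_right₀ hn).2 h4
        _ = n := mul_one _
    exact_mod_cast this
  refine ⟨fun i => ((a i).toNat : ZMod n), ?_⟩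
  funext i
  unfold riem_pt
  have h5 : (((a i).toNat : ZMod n)).val = (a i).toNat := by
    apply ZMod.val_cast_of_lt
    have := hlt i
    have := h0 i
    omega
  rw [h5]
  have h6 : (((a i).toNat : ℕ) : ℝ) = (a i : ℝ) := by
    have : (((a i).toNat : ℕ) : ℤ) = a i := Int.toNat_of_nonneg (h0 i)
    exact_mod_cast this
  rw [h6, ha' i, mul_div_cancel_left₀ _ (ne_of_gt hn)]

/-- Riemann sums over the discrete torus. Suggestion: `BoxIntegral.tendsto_tsum_div_pow_atTop_integral` (Mathlib.Analysis.BoxIntegral.UnitPartition)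
for s = `Set.pi univ (fun _ => Set.Ico 0 1)` (bounded, measurable, null frontier), whose points of (1/n) ℤ^d are the points (val (x i)/n);
Icc and Ico cubes agree almost everywhere. -/
theorem riemann_torus (d : ℕ) (h : (Fin d → ℝ) → ℝ) (hc : Continuous h) :
    Tendsto (fun k : ℕ => (∑ x : Vtx d (k + 1), h (fun i => ((x i).val : ℝ) / ((k + 1 : ℕ) : ℝ)))
      / ((k + 1 : ℕ) : ℝ) ^ d) atTop
      (nhds (∫ x in Set.Icc (0 : Fin d → ℝ) 1, h x)) := by
  have hs1 : Bornology.IsBounded (Set.pi Set.univ (fun _ : Fin d => Set.Ico (0 : ℝ) 1)) :=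
    Bornology.IsBounded.pi (fun _ => Metric.isBounded_Ico 0 1)
  have hs2 : MeasurableSet (Set.pi Set.univ (fun _ : Fin d => Set.Ico (0 : ℝ) 1)) :=
    MeasurableSet.univ_pi (fun _ => measurableSet_Ico)
  have hs3 : volume (frontier (Set.pi Set.univ (fun _ : Fin d => Set.Ico (0 : ℝ) 1))) = 0 :=
    Convex.addHaar_frontier volume (convex_pi (fun i _ => convex_Ico 0 1))
  have hmain := tendsto_tsum_div_pow_atTop_integral
    (Set.pi Set.univ (fun _ : Fin d => Set.Ico (0 : ℝ) 1)) h hc hs1 hs2 hs3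
  have hint : (∫ x in Set.pi Set.univ (fun _ : Fin d => Set.Ico (0 : ℝ) 1), h x)
      = ∫ x in Set.Icc (0 : Fin d → ℝ) 1, h x := by
    apply setIntegral_congr_set
    exact Measure.univ_pi_Ico_ae_eq_Icc
  rw [hint] at hmain
  have hshift := hmain.comp (tendsto_add_atTop_nat 1)
  refine hshift.congr (fun k => ?_)
  simp only [Function.comp_apply, Fintype.card_fin]
  congr 1
  have hbij : Function.Bijective (fun x : Vtx d (k + 1) =>
      (⟨riem_pt x, riem_pt_mem d (k + 1) x⟩ :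
        ↥(Set.pi Set.univ (fun _ : Fin d => Set.Ico (0 : ℝ) 1)
      ∩ (((((k + 1 : ℕ) : ℝ))⁻¹ • Submodule.span ℤ (Set.range (Pi.basisFun ℝ (Fin d))) :
        Submodule ℤ (Fin d → ℝ)) : Set (Fin d → ℝ))))) := by
    refine ⟨?_, ?_⟩
    · intro x y hxy
      exact riem_pt_inj d (k + 1) (congrArg Subtype.val hxy)
    · rintro ⟨v, hv⟩
      obtain ⟨x, hx⟩ := riem_pt_surj d (k + 1) v hv
      exact ⟨x, Subtype.ext hx⟩
  have h1 := (Equiv.ofBijective _ hbij).tsum_eq (fun x => h (x : Fin d → ℝ))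
  have h2 : ∑' x : Vtx d (k + 1), h (riem_pt x)
      = ∑ x : Vtx d (k + 1), h (fun i => ((x i).val : ℝ) / ((k + 1 : ℕ) : ℝ)) := by
    rw [tsum_fintype]
    rfl
  rw [← h2]
  exact h1.symm

end LibDim
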