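import Pool.Agent.LibDim.SplitB
import Pool.Agent.LibDim.MainA
import Pool.Agent.LibDim.Riem

namespace LibDim

open Finset Filter MeasureTheory
open scoped ContDiff

variable {d : ℕ}

theorem main_shift (j : Fin d) (h : ℝ) (m : ℕ) (f : (Fin d → ℝ) → ℝ) (v : Fin d → ℝ) :
    (dfs j h)^[m] (fun z => f (z + v)) = fun z => ((dfs j h)^[m] f) (z + v) := by
  induction m with
  | zero => rfl
  | succ m ih =>
    rw [Function.iterate_succ_apply', Function.iterate_succ_apply', ih]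
    funext z
    unfold dfs
    have : z + Pi.single j h + v = z + v + Pi.single j h := by abel
    simp only [this]

theorem main_sub (j : Fin d) (h : ℝ) (m : ℕ) (f g : (Fin d → ℝ) → ℝ) :
    (dfs j h)^[m] (fun z => f z - g z)
      = fun z => (dfs j h)^[m] f z - (dfs j h)^[m] g z := by
  induction m with
  | zero => rfl
  | succ m ih =>
    rw [Function.iterate_succ_apply', Function.iterate_succ_apply', Function.iterate_succ_apply', ih]
    funext z
    unfold dfs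
    ring

theorem main_smul (j : Fin d) (h : ℝ) (m : ℕ) (c : ℝ) (f : (Fin d → ℝ) → ℝ) :
    (dfs j h)^[m] (fun z => c * f z) = fun z => c * (dfs j h)^[m] f z := by
  induction m with
  | zero => rfl
  | succ m ih =>
    rw [Function.iterate_succ_apply', Function.iterate_succ_apply', ih]
    funext z
    unfold dfs
    ring

/-- the sampled weight -/
noncomputable def psi (φ : (Fin d → ℝ) → (Fin d → ℝ)) (G : (Fin d → ℝ) → ℝ) (i : Fin d) (n : ℕ) :
    (Fin d → ℝ) → ℝ :=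
  fun z => φ (z + Pi.single i (1 / (2 * (n : ℝ)))) i - n * dfs i (1 / n) G z

theorem psi_per (φ : (Fin d → ℝ) → (Fin d → ℝ)) (G : (Fin d → ℝ) → ℝ) (hφ : Per φ) (hG : Per G)
    (i : Fin d) (n : ℕ) : Per (psi φ G i n) := by
  intro x k
  unfold psi dfs
  have h1 : x + Pi.single k 1 + Pi.single i (1 / (2 * (n : ℝ)))
      = x + Pi.single i (1 / (2 * (n : ℝ))) + Pi.single k 1 := by abel
  have h2 : x + Pi.single k 1 + Pi.single i (1 / (n : ℝ))
      = x + Pi.single i (1 / (n : ℝ)) + Pi.single k 1 := by abel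
  rw [h1, h2, hφ, hG, hG]

theorem comp_smooth (φ : (Fin d → ℝ) → (Fin d → ℝ)) (hφ : ContDiff ℝ ∞ φ) (i : Fin d) :
    ContDiff ℝ ∞ (fun z => φ z i) := by
  exact (contDiff_pi.mp hφ) i

theorem comp_per (φ : (Fin d → ℝ) → (Fin d → ℝ)) (hφ : Per φ) (i : Fin d) :
    Per (fun z => φ z i) := by
  intro x k
  simp only [hφ x k]

theorem psi_diff (φ : (Fin d → ℝ) → (Fin d → ℝ)) (G : (Fin d → ℝ) → ℝ) (hφ : ContDiff ℝ ∞ φ)
    (hφp : Per φ) (hG : ContDiff ℝ ∞ G) (hGp : Per G) (i j : Fin d) (m : ℕ) :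
    ∃ C, 0 ≤ C ∧ ∀ n : ℕ, 1 ≤ n → ∀ z, |(dfs j (1 / n))^[m] (psi φ G i n) z| ≤ C * (1 / n) ^ m := by
  obtain ⟨C1, h1⟩ := dfs_iter_bound j m (fun z => φ z i) (comp_smooth φ hφ i) (comp_per φ hφp i)
  obtain ⟨C2, h2⟩ := dfs_iter_bound' i j m G hG hGp
  refine ⟨|C1| + |C2|, by positivity, fun n hn z => ?_⟩
  have hn0 : (0 : ℝ) < n := by exact_mod_cast hn
  have e1 : psi φ G i n = fun z => (fun z => (fun y => φ y i) (z + Pi.single i (1 / (2 * (n : ℝ))))) z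
      - (fun z => (n : ℝ) * dfs i (1 / n) G z) z := rfl
  rw [e1, main_sub, main_shift j (1 / n) m (fun y => φ y i) (Pi.single i (1 / (2 * (n : ℝ)))),
    main_smul j (1 / n) m (n : ℝ) (fun z => dfs i (1 / n) G z)]
  have h3 := h1 (1 / n) (z + Pi.single i (1 / (2 * (n : ℝ))))
  have h4 := h2 (1 / n) (1 / n) z
  have h5 : |(1 : ℝ) / n| = 1 / n := abs_of_pos (by positivity)
  rw [h5] at h3 h4
  have hp : (0 : ℝ) ≤ (1 / n) ^ m := by positivity
  calc |(dfs j (1 / n))^[m] (fun y => φ y i) (z + Pi.single i (1 / (2 * (n : ℝ))))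
        - n * (dfs j (1 / n))^[m] (fun z => dfs i (1 / n) G z) z|
      ≤ |(dfs j (1 / n))^[m] (fun y => φ y i) (z + Pi.single i (1 / (2 * (n : ℝ))))|
        + |n * (dfs j (1 / n))^[m] (fun z => dfs i (1 / n) G z) z| := abs_sub _ _
    _ ≤ C1 * (1 / n) ^ m + n * (C2 * (1 / n) * (1 / n) ^ m) := by
        refine add_le_add h3 ?_
        rw [abs_mul, abs_of_pos hn0]
        exact mul_le_mul_of_nonneg_left h4 hn0.le
    _ = (C1 + C2) * (1 / n) ^ m := by
        field_simp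
    _ ≤ (|C1| + |C2|) * (1 / n) ^ m :=
        mul_le_mul_of_nonneg_right (add_le_add (le_abs_self _) (le_abs_self _)) hp

theorem psi_sq (φ : (Fin d → ℝ) → (Fin d → ℝ)) (G : (Fin d → ℝ) → ℝ) (hφ : ContDiff ℝ ∞ φ)
    (hφp : Per φ) (hG : ContDiff ℝ ∞ G) (hGp : Per G) (i : Fin d) :
    ∃ C, 0 ≤ C ∧ ∀ n : ℕ, 1 ≤ n → ∀ z, psi φ G i n z ^ 2 ≤ (φ z i - pd i G z) ^ 2 + C * (1 / n) := by
  obtain ⟨C1, h1⟩ := dfs_iter_bound i 1 (fun z => φ z i) (comp_smooth φ hφ i) (comp_per φ hφp i)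
  obtain ⟨C2, h2⟩ := dfs_taylor i G hG hGp
  have hcont : Continuous (fun z => φ z i - pd i G z) :=
    (comp_smooth φ hφ i).continuous.sub (pd_smooth i G hG).continuous
  have hper : Per (fun z => φ z i - pd i G z) := by
    intro x k
    have e1 := hφp x k
    have e2 := pd_per i G hGp x k
    simp only [e1, e2]
  obtain ⟨C3, h3⟩ := per_bdd _ hcont hper
  set B := |C1| + |C2| with hB
  have hB0 : 0 ≤ B := by positivity
  have hC3 : 0 ≤ C3 := le_trans (abs_nonneg _) (h3 0)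
  refine ⟨2 * C3 * B + B ^ 2, by positivity, fun n hn z => ?_⟩
  have hn0 : (0 : ℝ) < n := by exact_mod_cast hn
  have hn1 : (1 : ℝ) ≤ n := by exact_mod_cast hn
  have hinv : (1 : ℝ) / n ≤ 1 := by
    rw [div_le_one hn0]
    exact hn1
  have hinv0 : (0 : ℝ) ≤ 1 / n := by positivity
  -- difference
  have hd : |psi φ G i n z - (φ z i - pd i G z)| ≤ B * (1 / n) := by
    have h4 := h1 (1 / (2 * n)) z
    have h5 := h2 (1 / n) z
    simp only [Function.iterate_one, pow_one] at h4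
    have e : psi φ G i n z - (φ z i - pd i G z)
        = dfs i (1 / (2 * n)) (fun z => φ z i) z - n * (dfs i (1 / n) G z - 1 / n * pd i G z) := by
      unfold psi dfs
      field_simp
      ring
    rw [e]
    have h6 : |(1 : ℝ) / (2 * n)| = 1 / (2 * n) := abs_of_pos (by positivity)
    rw [h6] at h4
    calc |dfs i (1 / (2 * n)) (fun z => φ z i) z - n * (dfs i (1 / n) G z - 1 / n * pd i G z)|
        ≤ |dfs i (1 / (2 * n)) (fun z => φ z i) z|
          + |n * (dfs i (1 / n) G z - 1 / n * pd i G z)| := abs_sub _ _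
      _ ≤ C1 * (1 / (2 * n)) + n * (C2 * (1 / n) ^ 2) := by
          refine add_le_add h4 ?_
          rw [abs_mul, abs_of_pos hn0]
          exact mul_le_mul_of_nonneg_left h5 hn0.le
      _ = (C1 / 2 + C2) * (1 / n) := by
          field_simp
      _ ≤ B * (1 / n) := by
          refine mul_le_mul_of_nonneg_right ?_ hinv0
          have := le_abs_self C1
          have := le_abs_self C2
          have := abs_nonneg C1
          rw [hB]
          linarith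
  have hb : |φ z i - pd i G z| ≤ C3 := h3 z
  set a := φ z i - pd i G z with ha
  set p := psi φ G i n z with hp
  have h7 : p ^ 2 = a ^ 2 + 2 * a * (p - a) + (p - a) ^ 2 := by ring
  have h8 : 2 * a * (p - a) ≤ 2 * C3 * (B * (1 / n)) := by
    have h9 : |a * (p - a)| ≤ C3 * (B * (1 / n)) := by
      rw [abs_mul]
      exact mul_le_mul hb hd (abs_nonneg _) hC3
    have := le_abs_self (a * (p - a))
    linarith
  have h10 : (p - a) ^ 2 ≤ B ^ 2 * (1 / n) := by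
    have h11 : (p - a) ^ 2 ≤ (B * (1 / n)) ^ 2 := by
      rw [← sq_abs (p - a)]
      exact pow_le_pow_left₀ (abs_nonneg _) hd 2
    have h12 : (B * (1 / n)) ^ 2 ≤ B ^ 2 * (1 / n) := by
      have : (1 / (n : ℝ)) ^ 2 ≤ 1 / n := by nlinarith
      rw [mul_pow]
      exact mul_le_mul_of_nonneg_left this (sq_nonneg B)
    linarith
  rw [h7]
  linarith

theorem midp_eq (n : ℕ) [NeZero n] (x : Vtx d n) (i : Fin d) :
    midp x i 1 = (fun k => ((x k).val : ℝ) / n) + Pi.single i (1 / (2 * (n : ℝ))) := by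
  funext k
  have hn0 : (n : ℝ) ≠ 0 := by
    exact_mod_cast NeZero.ne n
  by_cases hk : k = i
  · subst hk
    simp only [midp, Pi.add_apply, Pi.single_eq_same, if_true]
    field_simp
  · simp only [midp, Pi.add_apply, Pi.single_eq_of_ne hk, if_neg hk, add_zero]

/-- the bound for a fixed `n` -/
theorem main_fixed (d n : ℕ) [NeZero n] (hd : 2 ≤ d) (hn : 4 ≤ n) (he : Even n)
    (φ : (Fin d → ℝ) → (Fin d → ℝ)) (hφp : Per φ) (G : (Fin d → ℝ) → ℝ) (hGp : Per G)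
    (m : ℕ) (C : ℝ) (hC : ∀ i j : Fin d, ∀ z, |(dfs j (1 / n))^[m] (psi φ G i n) z| ≤ C * (1 / n) ^ m) :
    expect d n (fun τ => fld d n φ τ ^ 2)
      ≤ 8 * d * ((∑ x : Vtx d n, ∑ i, psi φ G i n (fun k => ((x k).val : ℝ) / n) ^ 2) / (n : ℝ) ^ d)
        + 6 * d ^ 2 * (C ^ 2 * (n : ℝ) ^ d * (1 / n) ^ (2 * m)) := by
  have hn0 : (0 : ℝ) < n := by exact_mod_cast (by omega : 0 < n)
  have hcard := pm_pos d n (by omega) hn he
  have hcard' : (0 : ℝ) < (PMs d n).card := by exact_mod_cast hcard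
  have hdpos : (0 : ℝ) < d := by exact_mod_cast (by omega : 0 < d)
  -- the weights
  set w : Fin d → Vtx d n → ℝ := fun i x => psi φ G i n (fun k => ((x k).val : ℝ) / n) with hw
  have hweq : ∀ i, ∀ x : Vtx d n, φ (midp x i 1) i
      - n * dfs i (1 / n) G (fun k => ((x k).val : ℝ) / n) = w i x := by
    intro i x
    simp only [hw, psi]
    rw [midp_eq]
  -- difference bound
  have hdif : ∀ i j : Fin d, ∑ x, ((difV j)^[m] (w i) x) ^ 2 ≤ C ^ 2 * (n : ℝ) ^ d * (1 / n) ^ (2 * m) := by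
    intro i j
    have h1 := difV_sample d n j (psi φ G i n) (psi_per φ G hφp hGp i n) m
    have h2 : ∀ x : Vtx d n, ((difV j)^[m] (w i) x) ^ 2 ≤ (C * (1 / n) ^ m) ^ 2 := by
      intro x
      have h3 : (difV j)^[m] (w i) x = (dfs j (1 / n))^[m] (psi φ G i n) (fun k => ((x k).val : ℝ) / n) := by
        rw [hw, h1]
      rw [h3, ← sq_abs]
      exact pow_le_pow_left₀ (abs_nonneg _) (hC i j _) 2
    calc ∑ x, ((difV j)^[m] (w i) x) ^ 2 ≤ ∑ x : Vtx d n, (C * (1 / n) ^ m) ^ 2 :=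
          Finset.sum_le_sum (fun x _ => h2 x)
      _ = C ^ 2 * (n : ℝ) ^ d * (1 / n) ^ (2 * m) := by
          rw [Finset.sum_const, Finset.card_univ, Fintype.card_fun, ZMod.card, Fintype.card_fin,
            nsmul_eq_mul]
          push_cast
          ring
  set Δ := C ^ 2 * (n : ℝ) ^ d * (1 / n) ^ (2 * m) with hΔ
  have hΔ0 : 0 ≤ Δ := by positivity
  -- second moments
  have hedge : ∀ i, ∑ τ ∈ PMs d n, edgeSum i (w i) τ ^ 2
      ≤ ((15 / 2) * ∑ x, w i x ^ 2 + (n : ℝ) ^ d * Δ) * (PMs d n).card := by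
    intro i
    obtain ⟨j, hj⟩ : ∃ j : Fin d, i ≠ j := by
      by_cases h0 : i = ⟨0, by omega⟩
      · exact ⟨⟨1, by omega⟩, by rw [h0]; intro h; simpa using congrArg Fin.val h⟩
      · exact ⟨⟨0, by omega⟩, h0⟩
    have h1 := edge_moment d n hn he i j hj (w i) m
    refine h1.trans (mul_le_mul_of_nonneg_right ?_ hcard'.le)
    have h2 := hdif i j
    have h3 : (n : ℝ) ^ d * (1 / 2) ^ m * ∑ x, ((difV j)^[m] (w i) x) ^ 2 ≤ (n : ℝ) ^ d * Δ := by
      have h4 : ((1 : ℝ) / 2) ^ m ≤ 1 := pow_le_one₀ (by norm_num) (by norm_num)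
      calc (n : ℝ) ^ d * (1 / 2) ^ m * ∑ x, ((difV j)^[m] (w i) x) ^ 2
          ≤ (n : ℝ) ^ d * 1 * ∑ x, ((difV j)^[m] (w i) x) ^ 2 := by
            refine mul_le_mul_of_nonneg_right ?_ (Finset.sum_nonneg (fun x _ => sq_nonneg _))
            exact mul_le_mul_of_nonneg_left h4 (by positivity)
        _ ≤ (n : ℝ) ^ d * Δ := by
            rw [mul_one]
            exact mul_le_mul_of_nonneg_left h2 (by positivity)
    linarith
  have halt : ∀ i, (∑ x, sgnV x * w i x) ^ 2 ≤ (n : ℝ) ^ d * Δ := by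
    intro i
    have h1 := alt_sum d n hn he i (w i) m
    exact h1.trans (mul_le_mul_of_nonneg_left (hdif i i) (by positivity))
  -- pointwise bound of fld^2
  have hrpow : ((n : ℝ) ^ (-(d : ℝ) / 2)) ^ 2 = 1 / (n : ℝ) ^ d := by
    rw [← Real.rpow_natCast, ← Real.rpow_mul hn0.le]
    have : -(d : ℝ) / 2 * ((2 : ℕ) : ℝ) = -(d : ℝ) := by push_cast; ring
    rw [this, Real.rpow_neg hn0.le, Real.rpow_natCast, one_div]
  have hpt : ∀ τ ∈ PMs d n, fld d n φ τ ^ 2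
      ≤ 1 / (n : ℝ) ^ d * (d * ∑ i, (16 / 15 * edgeSum i (w i) τ ^ 2
        + 4 * (n : ℝ) ^ d * Δ)) := by
    intro τ hτ
    have hτ' : IsPM τ := by
      simpa [PMs] using hτ
    rw [fld_eq d n hn he φ hφp G hGp τ hτ', mul_pow, hrpow]
    refine mul_le_mul_of_nonneg_left ?_ (by positivity)
    simp only [hweq]
    have h1 : (∑ i, (edgeSum i (w i) τ - 1 / (2 * d) * ∑ x, sgnV x * w i x)) ^ 2
        ≤ (d : ℝ) * ∑ i, (edgeSum i (w i) τ - 1 / (2 * d) * ∑ x, sgnV x * w i x) ^ 2 := by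
      have h2 := sq_sum_le_card_mul_sum_sq (s := (univ : Finset (Fin d)))
        (f := fun i => edgeSum i (w i) τ - 1 / (2 * d) * ∑ x, sgnV x * w i x)
      simpa using h2
    refine h1.trans ?_
    refine mul_le_mul_of_nonneg_left (Finset.sum_le_sum (fun i _ => ?_)) hdpos.le
    have h3 := halt i
    set A := ∑ x, sgnV x * w i x
    set X := edgeSum i (w i) τ
    have h4 : (X - 1 / (2 * d) * A) ^ 2 ≤ 16 / 15 * X ^ 2 + 16 * (1 / (2 * d) * A) ^ 2 := by
      nlinarith [sq_nonneg (X + 15 * (1 / (2 * d) * A))]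
    have h5 : 16 * (1 / (2 * (d : ℝ)) * A) ^ 2 ≤ 4 * (n : ℝ) ^ d * Δ := by
      have h6 : (1 / (2 * (d : ℝ)) * A) ^ 2 = (1 / (4 * d ^ 2)) * A ^ 2 := by
        field_simp
        ring
      have hd1 : (1 : ℝ) ≤ d := by exact_mod_cast (by omega : 1 ≤ d)
      have h7 : (1 : ℝ) / (4 * d ^ 2) ≤ 1 / 4 := by
        apply one_div_le_one_div_of_le (by norm_num)
        nlinarith
      rw [h6]
      have h8 : (1 : ℝ) / (4 * d ^ 2) * A ^ 2 ≤ 1 / 4 * A ^ 2 :=
        mul_le_mul_of_nonneg_right h7 (sq_nonneg _)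
      linarith
    linarith
  -- sum over matchings
  have hsum : ∑ τ ∈ PMs d n, fld d n φ τ ^ 2
      ≤ 1 / (n : ℝ) ^ d * (d * ∑ i, (16 / 15 * ((15 / 2) * ∑ x, w i x ^ 2 + (n : ℝ) ^ d * Δ)
        + 4 * (n : ℝ) ^ d * Δ)) * (PMs d n).card := by
    calc ∑ τ ∈ PMs d n, fld d n φ τ ^ 2
        ≤ ∑ τ ∈ PMs d n, 1 / (n : ℝ) ^ d * (d * ∑ i, (16 / 15 * edgeSum i (w i) τ ^ 2
          + 4 * (n : ℝ) ^ d * Δ)) := Finset.sum_le_sum hpt
      _ = 1 / (n : ℝ) ^ d * (d * ∑ i, (16 / 15 * ∑ τ ∈ PMs d n, edgeSum i (w i) τ ^ 2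
          + 4 * (n : ℝ) ^ d * Δ * (PMs d n).card)) := by
          rw [← Finset.mul_sum, ← Finset.mul_sum, Finset.sum_comm]
          congr 2
          refine Finset.sum_congr rfl (fun i _ => ?_)
          rw [Finset.sum_add_distrib, ← Finset.mul_sum, Finset.sum_const, nsmul_eq_mul]
          ring
      _ ≤ 1 / (n : ℝ) ^ d * (d * ∑ i, ((16 / 15 * ((15 / 2) * ∑ x, w i x ^ 2 + (n : ℝ) ^ d * Δ)
          + 4 * (n : ℝ) ^ d * Δ) * (PMs d n).card)) := by
          refine mul_le_mul_of_nonneg_left (mul_le_mul_of_nonneg_left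
            (Finset.sum_le_sum (fun i _ => ?_)) hdpos.le) (by positivity)
          have := hedge i
          linarith
      _ = _ := by
          rw [← Finset.sum_mul]
          ring
  unfold expect
  rw [div_le_iff₀ hcard']
  refine hsum.trans (mul_le_mul_of_nonneg_right ?_ hcard'.le)
  have h1 : ∑ i : Fin d, (16 / 15 * ((15 / 2) * ∑ x, w i x ^ 2 + (n : ℝ) ^ d * Δ)
        + 4 * (n : ℝ) ^ d * Δ)
      = 8 * ∑ x, ∑ i, w i x ^ 2 + d * ((16 / 15 + 4) * ((n : ℝ) ^ d * Δ)) := by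
    rw [Finset.sum_comm (s := (univ : Finset (Vtx d n)))]
    have h2 : ∀ i : Fin d, 16 / 15 * ((15 / 2) * ∑ x, w i x ^ 2 + (n : ℝ) ^ d * Δ)
        + 4 * (n : ℝ) ^ d * Δ = 8 * ∑ x, w i x ^ 2 + (16 / 15 + 4) * ((n : ℝ) ^ d * Δ) := by
      intro i
      ring
    simp only [h2]
    rw [Finset.sum_add_distrib, ← Finset.mul_sum, Finset.sum_const, Finset.card_univ,
      Fintype.card_fin, nsmul_eq_mul]
  rw [h1]
  have hnd : (0 : ℝ) < (n : ℝ) ^ d := by positivity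
  have h3 : 1 / (n : ℝ) ^ d * (d * (8 * ∑ x, ∑ i, w i x ^ 2
      + d * ((16 / 15 + 4) * ((n : ℝ) ^ d * Δ))))
      = 8 * d * ((∑ x, ∑ i, w i x ^ 2) / (n : ℝ) ^ d) + (76 / 15) * d ^ 2 * Δ := by
    field_simp
    ring
  rw [h3]
  have h4 : (76 / 15 : ℝ) * d ^ 2 * Δ ≤ 6 * d ^ 2 * Δ := by
    have : (0 : ℝ) ≤ (d : ℝ) ^ 2 * Δ := by positivity
    nlinarith
  linarith

/-- main theorem: the fluctuations of the dimer flow are bounded by the projected `L²` norm -/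
theorem main (d : ℕ) (hd : 2 ≤ d) (φ : (Fin d → ℝ) → (Fin d → ℝ)) (hφ : ContDiff ℝ ∞ φ)
    (hφp : Per φ) (G : (Fin d → ℝ) → ℝ) (hG : ContDiff ℝ ∞ G) (hGp : Per G) (ε : ℝ) (hε : 0 < ε) :
    ∃ N : ℕ, ∀ n : ℕ, [NeZero n] → N ≤ n → Even n →
      expect d n (fun τ => fld d n φ τ ^ 2)
        ≤ 8 * d * (∫ x in Set.Icc (0 : Fin d → ℝ) 1, ∑ i, (φ x i - pd i G x) ^ 2) + ε := by
  -- constants
  have hC1 : ∃ C, 0 ≤ C ∧ ∀ i j : Fin d, ∀ n : ℕ, 1 ≤ n → ∀ z,
      |(dfs j (1 / n))^[d] (psi φ G i n) z| ≤ C * (1 / n) ^ d := by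
    choose C hC using fun p : Fin d × Fin d => psi_diff φ G hφ hφp hG hGp p.1 p.2 d
    refine ⟨∑ p, C p, Finset.sum_nonneg (fun p _ => (hC p).1), fun i j n hn z => ?_⟩
    refine ((hC (i, j)).2 n hn z).trans (mul_le_mul_of_nonneg_right ?_ (by positivity))
    exact Finset.single_le_sum (fun p _ => (hC p).1) (Finset.mem_univ (i, j))
  have hC2 : ∃ C, 0 ≤ C ∧ ∀ n : ℕ, 1 ≤ n → ∀ z,
      ∑ i, psi φ G i n z ^ 2 ≤ ∑ i, (φ z i - pd i G z) ^ 2 + C * (1 / n) := by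
    choose C hC using fun i : Fin d => psi_sq φ G hφ hφp hG hGp i
    refine ⟨∑ i, C i, Finset.sum_nonneg (fun p _ => (hC p).1), fun n hn z => ?_⟩
    rw [Finset.sum_mul, ← Finset.sum_add_distrib]
    exact Finset.sum_le_sum (fun i _ => (hC i).2 n hn z)
  obtain ⟨C1, hC10, hC1⟩ := hC1
  obtain ⟨C2, hC20, hC2⟩ := hC2
  set H : (Fin d → ℝ) → ℝ := fun x => ∑ i, (φ x i - pd i G x) ^ 2 with hH
  have hHc : Continuous H := by
    refine continuous_finsetSum _ (fun i _ => ?_)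
    exact ((comp_smooth φ hφ i).continuous.sub (pd_smooth i G hG).continuous).pow 2
  have hR := riemann_torus d H hHc
  set I := ∫ x in Set.Icc (0 : Fin d → ℝ) 1, H x with hI
  have hdpos : (0 : ℝ) < d := by exact_mod_cast (by omega : 0 < d)
  have hδ : 0 < ε / (24 * d) := by positivity
  obtain ⟨N1, hN1⟩ := (Metric.tendsto_atTop.mp hR) (ε / (24 * d)) hδ
  -- choose N
  obtain ⟨N2, hN2⟩ := exists_nat_gt ((24 * d * C2 + 18 * d ^ 2 * C1 ^ 2) / ε + 1)
  refine ⟨max (N1 + 1) (max N2 4), fun n inst hn he => ?_⟩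
  have hn1 : N1 + 1 ≤ n := (le_max_left _ _).trans hn
  have hn2 : N2 ≤ n := (le_max_left _ _).trans ((le_max_right _ _).trans hn)
  have hn4 : 4 ≤ n := (le_max_right _ _).trans ((le_max_right _ _).trans hn)
  have hn0 : (0 : ℝ) < n := by exact_mod_cast (by omega : 0 < n)
  have h1 := main_fixed d n hd hn4 he φ hφp G hGp d C1 (fun i j z => hC1 i j n (by omega) z)
  have h2 : (∑ x : Vtx d n, ∑ i, psi φ G i n (fun k => ((x k).val : ℝ) / n) ^ 2) / (n : ℝ) ^ d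
      ≤ (∑ x : Vtx d n, H (fun k => ((x k).val : ℝ) / n)) / (n : ℝ) ^ d + C2 * (1 / n) := by
    have h3 : ∑ x : Vtx d n, ∑ i, psi φ G i n (fun k => ((x k).val : ℝ) / n) ^ 2
        ≤ ∑ x : Vtx d n, (H (fun k => ((x k).val : ℝ) / n) + C2 * (1 / n)) :=
      Finset.sum_le_sum (fun x _ => hC2 n (by omega) _)
    rw [Finset.sum_add_distrib, Finset.sum_const, Finset.card_univ, Fintype.card_fun, ZMod.card,
      Fintype.card_fin, nsmul_eq_mul] at h3
    push_cast at h3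
    have hnd : (0 : ℝ) < (n : ℝ) ^ d := by positivity
    rw [div_le_iff₀ hnd]
    have h4 : ((∑ x : Vtx d n, H (fun k => ((x k).val : ℝ) / n)) / (n : ℝ) ^ d + C2 * (1 / n))
        * (n : ℝ) ^ d = ∑ x : Vtx d n, H (fun k => ((x k).val : ℝ) / n)
          + (n : ℝ) ^ d * (C2 * (1 / n)) := by
      field_simp
    rw [h4]
    exact h3
  have h5 : (∑ x : Vtx d n, H (fun k => ((x k).val : ℝ) / n)) / (n : ℝ) ^ d ≤ I + ε / (24 * d) := by
    obtain ⟨k, rfl⟩ : ∃ k, n = k + 1 := ⟨n - 1, by omega⟩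
    have h6 := hN1 k (by omega)
    rw [Real.dist_eq] at h6
    have h7 := (abs_lt.mp h6).2
    have h8 : (∑ x : Vtx d (k + 1), H (fun i => ((x i).val : ℝ) / ((k + 1 : ℕ) : ℝ)))
        / ((k + 1 : ℕ) : ℝ) ^ d ≤ I + ε / (24 * d) := by linarith
    exact h8
  -- the error terms
  have hnN : (24 * d * C2 + 18 * d ^ 2 * C1 ^ 2) / ε + 1 < n :=
    hN2.trans_le (by exact_mod_cast hn2)
  have h9 : (24 * d * C2 + 18 * d ^ 2 * C1 ^ 2) * (1 / n) ≤ ε := by
    have h10 : (24 * d * C2 + 18 * d ^ 2 * C1 ^ 2) / ε < n := by linarith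
    rw [div_lt_iff₀ hε] at h10
    rw [mul_one_div, div_le_iff₀ hn0]
    linarith
  have h11 : (n : ℝ) ^ d * (1 / n) ^ (2 * d) ≤ 1 / n := by
    have e1 : (n : ℝ) ^ d * (1 / n) ^ (2 * d) = (1 / n) ^ d := by
      rw [two_mul, pow_add, ← mul_assoc, ← mul_pow]
      rw [mul_one_div_cancel hn0.ne', one_pow, one_mul]
    rw [e1]
    have hle : (1 : ℝ) / n ≤ 1 := by
      rw [div_le_one hn0]
      exact_mod_cast (by omega : 1 ≤ n)
    calc (1 / (n : ℝ)) ^ d ≤ (1 / (n : ℝ)) ^ 1 :=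
          pow_le_pow_of_le_one (by positivity) hle (by omega)
      _ = 1 / n := pow_one _
  have h12 : 6 * (d : ℝ) ^ 2 * (C1 ^ 2 * (n : ℝ) ^ d * (1 / n) ^ (2 * d))
      ≤ 6 * (d : ℝ) ^ 2 * C1 ^ 2 * (1 / n) := by
    have : C1 ^ 2 * (n : ℝ) ^ d * (1 / n) ^ (2 * d) ≤ C1 ^ 2 * (1 / n) := by
      rw [mul_assoc]
      exact mul_le_mul_of_nonneg_left h11 (sq_nonneg _)
    calc 6 * (d : ℝ) ^ 2 * (C1 ^ 2 * (n : ℝ) ^ d * (1 / n) ^ (2 * d))
        ≤ 6 * (d : ℝ) ^ 2 * (C1 ^ 2 * (1 / n)) := mul_le_mul_of_nonneg_left this (by positivity)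
      _ = _ := by ring
  have h13 : 8 * (d : ℝ) * ((∑ x : Vtx d n, ∑ i, psi φ G i n (fun k => ((x k).val : ℝ) / n) ^ 2)
      / (n : ℝ) ^ d) ≤ 8 * d * (I + ε / (24 * d) + C2 * (1 / n)) := by
    refine mul_le_mul_of_nonneg_left ?_ (by positivity)
    linarith
  have h14 : 8 * (d : ℝ) * (I + ε / (24 * d) + C2 * (1 / n))
      = 8 * d * I + ε / 3 + 8 * d * C2 * (1 / n) := by
    field_simp
    ring
  rw [h14] at h13
  have h15 : 8 * (d : ℝ) * C2 * (1 / n) + 6 * (d : ℝ) ^ 2 * C1 ^ 2 * (1 / n) ≤ ε / 3 := by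
    have : 3 * (8 * (d : ℝ) * C2 * (1 / n) + 6 * (d : ℝ) ^ 2 * C1 ^ 2 * (1 / n))
        = (24 * d * C2 + 18 * d ^ 2 * C1 ^ 2) * (1 / n) := by ring
    linarith
  linarith

end LibDim
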