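import Mathlib

namespace LibDim

open Finset

variable {α : Type*} [Fintype α] [DecidableEq α]

/-- closed path sum of matrices on the cycle -/
noncomputable def cyc (n : ℕ) [NeZero n] (M : ZMod n → Matrix α α ℝ) : ℝ :=
  ∑ a : ZMod n → α, ∏ t : ZMod n, M t (a t) (a (t + 1))

/-- reindex the paths and the product by the shift -/
theorem cyc_shift (n : ℕ) [NeZero n] (M : ZMod n → Matrix α α ℝ) (k : ZMod n) :
    cyc n (fun t => M (t + k)) = cyc n M := by
  unfold cyc
  rw [← Equiv.sum_comp ((Equiv.addRight k).symm.arrowCongr (Equiv.refl α))]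
  refine Finset.sum_congr rfl fun a _ => ?_
  rw [← Equiv.prod_comp (Equiv.addRight k) (fun t => M t (a t) (a (t + 1)))]
  refine Finset.prod_congr rfl fun t _ => ?_
  simp only [Equiv.arrowCongr_apply, Equiv.symm_symm, Function.comp_apply, Equiv.coe_addRight,
    Equiv.refl_apply]
  rw [add_right_comm]

/-- ordered products -/
noncomputable def pathP (M : ℕ → Matrix α α ℝ) : ℕ → Matrix α α ℝ
  | 0 => 1
  | k + 1 => pathP M k * M k

theorem path_snoc (k : ℕ) (F : (Fin (k + 2) → α) → ℝ) :
    ∑ b, F b = ∑ a : Fin (k + 1) → α, ∑ x : α, F (Fin.snoc (α := fun _ => α) a x) := by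
  rw [← Equiv.sum_comp (Fin.snocEquiv (fun _ => α)), Fintype.sum_prod_type, Finset.sum_comm]
  rfl

theorem path_gen (M : ℕ → Matrix α α ℝ) (k : ℕ) : ∀ g : α → α → ℝ,
    ∑ a : Fin (k + 1) → α, (∏ t : Fin k, M t (a t.castSucc) (a t.succ)) * g (a 0) (a (Fin.last k))
      = ∑ i, ∑ j, pathP M k i j * g i j := by
  induction k with
  | zero =>
    intro g
    rw [← Equiv.sum_comp (Equiv.funUnique (Fin 1) α).symm]
    simp [pathP, Matrix.one_apply]
  | succ k ih =>
    intro g
    rw [path_snoc]
    have h1 : ∀ (a : Fin (k + 1) → α) (x : α),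
        (∏ t : Fin (k + 1), M t (Fin.snoc (α := fun _ => α) a x t.castSucc)
          (Fin.snoc (α := fun _ => α) a x t.succ)) *
          g (Fin.snoc (α := fun _ => α) a x 0) (Fin.snoc (α := fun _ => α) a x (Fin.last (k + 1)))
        = (∏ t : Fin k, M t (a t.castSucc) (a t.succ)) * (M k (a (Fin.last k)) x * g (a 0) x) := by
      intro a x
      have h0 : (Fin.snoc (α := fun _ => α) a x : Fin (k + 2) → α) 0 = a 0 := by
        have := Fin.snoc_castSucc (α := fun _ => α) x a 0
        exact this
      have h3 : ∀ t : Fin k, (Fin.snoc (α := fun _ => α) a x : Fin (k + 2) → α) t.castSucc.succ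
          = a t.succ := by
        intro t
        have := Fin.snoc_castSucc (α := fun _ => α) x a t.succ
        rw [← Fin.succ_castSucc] at this
        exact this
      rw [Fin.prod_univ_castSucc, h0]
      simp only [Fin.snoc_castSucc, Fin.succ_last, Fin.snoc_last, Fin.val_last, Fin.val_castSucc, h3]
      ring
    have h2 : ∀ a : Fin (k + 1) → α, ∑ x : α,
        (∏ t : Fin (k + 1), M t (Fin.snoc (α := fun _ => α) a x t.castSucc)
          (Fin.snoc (α := fun _ => α) a x t.succ)) *
          g (Fin.snoc (α := fun _ => α) a x 0) (Fin.snoc (α := fun _ => α) a x (Fin.last (k + 1)))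
        = (∏ t : Fin k, M t (a t.castSucc) (a t.succ)) *
          (fun i j => ∑ x : α, M k j x * g i x) (a 0) (a (Fin.last k)) := by
      intro a
      rw [Finset.sum_congr rfl fun x _ => h1 a x, Finset.mul_sum]
    refine (Finset.sum_congr rfl fun a _ => h2 a).trans
      ((ih (fun i j => ∑ x : α, M k j x * g i x)).trans ?_)
    refine Finset.sum_congr rfl fun i _ => ?_
    simp only [pathP, Matrix.mul_apply, Finset.mul_sum, Finset.sum_mul]
    rw [Finset.sum_comm]
    refine Finset.sum_congr rfl fun x _ => Finset.sum_congr rfl fun j _ => ?_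
    ring

theorem cyc_eq (k : ℕ) (M : ZMod (k + 1) → Matrix α α ℝ) (N : ℕ → Matrix α α ℝ)
    (h : ∀ t : ZMod (k + 1), M t = N t.val) :
    cyc (k + 1) M = (pathP N (k + 1)).trace := by
  have hg := path_gen N k (fun i j => N k j i)
  have hr : (pathP N (k + 1)).trace = ∑ i, ∑ j, pathP N k i j * N k j i := by
    simp only [Matrix.trace, Matrix.diag, pathP, Matrix.mul_apply]
  rw [hr, ← hg]
  change (∑ a : Fin (k + 1) → α, ∏ t : Fin (k + 1), M t (a t) (a (t + 1))) = _
  refine Finset.sum_congr rfl fun a _ => ?_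
  have hp : ∏ t : Fin (k + 1), M t (a t) (a (t + 1))
      = ∏ t : Fin (k + 1), N t.val (a t) (a (t + 1)) :=
    Finset.prod_congr rfl fun t _ => congrFun (congrFun (h t) (a t)) (a (t + 1))
  rw [hp, Fin.prod_univ_castSucc, Fin.last_add_one, Fin.val_last]
  congr 1
  refine Finset.prod_congr rfl fun t _ => ?_
  rw [Fin.val_castSucc, Fin.coeSucc_eq_succ]

theorem pathP_const (S : Matrix α α ℝ) (k : ℕ) : pathP (fun _ => S) k = S ^ k := by
  induction k with
  | zero => rfl
  | succ k ih => rw [pathP, ih, pow_succ]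

/-- `n` insertions of the same matrix -/
theorem cyc_const (n : ℕ) [NeZero n] (S : Matrix α α ℝ) :
    cyc n (fun _ => S) = (S ^ n).trace := by
  obtain ⟨k, rfl⟩ := Nat.exists_eq_succ_of_ne_zero (NeZero.ne n)
  have := cyc_eq k (fun _ => S) (fun _ => S) (fun _ => rfl)
  rw [pathP_const] at this
  exact this

theorem pathP_one (S U : Matrix α α ℝ) (k : ℕ) :
    pathP (fun j => if j = 0 then U else S) (k + 1) = U * S ^ k := by
  induction k with
  | zero => simp [pathP]
  | succ k ih => rw [pathP, ih, if_neg (Nat.succ_ne_zero k), mul_assoc, pow_succ]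

/-- one insertion -/
theorem cyc_one (n : ℕ) [NeZero n] (S U : Matrix α α ℝ) (t : ZMod n) :
    cyc n (fun k => if k = t then U else S) = (U * S ^ (n - 1)).trace := by
  obtain ⟨m, rfl⟩ := Nat.exists_eq_succ_of_ne_zero (NeZero.ne n)
  rw [← cyc_shift _ _ t]
  have := cyc_eq m (fun k => if k + t = t then U else S) (fun j => if j = 0 then U else S)
    (fun k => by simp [ZMod.val_eq_zero])
  rw [pathP_one] at this
  exact this

theorem pathP_two_a (S U V : Matrix α α ℝ) (d k : ℕ) (hk : k < d) :
    pathP (fun j => if j = 0 then U else if j = d then V else S) (k + 1) = U * S ^ k := by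
  induction k with
  | zero => simp [pathP]
  | succ k ih =>
    rw [pathP, ih (by omega), if_neg (Nat.succ_ne_zero k), if_neg (by omega), mul_assoc, pow_succ]

theorem pathP_two_b (S U V : Matrix α α ℝ) (d k : ℕ) (hd : 0 < d) :
    pathP (fun j => if j = 0 then U else if j = d then V else S) (d + 1 + k)
      = U * S ^ (d - 1) * V * S ^ k := by
  induction k with
  | zero =>
    obtain ⟨e, rfl⟩ := Nat.exists_eq_succ_of_ne_zero hd.ne'
    rw [Nat.add_zero, pathP, Nat.succ_eq_add_one, pathP_two_a S U V (e + 1) e (by omega),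
      if_neg (by omega), if_pos rfl, pow_zero, mul_one, Nat.add_sub_cancel]
  | succ k ih =>
    rw [← Nat.add_assoc, pathP, ih, if_neg (by omega), if_neg (by omega), mul_assoc, pow_succ]

/-- two insertions -/
theorem cyc_two (n : ℕ) [NeZero n] (S U V : Matrix α α ℝ) (t s : ZMod n) (hts : t ≠ s) :
    cyc n (fun k => if k = t then U else if k = s then V else S)
      = (U * S ^ ((s - t).val - 1) * V * S ^ (n - 1 - (s - t).val)).trace := by
  obtain ⟨m, rfl⟩ := Nat.exists_eq_succ_of_ne_zero (NeZero.ne n)
  rw [← cyc_shift _ _ t]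
  have hd : 0 < (s - t).val := by
    rw [Nat.pos_iff_ne_zero, Ne, ZMod.val_eq_zero, sub_eq_zero]
    exact fun h => hts h.symm
  have hlt : (s - t).val < m + 1 := ZMod.val_lt (s - t)
  have h := cyc_eq m (fun k => if k + t = t then U else if k + t = s then V else S)
    (fun j => if j = 0 then U else if j = (s - t).val then V else S)
    (fun k => by
      have h1 : (k + t = t) ↔ (k.val = 0) := by rw [ZMod.val_eq_zero]; simp
      have h2 : (k + t = s) ↔ (k.val = (s - t).val) := by
        rw [← eq_sub_iff_add_eq]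
        exact (ZMod.val_injective (m + 1)).eq_iff.symm
      simp only [h1, h2])
  have hm : m + 1 = (s - t).val + 1 + (m - (s - t).val) := by omega
  have h' : pathP (fun j => if j = 0 then U else if j = (s - t).val then V else S) (m + 1)
      = U * S ^ ((s - t).val - 1) * V * S ^ (m - (s - t).val) := by
    rw [← pathP_two_b S U V (s - t).val (m - (s - t).val) hd, ← hm]
  rw [h'] at h
  exact h

end LibDim
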