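import Pool.Agent.LibDim.Four

namespace LibDim

open Finset

variable {α : Type*} [Fintype α] [DecidableEq α]

/-- the mass term -/
noncomputable def mass (n : ℕ) (S U : Matrix α α ℝ) : ℝ := (U * U * S ^ (n - 2)).trace

/-- the two point kernel term -/
noncomputable def kerTr (n : ℕ) (S U V : Matrix α α ℝ) (r : ZMod n) : ℝ :=
  if r = 0 then 0 else (-1) ^ r.val * (U * S ^ (r.val - 1) * V * S ^ (n - 1 - r.val)).trace

/-- the excess term -/
noncomputable def excTr (n : ℕ) [NeZero n] (S U : Matrix α α ℝ) : ℝ :=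
  -(∑ r : ZMod n, kerTr n S U U r) - mass n S U

theorem spec_diag (S : Matrix α α ℝ) (hS : S.IsSymm) :
    ∃ (Q : Matrix α α ℝ) (l : α → ℝ), Q * Q.transpose = 1 ∧ Q.transpose * Q = 1 ∧
      S = Q * Matrix.diagonal l * Q.transpose := by
  have hH : S.IsHermitian := by
    rw [Matrix.IsHermitian, Matrix.conjTranspose_eq_transpose_of_trivial]
    exact hS
  have hst : star (hH.eigenvectorUnitary : Matrix α α ℝ)
      = (hH.eigenvectorUnitary : Matrix α α ℝ).transpose := by
    rw [Matrix.star_eq_conjTranspose, Matrix.conjTranspose_eq_transpose_of_trivial]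
  refine ⟨(hH.eigenvectorUnitary : Matrix α α ℝ), hH.eigenvalues, ?_, ?_, ?_⟩
  · have h := Unitary.mul_star_self_of_mem hH.eigenvectorUnitary.2
    rw [hst] at h
    exact h
  · have h := Unitary.star_mul_self_of_mem hH.eigenvectorUnitary.2
    rw [hst] at h
    exact h
  · have h := hH.spectral_theorem
    rw [Unitary.conjStarAlgAut_apply, hst] at h
    exact h

theorem spec_pow (Q : Matrix α α ℝ) (l : α → ℝ) (h1 : Q * Q.transpose = 1)
    (h2 : Q.transpose * Q = 1) (k : ℕ) :
    (Q * Matrix.diagonal l * Q.transpose) ^ k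
      = Q * Matrix.diagonal (fun i => l i ^ k) * Q.transpose := by
  induction k with
  | zero =>
    simp only [pow_zero]
    rw [Matrix.diagonal_one, Matrix.mul_one, h1]
  | succ k ih =>
    rw [pow_succ, ih]
    have : Q * Matrix.diagonal (fun i => l i ^ k) * Q.transpose * (Q * Matrix.diagonal l * Q.transpose)
        = Q * (Matrix.diagonal (fun i => l i ^ k) * (Q.transpose * Q) * Matrix.diagonal l)
          * Q.transpose := by
      simp only [Matrix.mul_assoc]
    rw [this, h2, Matrix.mul_one, Matrix.diagonal_mul_diagonal]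
    congr 3

theorem spec_trace (Q : Matrix α α ℝ) (l : α → ℝ) (h1 : Q * Q.transpose = 1)
    (h2 : Q.transpose * Q = 1) (U V : Matrix α α ℝ) (p q : ℕ) :
    (U * (Q * Matrix.diagonal l * Q.transpose) ^ p * V
        * (Q * Matrix.diagonal l * Q.transpose) ^ q).trace
      = ∑ i, ∑ j, (Q.transpose * U * Q) j i * l i ^ p * (Q.transpose * V * Q) i j * l j ^ q := by
  rw [spec_pow Q l h1 h2, spec_pow Q l h1 h2]
  have e : U * (Q * Matrix.diagonal (fun i => l i ^ p) * Q.transpose) * V
        * (Q * Matrix.diagonal (fun i => l i ^ q) * Q.transpose)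
      = (U * Q * Matrix.diagonal (fun i => l i ^ p) * (Q.transpose * V * Q)
        * Matrix.diagonal (fun i => l i ^ q)) * Q.transpose := by
    simp only [Matrix.mul_assoc]
  rw [e, Matrix.trace_mul_comm]
  have e2 : Q.transpose * (U * Q * Matrix.diagonal (fun i => l i ^ p) * (Q.transpose * V * Q)
        * Matrix.diagonal (fun i => l i ^ q))
      = (Q.transpose * U * Q) * Matrix.diagonal (fun i => l i ^ p) * (Q.transpose * V * Q)
        * Matrix.diagonal (fun i => l i ^ q) := by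
    simp only [Matrix.mul_assoc]
  rw [e2, Finset.sum_comm]
  unfold Matrix.trace
  refine Finset.sum_congr rfl fun j _ => ?_
  rw [Matrix.diag_apply, Matrix.mul_diagonal, Matrix.mul_apply, Finset.sum_mul]
  refine Finset.sum_congr rfl fun i _ => ?_
  rw [Matrix.mul_diagonal]

theorem spec_conj_symm (Q U : Matrix α α ℝ) (hU : U.IsSymm) (i j : α) :
    (Q.transpose * U * Q) j i = (Q.transpose * U * Q) i j := by
  have h : (Q.transpose * U * Q).transpose = Q.transpose * U * Q := by
    rw [Matrix.transpose_mul, Matrix.transpose_mul, Matrix.transpose_transpose, hU.eq,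
      Matrix.mul_assoc]
  calc (Q.transpose * U * Q) j i = (Q.transpose * U * Q).transpose i j := rfl
    _ = _ := by rw [h]

theorem spec_mass (n : ℕ) (Q : Matrix α α ℝ) (l : α → ℝ) (h1 : Q * Q.transpose = 1)
    (h2 : Q.transpose * Q = 1) (U : Matrix α α ℝ) (hU : U.IsSymm) :
    mass n (Q * Matrix.diagonal l * Q.transpose) U
      = ∑ i, ∑ j, (pw n (l i) (l j) / 2) * (Q.transpose * U * Q) i j ^ 2 := by
  have h := spec_trace Q l h1 h2 U U 0 (n - 2)
  rw [pow_zero, Matrix.mul_one] at h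
  unfold mass
  rw [h]
  set A := Q.transpose * U * Q with hA
  have hs : ∀ i j, A j i = A i j := fun i j => spec_conj_symm Q U hU i j
  have e1 : ∑ i, ∑ j, A j i * l i ^ 0 * A i j * l j ^ (n - 2)
      = ∑ i, ∑ j, A i j ^ 2 * l j ^ (n - 2) := by
    refine Finset.sum_congr rfl fun i _ => Finset.sum_congr rfl fun j _ => ?_
    rw [hs i j]; ring
  have e2 : ∑ i, ∑ j, A i j ^ 2 * l j ^ (n - 2) = ∑ i, ∑ j, A i j ^ 2 * l i ^ (n - 2) := by
    rw [Finset.sum_comm]
    refine Finset.sum_congr rfl fun i _ => Finset.sum_congr rfl fun j _ => ?_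
    rw [hs i j]
  have e3 : ∑ i, ∑ j, (pw n (l i) (l j) / 2) * A i j ^ 2
      = (∑ i, ∑ j, A i j ^ 2 * l i ^ (n - 2)) / 2 + (∑ i, ∑ j, A i j ^ 2 * l j ^ (n - 2)) / 2 := by
    rw [Finset.sum_div, Finset.sum_div, ← Finset.sum_add_distrib]
    refine Finset.sum_congr rfl fun i _ => ?_
    rw [Finset.sum_div, Finset.sum_div, ← Finset.sum_add_distrib]
    refine Finset.sum_congr rfl fun j _ => ?_
    unfold pw
    ring
  rw [e1, e3, ← e2]
  ring

theorem spec_kerTr (n : ℕ) (Q : Matrix α α ℝ) (l : α → ℝ) (h1 : Q * Q.transpose = 1)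
    (h2 : Q.transpose * Q = 1) (U V : Matrix α α ℝ) (hU : U.IsSymm) (r : ZMod n) :
    kerTr n (Q * Matrix.diagonal l * Q.transpose) U V r
      = ∑ i, ∑ j, ker n (l i) (l j) r
          * ((Q.transpose * U * Q) i j * (Q.transpose * V * Q) i j) := by
  unfold kerTr ker
  by_cases hr : r = 0
  · simp [hr]
  · simp only [if_neg hr]
    rw [spec_trace Q l h1 h2, Finset.mul_sum]
    refine Finset.sum_congr rfl fun i _ => ?_
    rw [Finset.mul_sum]
    refine Finset.sum_congr rfl fun j _ => ?_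
    rw [spec_conj_symm Q U hU i j]
    ring

theorem spec_exc (n : ℕ) [NeZero n] (Q : Matrix α α ℝ) (l : α → ℝ) (h1 : Q * Q.transpose = 1)
    (h2 : Q.transpose * Q = 1) (U : Matrix α α ℝ) (hU : U.IsSymm) :
    excTr n (Q * Matrix.diagonal l * Q.transpose) U
      = ∑ i, ∑ j, exc n (l i) (l j) * (Q.transpose * U * Q) i j ^ 2 := by
  unfold excTr
  rw [spec_mass n Q l h1 h2 U hU]
  have e : ∑ r : ZMod n, kerTr n (Q * Matrix.diagonal l * Q.transpose) U U r
      = ∑ i, ∑ j, (∑ r : ZMod n, ker n (l i) (l j) r) * (Q.transpose * U * Q) i j ^ 2 := by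
    have e1 : ∑ r : ZMod n, kerTr n (Q * Matrix.diagonal l * Q.transpose) U U r
        = ∑ r : ZMod n, ∑ i, ∑ j, ker n (l i) (l j) r * (Q.transpose * U * Q) i j ^ 2 := by
      refine Finset.sum_congr rfl fun r _ => ?_
      rw [spec_kerTr n Q l h1 h2 U U hU]
      refine Finset.sum_congr rfl fun i _ => Finset.sum_congr rfl fun j _ => ?_
      ring
    rw [e1, Finset.sum_comm]
    refine Finset.sum_congr rfl fun i _ => ?_
    rw [Finset.sum_comm]
    refine Finset.sum_congr rfl fun j _ => ?_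
    rw [Finset.sum_mul]
  rw [e, ← Finset.sum_neg_distrib, ← Finset.sum_sub_distrib]
  refine Finset.sum_congr rfl fun i _ => ?_
  rw [← Finset.sum_neg_distrib, ← Finset.sum_sub_distrib]
  refine Finset.sum_congr rfl fun j _ => ?_
  unfold exc
  ring

theorem spec_dif_symm {n : ℕ} (U : ZMod n → Matrix α α ℝ) (hU : ∀ t, (U t).IsSymm) (m : ℕ) :
    ∀ t, ((dif1^[m]) U t).IsSymm := by
  induction m generalizing U with
  | zero => intro t; simpa using hU t
  | succ m ih =>
    intro t
    rw [Function.iterate_succ_apply]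
    refine ih (dif1 U) (fun s => ?_) t
    unfold dif1
    rw [Matrix.IsSymm, Matrix.transpose_sub, (hU _).eq, (hU _).eq]

theorem spec_dif_conj {n : ℕ} (Q : Matrix α α ℝ) (U : ZMod n → Matrix α α ℝ) (i j : α) (m : ℕ) :
    ∀ t, (Q.transpose * ((dif1^[m]) U t) * Q) i j
      = (dif1^[m]) (fun t => (Q.transpose * U t * Q) i j) t := by
  induction m generalizing U with
  | zero => intro t; rfl
  | succ m ih =>
    intro t
    rw [Function.iterate_succ_apply, Function.iterate_succ_apply, ih (dif1 U) t]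
    have e : (fun t => (Q.transpose * dif1 U t * Q) i j)
        = dif1 (fun t => (Q.transpose * U t * Q) i j) := by
      funext s
      unfold dif1
      rw [Matrix.mul_sub, Matrix.sub_mul, Matrix.sub_apply]
    rw [e]

/-- Everything in this file: S = Q diag(l) Q^T with Q orthogonal. -/
theorem mass_nonneg (n : ℕ) (hn : 4 ≤ n) (he : Even n) (S U : Matrix α α ℝ)
    (hS : S.IsSymm) (hU : U.IsSymm) : 0 ≤ mass n S U := by
  obtain ⟨Q, l, h1, h2, rfl⟩ := spec_diag S hS
  rw [spec_mass n Q l h1 h2 U hU]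
  refine Finset.sum_nonneg fun i _ => Finset.sum_nonneg fun j _ => ?_
  exact mul_nonneg (div_nonneg (pw_nonneg n he hn _ _) (by norm_num)) (sq_nonneg _)

/-- from `exc_nonneg` -/
theorem excTr_nonneg (n : ℕ) [NeZero n] (hn : 4 ≤ n) (he : Even n) (S U : Matrix α α ℝ)
    (hS : S.IsSymm) (hU : U.IsSymm) : 0 ≤ excTr n S U := by
  obtain ⟨Q, l, h1, h2, rfl⟩ := spec_diag S hS
  rw [spec_exc n Q l h1 h2 U hU]
  refine Finset.sum_nonneg fun i _ => Finset.sum_nonneg fun j _ => ?_
  exact mul_nonneg (exc_nonneg n hn he _ _) (sq_nonneg _)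

/-- from `scalar_ineq` with x = l_i, y = l_j, a_t = (U_t)'_{ij}, summed over i, j
(the conjugation by Q commutes with `dif1`) -/
theorem spec_ineq (n : ℕ) [NeZero n] (hn : 4 ≤ n) (he : Even n) (S : Matrix α α ℝ)
    (U : ZMod n → Matrix α α ℝ) (hS : S.IsSymm) (hU : ∀ t, (U t).IsSymm) (m : ℕ) :
    ∑ t, ∑ s, kerTr n S (U t) (U s) (s - t)
      ≤ ∑ t, (-(mass n S (U t)) + 2 * excTr n S (U t))
        + n * (1 / 2) ^ m * ∑ t, mass n S ((dif1^[m]) U t) := by
  obtain ⟨Q, l, h1, h2, rfl⟩ := spec_diag S hS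
  set A : ZMod n → α → α → ℝ := fun t i j => (Q.transpose * U t * Q) i j with hA
  have eL : ∑ t, ∑ s, kerTr n (Q * Matrix.diagonal l * Q.transpose) (U t) (U s) (s - t)
      = ∑ i, ∑ j, ∑ t, ∑ s, ker n (l i) (l j) (s - t) * (A t i j * A s i j) := by
    have e1 : ∑ t, ∑ s, kerTr n (Q * Matrix.diagonal l * Q.transpose) (U t) (U s) (s - t)
        = ∑ t, ∑ s, ∑ i, ∑ j, ker n (l i) (l j) (s - t) * (A t i j * A s i j) := by
      refine Finset.sum_congr rfl fun t _ => Finset.sum_congr rfl fun s _ => ?_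
      rw [spec_kerTr n Q l h1 h2 _ _ (hU t)]
    rw [e1]
    calc ∑ t, ∑ s, ∑ i, ∑ j, ker n (l i) (l j) (s - t) * (A t i j * A s i j)
        = ∑ t, ∑ i, ∑ s, ∑ j, ker n (l i) (l j) (s - t) * (A t i j * A s i j) := by
          refine Finset.sum_congr rfl fun t _ => ?_
          rw [Finset.sum_comm]
      _ = ∑ i, ∑ t, ∑ s, ∑ j, ker n (l i) (l j) (s - t) * (A t i j * A s i j) := by
          rw [Finset.sum_comm]
      _ = ∑ i, ∑ t, ∑ j, ∑ s, ker n (l i) (l j) (s - t) * (A t i j * A s i j) := by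
          refine Finset.sum_congr rfl fun i _ => Finset.sum_congr rfl fun t _ => ?_
          rw [Finset.sum_comm]
      _ = _ := by
          refine Finset.sum_congr rfl fun i _ => ?_
          rw [Finset.sum_comm]
  have eM : ∀ t, mass n (Q * Matrix.diagonal l * Q.transpose) (U t)
      = ∑ i, ∑ j, (pw n (l i) (l j) / 2) * A t i j ^ 2 := fun t => spec_mass n Q l h1 h2 _ (hU t)
  have eE : ∀ t, excTr n (Q * Matrix.diagonal l * Q.transpose) (U t)
      = ∑ i, ∑ j, exc n (l i) (l j) * A t i j ^ 2 := fun t => spec_exc n Q l h1 h2 _ (hU t)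
  have eD : ∀ t, mass n (Q * Matrix.diagonal l * Q.transpose) ((dif1^[m]) U t)
      = ∑ i, ∑ j, (pw n (l i) (l j) / 2) * (dif1^[m]) (fun t => A t i j) t ^ 2 := by
    intro t
    rw [spec_mass n Q l h1 h2 _ (spec_dif_symm U hU m t)]
    refine Finset.sum_congr rfl fun i _ => Finset.sum_congr rfl fun j _ => ?_
    rw [spec_dif_conj Q U i j m t]
  rw [eL]
  have hin : ∀ i j, ∑ t, ∑ s, ker n (l i) (l j) (s - t) * (A t i j * A s i j)
      ≤ (-(pw n (l i) (l j) / 2) + 2 * exc n (l i) (l j)) * ∑ t, A t i j ^ 2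
        + n * (pw n (l i) (l j) / 2) * (1 / 2) ^ m
          * ∑ t, ((dif1^[m]) (fun t => A t i j) t) ^ 2 := fun i j =>
    scalar_ineq n hn he (l i) (l j) m (fun t => A t i j)
  refine le_trans (Finset.sum_le_sum fun i _ => Finset.sum_le_sum fun j _ => hin i j) ?_
  refine le_of_eq ?_
  have eR1 : ∑ t, (-(mass n (Q * Matrix.diagonal l * Q.transpose) (U t))
        + 2 * excTr n (Q * Matrix.diagonal l * Q.transpose) (U t))
      = ∑ i, ∑ j, (-(pw n (l i) (l j) / 2) + 2 * exc n (l i) (l j)) * ∑ t, A t i j ^ 2 := by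
    have e1 : ∀ t, (-(mass n (Q * Matrix.diagonal l * Q.transpose) (U t))
        + 2 * excTr n (Q * Matrix.diagonal l * Q.transpose) (U t))
        = ∑ i, ∑ j, (-(pw n (l i) (l j) / 2) + 2 * exc n (l i) (l j)) * A t i j ^ 2 := by
      intro t
      rw [eM t, eE t, ← Finset.sum_neg_distrib, Finset.mul_sum, ← Finset.sum_add_distrib]
      refine Finset.sum_congr rfl fun i _ => ?_
      rw [← Finset.sum_neg_distrib, Finset.mul_sum, ← Finset.sum_add_distrib]
      refine Finset.sum_congr rfl fun j _ => ?_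
      ring
    rw [Finset.sum_congr rfl fun t _ => e1 t, Finset.sum_comm]
    refine Finset.sum_congr rfl fun i _ => ?_
    rw [Finset.sum_comm]
    refine Finset.sum_congr rfl fun j _ => ?_
    rw [Finset.mul_sum]
  have eR2 : n * (1 / 2) ^ m * ∑ t, mass n (Q * Matrix.diagonal l * Q.transpose) ((dif1^[m]) U t)
      = ∑ i, ∑ j, n * (pw n (l i) (l j) / 2) * (1 / 2) ^ m
          * ∑ t, ((dif1^[m]) (fun t => A t i j) t) ^ 2 := by
    rw [Finset.sum_congr rfl fun t _ => eD t, Finset.sum_comm, Finset.mul_sum]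
    refine Finset.sum_congr rfl fun i _ => ?_
    rw [Finset.sum_comm, Finset.mul_sum]
    refine Finset.sum_congr rfl fun j _ => ?_
    rw [← Finset.mul_sum]
    ring
  rw [eR1, eR2, ← Finset.sum_add_distrib]
  refine Finset.sum_congr rfl fun i _ => ?_
  rw [← Finset.sum_add_distrib]

end LibDim
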