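import Pool.Agent.LibDim.Path
import Pool.Agent.LibDim.Spec
import Pool.Agent.LibDim.Comm

namespace LibDim

open Finset

variable {V E : Type} [Fintype V] [DecidableEq V] [Fintype E] [DecidableEq E]

/-- total weight of a stack of `n` layers on the cycle -/
noncomputable def stack (g : Gr V E) (n : ℕ) [NeZero n] (F : (ZMod n → E → Bool) → ℝ) : ℝ :=
  ∑ a : ZMod n → V → Bool, ∑ η : ZMod n → E → Bool,
    (∏ t : ZMod n, wgt g (a t) (η t) (a (t + 1))) * F η

theorem rp_wgt_nonneg (g : Gr V E) (a : V → Bool) (η : E → Bool) (b : V → Bool) :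
    0 ≤ wgt g a η b := by
  unfold wgt
  split <;> norm_num

theorem rp_stack_nonneg (g : Gr V E) (n : ℕ) [NeZero n] (F : (ZMod n → E → Bool) → ℝ)
    (hF : ∀ η, 0 ≤ F η) : 0 ≤ stack g n F := by
  unfold stack
  refine Finset.sum_nonneg (fun a _ => Finset.sum_nonneg (fun η _ => ?_))
  exact mul_nonneg (Finset.prod_nonneg (fun t _ => rp_wgt_nonneg g _ _ _)) (hF η)

theorem rp_stack_sum (g : Gr V E) (n : ℕ) [NeZero n] {ι : Type*} (s : Finset ι) (c : ι → ℝ)
    (F : ι → (ZMod n → E → Bool) → ℝ) :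
    stack g n (fun η => ∑ i ∈ s, c i * F i η) = ∑ i ∈ s, c i * stack g n (F i) := by
  unfold stack
  have h : ∀ a : ZMod n → V → Bool, ∑ η : ZMod n → E → Bool,
      (∏ t : ZMod n, wgt g (a t) (η t) (a (t + 1))) * ∑ i ∈ s, c i * F i η
      = ∑ i ∈ s, c i * ∑ η : ZMod n → E → Bool,
        (∏ t : ZMod n, wgt g (a t) (η t) (a (t + 1))) * F i η := by
    intro a
    simp only [Finset.mul_sum]
    rw [Finset.sum_comm]
    refine Finset.sum_congr rfl (fun i _ => Finset.sum_congr rfl (fun η _ => ?_))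
    ring
  simp only [h]
  rw [Finset.sum_comm]
  refine Finset.sum_congr rfl (fun i _ => ?_)
  rw [Finset.mul_sum]

theorem rp_prod (g : Gr V E) (n : ℕ) [NeZero n] (f : ZMod n → (E → Bool) → ℝ) :
    stack g n (fun η => ∏ t, f t (η t)) = cyc n (fun t => opL g (f t)) := by
  unfold stack cyc
  refine Finset.sum_congr rfl (fun a _ => ?_)
  have h : ∀ t, opL g (f t) (a t) (a (t + 1))
      = ∑ η : E → Bool, wgt g (a t) η (a (t + 1)) * f t η := fun t => rfl
  simp only [h]
  rw [Finset.prod_univ_sum, Fintype.piFinset_univ]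
  refine Finset.sum_congr rfl (fun η _ => ?_)
  rw [← Finset.prod_mul_distrib]

theorem rp_two_eq (g : Gr V E) (n : ℕ) [NeZero n] (u v : (E → Bool) → ℝ) (t : ZMod n) :
    stack g n (fun η => u (η t) * v (η t))
      = (opL g (fun η => u η * v η) * opL g (fun _ => 1) ^ (n - 1)).trace := by
  have h1 : (fun η : ZMod n → E → Bool => u (η t) * v (η t))
      = fun η => ∏ k, (fun x => if k = t then u x * v x else 1 : (E → Bool) → ℝ) (η k) := by
    funext η
    simp
  rw [h1, rp_prod g n (fun k => (fun x => if k = t then u x * v x else 1)), ← cyc_one n _ _ t]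
  congr 1
  funext k
  by_cases hk : k = t
  · simp [hk]
  · simp [hk]

theorem rp_two_ne (g : Gr V E) (n : ℕ) [NeZero n] (u v : (E → Bool) → ℝ) (t s : ZMod n)
    (hts : t ≠ s) :
    stack g n (fun η => u (η t) * v (η s))
      = (opL g u * opL g (fun _ => 1) ^ ((s - t).val - 1) * opL g v
          * opL g (fun _ => 1) ^ (n - 1 - (s - t).val)).trace := by
  have h1 : (fun η : ZMod n → E → Bool => u (η t) * v (η s))
      = fun η => ∏ k, (fun x => if k = t then u x else if k = s then v x else 1 :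
          (E → Bool) → ℝ) (η k) := by
    funext η
    have h2 : ∀ k, (fun x => if k = t then u x else if k = s then v x else 1 :
          (E → Bool) → ℝ) (η k) = (if k = t then u (η k) else 1) * (if k = s then v (η k) else 1) := by
      intro k
      by_cases hk : k = t
      · have hks : k ≠ s := fun h => hts (hk ▸ h)
        simp [hk, hts]
      · simp [hk]
    simp only [h2]
    rw [Finset.prod_mul_distrib]
    simp
  rw [h1, rp_prod g n (fun k => (fun x => if k = t then u x else if k = s then v x else 1)),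
    ← cyc_two n _ _ _ t s hts]
  congr 1
  funext k
  by_cases hk : k = t
  · simp [hk]
  · by_cases hks : k = s
    · have hst : ¬ s = t := fun h => hts h.symm
      simp [hks, hst]
    · simp [hk, hks]

theorem rp_sign (n : ℕ) [NeZero n] (he : Even n) (t s : ZMod n) :
    ((-1 : ℝ) ^ t.val) * (-1) ^ s.val = (-1) ^ (s - t).val := by
  have hmod : ∀ k : ℕ, (-1 : ℝ) ^ (k % n) = (-1) ^ k := by
    intro k
    have h := Nat.div_add_mod k n
    conv_rhs => rw [← h]
    rw [pow_add, pow_mul]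
    rw [he.neg_one_pow, one_pow, one_mul]
  have h1 : s.val = ((s - t) + t).val := by rw [sub_add_cancel]
  have h2 : (-1 : ℝ) ^ s.val = (-1) ^ (s - t).val * (-1) ^ t.val := by
    rw [h1, ZMod.val_add, hmod, pow_add]
  rw [h2]
  have h3 : ((-1 : ℝ) ^ t.val) * (-1) ^ t.val = 1 := by
    rw [← mul_pow]
    norm_num
  calc (-1 : ℝ) ^ t.val * ((-1) ^ (s - t).val * (-1) ^ t.val)
      = ((-1 : ℝ) ^ t.val * (-1) ^ t.val) * (-1) ^ (s - t).val := by ring
    _ = _ := by rw [h3, one_mul]

/-- expansion of the second moment -/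
theorem rp_expand (g : Gr V E) (n : ℕ) [NeZero n] (he : Even n) (u : ZMod n → (E → Bool) → ℝ) :
    stack g n (fun η => (∑ t : ZMod n, (-1) ^ t.val * u t (η t)) ^ 2)
      = ∑ t, (opL g (fun η => u t η ^ 2) * opL g (fun _ => 1) ^ (n - 1)).trace
        + ∑ t, ∑ s, kerTr n (opL g (fun _ => 1)) (opL g (u t)) (opL g (u s)) (s - t) := by
  have h1 : (fun η : ZMod n → E → Bool => (∑ t : ZMod n, (-1 : ℝ) ^ t.val * u t (η t)) ^ 2)
      = fun η => ∑ p ∈ (univ ×ˢ univ : Finset (ZMod n × ZMod n)),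
        ((-1 : ℝ) ^ (p.2 - p.1).val) * (u p.1 (η p.1) * u p.2 (η p.2)) := by
    funext η
    rw [Finset.sum_product, sq, Finset.sum_mul_sum]
    refine Finset.sum_congr rfl (fun t _ => Finset.sum_congr rfl (fun s _ => ?_))
    rw [← rp_sign n he t s]
    ring
  rw [h1, rp_stack_sum, Finset.sum_product, ← Finset.sum_add_distrib]
  refine Finset.sum_congr rfl (fun t _ => ?_)
  have h2 : ∀ s, (-1 : ℝ) ^ (s - t).val * stack g n (fun η => u t (η t) * u s (η s))
      = (if s = t then (opL g (fun η => u t η ^ 2) * opL g (fun _ => 1) ^ (n - 1)).trace else 0)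
        + kerTr n (opL g (fun _ => 1)) (opL g (u t)) (opL g (u s)) (s - t) := by
    intro s
    by_cases hst : s = t
    · subst hst
      rw [rp_two_eq]
      simp [kerTr, sq]
    · have hne : s - t ≠ 0 := sub_ne_zero.mpr hst
      rw [rp_two_ne g n _ _ t s (Ne.symm hst)]
      simp [kerTr, hst, hne]
  simp only [h2]
  rw [Finset.sum_add_distrib]
  simp

theorem rp_linF_sub (w v : E → ℝ) (η : E → Bool) :
    linF (fun e => w e - v e) η = linF w η - linF v η := by
  unfold linF
  rw [← Finset.sum_sub_distrib]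
  refine Finset.sum_congr rfl (fun e _ => ?_)
  ring

theorem rp_opL_sub (g : Gr V E) (w v : E → ℝ) :
    opL g (linF (fun e => w e - v e)) = opL g (linF w) - opL g (linF v) := by
  ext a b
  simp only [opL, Matrix.sub_apply]
  rw [← Finset.sum_sub_distrib]
  refine Finset.sum_congr rfl (fun η _ => ?_)
  rw [rp_linF_sub]
  ring

theorem rp_dif (g : Gr V E) (n : ℕ) [NeZero n] (w : ZMod n → E → ℝ) (m : ℕ) (t : ZMod n) :
    (dif1^[m]) (fun t => opL g (linF (w t))) t = opL g (linF ((dif1^[m]) w t)) := by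
  induction m generalizing t with
  | zero => rfl
  | succ m ih =>
    rw [Function.iterate_succ_apply', Function.iterate_succ_apply']
    have h1 : (dif1^[m]) (fun t => opL g (linF (w t)))
        = fun t => opL g (linF ((dif1^[m]) w t)) := funext ih
    rw [h1]
    show opL g (linF ((dif1^[m]) w (t + 1))) - opL g (linF ((dif1^[m]) w t)) = _
    rw [← rp_opL_sub]
    rfl

theorem rp_dif_supp (n : ℕ) [NeZero n] (w : ZMod n → E → ℝ) (s : Finset E)
    (hs : ∀ t e, e ∉ s → w t e = 0) (m : ℕ) (t : ZMod n) (e : E) (he : e ∉ s) :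
    (dif1^[m]) w t e = 0 := by
  induction m generalizing t with
  | zero => exact hs t e he
  | succ m ih =>
    rw [Function.iterate_succ_apply']
    show ((dif1^[m]) w (t + 1) - (dif1^[m]) w t) e = 0
    simp [ih]

/-- the excess is controlled by the contact term -/
theorem rp_exc_le (g : Gr V E) (n : ℕ) [NeZero n] (he : Even n) (u : (E → Bool) → ℝ) :
    excTr n (opL g (fun _ => 1)) (opL g u)
      ≤ (opL g (fun η => u η ^ 2) * opL g (fun _ => 1) ^ (n - 1)).trace
        - mass n (opL g (fun _ => 1)) (opL g u) := by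
  have h0 : 0 ≤ stack g n (fun η => (∑ t : ZMod n, (-1) ^ t.val * u (η t)) ^ 2) :=
    rp_stack_nonneg g n _ (fun η => sq_nonneg _)
  rw [rp_expand g n he (fun _ => u)] at h0
  have h1 : ∀ t : ZMod n, ∑ s, kerTr n (opL g (fun _ => 1)) (opL g u) (opL g u) (s - t)
      = ∑ r, kerTr n (opL g (fun _ => 1)) (opL g u) (opL g u) r := by
    intro t
    exact Fintype.sum_equiv (Equiv.subRight t) _ _ (fun s => rfl)
  simp only [h1] at h0
  rw [Finset.sum_const, Finset.sum_const, ← nsmul_add] at h0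
  have hn : 0 < (univ : Finset (ZMod n)).card := by
    rw [Finset.card_univ, ZMod.card]
    exact Nat.pos_of_ne_zero (NeZero.ne n)
  rw [nsmul_eq_mul] at h0
  have h2 : 0 ≤ (opL g (fun η => u η ^ 2) * opL g (fun _ => 1) ^ (n - 1)).trace
      + ∑ r, kerTr n (opL g (fun _ => 1)) (opL g u) (opL g u) r := by
    by_contra hc
    push Not at hc
    have : ((univ : Finset (ZMod n)).card : ℝ) * ((opL g (fun η => u η ^ 2)
        * opL g (fun _ => 1) ^ (n - 1)).trace
      + ∑ r, kerTr n (opL g (fun _ => 1)) (opL g u) (opL g u) r) < 0 :=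
      mul_neg_of_pos_of_neg (by exact_mod_cast hn) hc
    linarith
  unfold excTr
  linarith

/-- the layered second moment inequality -/
theorem stack_ineq (g : Gr V E) (n : ℕ) [NeZero n] (hn : 4 ≤ n) (he : Even n)
    (w : ZMod n → E → ℝ) (m : ℕ) (s : Finset E) (hs : ∀ t e, e ∉ s → w t e = 0)
    [DecidableRel (share g)]
    (hK : ∀ v : E → ℝ, (∀ e, e ∉ s → v e = 0) →
      ∑ e, ∑ f, (if share g e f then |v e * v f| else 0) ≤ 3 * ∑ e, v e ^ 2) :
    stack g n (fun η => (∑ t : ZMod n, (-1) ^ t.val * linF (w t) (η t)) ^ 2)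
      ≤ ((15 / 2) * ∑ t, ∑ e, w t e ^ 2
          + n * s.card * (1 / 2) ^ m * ∑ t, ∑ e, ((dif1^[m]) w t e) ^ 2)
        * stack g n (fun _ => 1) := by
  have hZ : stack g n (fun _ => 1) = (opL g (fun _ => 1) ^ n).trace := by
    have h := rp_prod g n (fun _ _ => 1)
    simp only [Finset.prod_const_one] at h
    rw [h, cyc_const]
  rw [hZ, rp_expand g n he (fun t => linF (w t))]
  have h1 := spec_ineq n hn he (opL g (fun _ => 1)) (fun t => opL g (linF (w t)))
    (opL_symm g _) (fun t => opL_symm g _) m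
  set Z := (opL g (fun _ => 1) ^ n).trace with hZdef
  set S := opL g (fun _ => 1) with hSdef
  -- contact bound
  have h2 : ∀ t, (opL g (fun η => linF (w t) η ^ 2) * S ^ (n - 1)).trace
      - mass n S (opL g (linF (w t))) ≤ (1 + 3 / 2) * (∑ e, w t e ^ 2) * Z := by
    intro t
    exact comm_ineq g (w t) n hn he 3 (hK (w t) (fun e h => hs t e h))
  have h3 : ∀ t, excTr n S (opL g (linF (w t)))
      ≤ (opL g (fun η => linF (w t) η ^ 2) * S ^ (n - 1)).trace
        - mass n S (opL g (linF (w t))) := fun t => rp_exc_le g n he (linF (w t))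
  -- high frequency part
  have h4 : ∀ t, mass n S ((dif1^[m]) (fun t => opL g (linF (w t))) t)
      ≤ s.card * (∑ e, ((dif1^[m]) w t e) ^ 2) * Z := by
    intro t
    rw [rp_dif]
    have h5 := rp_exc_le g n he (linF ((dif1^[m]) w t))
    have h6 := excTr_nonneg n hn he S (opL g (linF ((dif1^[m]) w t))) (opL_symm g _)
      (opL_symm g _)
    have h7 := triv_ineq g ((dif1^[m]) w t) n hn he s (fun e h => rp_dif_supp n w s hs m t e h)
    rw [← hSdef] at h5 h7
    linarith
  have h8 : ∑ t, (opL g (fun η => linF (w t) η ^ 2) * S ^ (n - 1)).trace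
      + ∑ t, (-(mass n S (opL g (linF (w t)))) + 2 * excTr n S (opL g (linF (w t))))
      ≤ ∑ t, (15 / 2) * (∑ e, w t e ^ 2) * Z := by
    rw [← Finset.sum_add_distrib]
    refine Finset.sum_le_sum (fun t _ => ?_)
    have h9 := h2 t
    have h10 := h3 t
    linarith
  have h11 : (n : ℝ) * (1 / 2) ^ m * ∑ t, mass n S ((dif1^[m]) (fun t => opL g (linF (w t))) t)
      ≤ (n : ℝ) * (1 / 2) ^ m * ∑ t, s.card * (∑ e, ((dif1^[m]) w t e) ^ 2) * Z := by
    refine mul_le_mul_of_nonneg_left (Finset.sum_le_sum (fun t _ => h4 t)) ?_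
    positivity
  have h12 : ∑ t, (15 / 2) * (∑ e, w t e ^ 2) * Z = (15 / 2) * (∑ t, ∑ e, w t e ^ 2) * Z := by
    rw [Finset.mul_sum, Finset.sum_mul]
  have h13 : ∑ t, (s.card : ℝ) * (∑ e, ((dif1^[m]) w t e) ^ 2) * Z
      = (s.card : ℝ) * (∑ t, ∑ e, ((dif1^[m]) w t e) ^ 2) * Z := by
    rw [Finset.mul_sum, Finset.sum_mul]
  rw [h12] at h8
  rw [h13] at h11
  have h14 : ((15 / 2) * ∑ t, ∑ e, w t e ^ 2
          + n * s.card * (1 / 2) ^ m * ∑ t, ∑ e, ((dif1^[m]) w t e) ^ 2) * Z
      = (15 / 2) * (∑ t, ∑ e, w t e ^ 2) * Z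
        + (n : ℝ) * (1 / 2) ^ m * ((s.card : ℝ) * (∑ t, ∑ e, ((dif1^[m]) w t e) ^ 2) * Z) := by
    ring
  rw [h14]
  linarith

end LibDim
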