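import Mathlib

namespace LibDim

open Finset

/-- the kernel of the alternating sum -/
noncomputable def ker (n : ℕ) (x y : ℝ) (r : ZMod n) : ℝ :=
  if r = 0 then 0 else (-1) ^ r.val * x ^ (r.val - 1) * y ^ (n - 1 - r.val)

/-- the power sum -/
noncomputable def pw (n : ℕ) (x y : ℝ) : ℝ := x ^ (n - 2) + y ^ (n - 2)

/-- the excess `-(sum of the kernel) - pw/2` -/
noncomputable def exc (n : ℕ) [NeZero n] (x y : ℝ) : ℝ := -(∑ r : ZMod n, ker n x y r) - pw n x y / 2

/-- sums over the cycle -/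
theorem scalar_sum {R : Type*} [AddCommMonoid R] (n : ℕ) [NeZero n] (f : ℕ → R) :
    ∑ r : ZMod n, (if r = 0 then 0 else f r.val) = ∑ r ∈ range (n - 1), f (r + 1) := by
  obtain ⟨N, rfl⟩ : ∃ N, n = N + 1 := ⟨n - 1, by have := NeZero.ne n; omega⟩
  change ∑ r : Fin (N + 1), (if r = 0 then 0 else f r.val) = _
  rw [Fin.sum_univ_succ]
  simp only [if_true, zero_add, Nat.add_sub_cancel]
  rw [Finset.sum_range]
  refine Finset.sum_congr rfl (fun i _ => ?_)
  rw [if_neg (Fin.succ_ne_zero i)]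
  rfl

/-- telescoping -/
theorem scalar_geo {R : Type*} [CommRing R] (n : ℕ) (hn : 4 ≤ n) (he : Even n) (x y z : R)
    (hz : z ^ n = 1) :
    (y + z * x) * (∑ r ∈ range (n - 1), (-1) ^ (r + 1) * x ^ r * y ^ (n - 2 - r) * z ^ (r + 1))
      = -(z * y ^ (n - 1) + x ^ (n - 1)) := by
  have key : ∀ r ∈ range (n - 1),
      (y + z * x) * ((-1) ^ (r + 1) * x ^ r * y ^ (n - 2 - r) * z ^ (r + 1))
        = (fun r => (-1) ^ r * z ^ (r + 1) * x ^ r * y ^ (n - 1 - r)) (r + 1)
          - (fun r => (-1) ^ r * z ^ (r + 1) * x ^ r * y ^ (n - 1 - r)) r := by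
    intro r hr
    rw [mem_range] at hr
    have h1 : n - 1 - r = (n - 2 - r) + 1 := by omega
    have h2 : n - 1 - (r + 1) = n - 2 - r := by omega
    simp only [h1, h2]
    ring
  rw [Finset.mul_sum, Finset.sum_congr rfl key,
    Finset.sum_range_sub (fun r => (-1 : R) ^ r * z ^ (r + 1) * x ^ r * y ^ (n - 1 - r))]
  have h3 : n - 1 + 1 = n := by omega
  have h4 : (-1 : R) ^ (n - 1) = -1 := by
    have : Odd (n - 1) := by
      obtain ⟨k, hk⟩ := he
      exact ⟨k - 1, by omega⟩
    exact this.neg_one_pow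
  simp only [h3, hz, h4, Nat.sub_self, pow_zero, Nat.sub_zero, zero_add, pow_one]
  ring

theorem scalar_ker_sum (n : ℕ) [NeZero n] (x y : ℝ) :
    ∑ r : ZMod n, ker n x y r = ∑ r ∈ range (n - 1), (-1) ^ (r + 1) * x ^ r * y ^ (n - 2 - r) := by
  have h := scalar_sum n (fun r => (-1 : ℝ) ^ r * x ^ (r - 1) * y ^ (n - 1 - r))
  have h1 : ∑ r : ZMod n, ker n x y r = ∑ r : ZMod n, (if r = 0 then 0 else
      (fun r => (-1 : ℝ) ^ r * x ^ (r - 1) * y ^ (n - 1 - r)) r.val) := rfl
  rw [h1, h]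
  refine Finset.sum_congr rfl (fun r hr => ?_)
  have h2 : n - 1 - (r + 1) = n - 2 - r := by omega
  simp only [Nat.add_sub_cancel, h2]

theorem scalar_ker_sumC (n : ℕ) [NeZero n] (x y : ℝ) (z : ℂ) :
    ∑ r : ZMod n, (ker n x y r : ℂ) * z ^ r.val
      = ∑ r ∈ range (n - 1), (-1) ^ (r + 1) * (x : ℂ) ^ r * (y : ℂ) ^ (n - 2 - r) * z ^ (r + 1) := by
  have h := scalar_sum n (fun r => (-1 : ℂ) ^ r * (x : ℂ) ^ (r - 1) * (y : ℂ) ^ (n - 1 - r) * z ^ r)
  have h1 : ∑ r : ZMod n, (ker n x y r : ℂ) * z ^ r.val = ∑ r : ZMod n, (if r = 0 then 0 else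
      (fun r => (-1 : ℂ) ^ r * (x : ℂ) ^ (r - 1) * (y : ℂ) ^ (n - 1 - r) * z ^ r) r.val) := by
    refine Finset.sum_congr rfl (fun r _ => ?_)
    by_cases h0 : r = 0
    · simp [ker, h0]
    · simp [ker, h0]
  rw [h1, h]
  refine Finset.sum_congr rfl (fun r hr => ?_)
  have h2 : n - 1 - (r + 1) = n - 2 - r := by omega
  simp only [Nat.add_sub_cancel, h2]

theorem scalar_even2 (n : ℕ) (hn : 4 ≤ n) (he : Even n) : Even (n - 2) := by
  obtain ⟨k, hk⟩ := he
  exact ⟨k - 1, by omega⟩

theorem pw_nonneg (n : ℕ) (he : Even n) (hn : 4 ≤ n) (x y : ℝ) : 0 ≤ pw n x y := by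
  have h2 := scalar_even2 n hn he
  have h3 := h2.pow_nonneg x
  have h4 := h2.pow_nonneg y
  unfold pw
  linarith

/-- The symbol of the kernel at an `n`-th root of unity, multiplied out. -/
theorem ker_symbol (n : ℕ) [NeZero n] (hn : 4 ≤ n) (he : Even n) (x y : ℝ) (z : ℂ) (hz : z ^ n = 1) :
    ((y : ℂ) + z * x) * (∑ r : ZMod n, (ker n x y r : ℂ) * z ^ r.val)
      = -(z * (y : ℂ) ^ (n - 1) + (x : ℂ) ^ (n - 1)) := by
  rw [scalar_ker_sumC]
  exact scalar_geo n hn he (x : ℂ) (y : ℂ) z hz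

theorem scalar_geo_real (n : ℕ) [NeZero n] (hn : 4 ≤ n) (he : Even n) (x y : ℝ) :
    (y + x) * (∑ r : ZMod n, ker n x y r) = -(y ^ (n - 1) + x ^ (n - 1)) := by
  have h := scalar_geo n hn he x y 1 (one_pow n)
  simp only [one_mul, one_pow, mul_one] at h
  rw [scalar_ker_sum, h]

/-- `(x+y)^2 exc` -/
theorem scalar_exc_sq (n : ℕ) [NeZero n] (hn : 4 ≤ n) (he : Even n) (x y : ℝ) :
    (x + y) ^ 2 * exc n x y = (x ^ 2 - y ^ 2) * (x ^ (n - 2) - y ^ (n - 2)) / 2 := by
  have h := scalar_geo_real n hn he x y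
  have hx : x ^ (n - 1) = x * x ^ (n - 2) := by
    rw [← pow_succ']
    congr 1
    omega
  have hy : y ^ (n - 1) = y * y ^ (n - 2) := by
    rw [← pow_succ']
    congr 1
    omega
  rw [hx, hy] at h
  unfold exc pw
  linear_combination (-(x + y)) * h

theorem scalar_mono_pow (k : ℕ) (x y : ℝ) : 0 ≤ (x ^ 2 - y ^ 2) * (x ^ (2 * k) - y ^ (2 * k)) := by
  rw [pow_mul, pow_mul]
  rcases le_total (x ^ 2) (y ^ 2) with h | h
  · have h1 : (x ^ 2) ^ k ≤ (y ^ 2) ^ k := pow_le_pow_left₀ (sq_nonneg x) h k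
    nlinarith
  · have h1 : (y ^ 2) ^ k ≤ (x ^ 2) ^ k := pow_le_pow_left₀ (sq_nonneg y) h k
    nlinarith

theorem scalar_dlt_nonneg (n : ℕ) (hn : 4 ≤ n) (he : Even n) (x y : ℝ) :
    0 ≤ (x ^ 2 - y ^ 2) * (x ^ (n - 2) - y ^ (n - 2)) := by
  obtain ⟨k, hk⟩ := he
  have h : n - 2 = 2 * (k - 1) := by omega
  rw [h]
  exact scalar_mono_pow _ x y

theorem scalar_prod_nonneg (x y : ℝ) (h : 0 ≤ x * y) (p q : ℕ) (hpq : Even (p + q)) :
    0 ≤ x ^ p * y ^ q := by
  rcases le_total 0 x with hx | hx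
  · rcases le_total 0 y with hy | hy
    · positivity
    · rcases hx.eq_or_lt with h0 | h0
      · subst h0
        rcases Nat.eq_zero_or_pos p with hp | hp
        · subst hp
          have : Even q := by simpa using hpq
          have := this.pow_nonneg y
          simpa using this
        · rw [zero_pow hp.ne']
          simp
      · have hy0 : y = 0 := by nlinarith
        subst hy0
        rcases Nat.eq_zero_or_pos q with hq | hq
        · subst hq
          positivity
        · rw [zero_pow hq.ne']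
          simp
  · rcases le_total 0 y with hy | hy
    · rcases hy.eq_or_lt with h0 | h0
      · subst h0
        rcases Nat.eq_zero_or_pos q with hq | hq
        · subst hq
          have : Even p := by simpa using hpq
          have := this.pow_nonneg x
          simpa using this
        · rw [zero_pow hq.ne']
          simp
      · have hx0 : x = 0 := by nlinarith
        subst hx0
        rcases Nat.eq_zero_or_pos p with hp | hp
        · subst hp
          positivity
        · rw [zero_pow hp.ne']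
          simp
    · have h1 : x ^ p * y ^ q = (-x) ^ p * (-y) ^ q := by
        rw [neg_pow x, neg_pow y]
        have h2 : (-1 : ℝ) ^ p * (-1) ^ q = 1 := by
          rw [← pow_add]
          exact hpq.neg_one_pow
        calc x ^ p * y ^ q = ((-1 : ℝ) ^ p * (-1) ^ q) * (x ^ p * y ^ q) := by rw [h2, one_mul]
          _ = _ := by ring
      rw [h1]
      have h3 : 0 ≤ -x := by linarith
      have h4 : 0 ≤ -y := by linarith
      positivity

/-- lower bound of the excess when `x * y ≤ 0` -/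
theorem scalar_exc_neg (n : ℕ) [NeZero n] (hn : 4 ≤ n) (he : Even n) (x y : ℝ) (h : x * y ≤ 0) :
    pw n x y / 2 ≤ exc n x y := by
  have h1 : -(∑ r : ZMod n, ker n x y r) = ∑ r ∈ range (n - 1), (-x) ^ r * y ^ (n - 2 - r) := by
    rw [scalar_ker_sum, ← Finset.sum_neg_distrib]
    refine Finset.sum_congr rfl (fun r _ => ?_)
    rw [neg_pow x]
    ring
  have h2 : n - 1 = (n - 3) + 1 + 1 := by omega
  have h3 : 0 ≤ ∑ r ∈ range (n - 3), (-x) ^ (r + 1) * y ^ (n - 2 - (r + 1)) := by
    refine Finset.sum_nonneg (fun r hr => ?_)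
    rw [mem_range] at hr
    refine scalar_prod_nonneg _ _ (by nlinarith) _ _ ?_
    have : r + 1 + (n - 2 - (r + 1)) = n - 2 := by omega
    rw [this]
    exact scalar_even2 n hn he
  have h4 : n - 2 - (n - 3 + 1) = 0 := by omega
  have h5 : (-x) ^ (n - 3 + 1) = x ^ (n - 2) := by
    have : n - 3 + 1 = n - 2 := by omega
    rw [this]
    exact (scalar_even2 n hn he).neg_pow x
  unfold exc
  rw [h1, h2, Finset.sum_range_succ, Finset.sum_range_succ', h4, h5]
  unfold pw
  simp only [pow_zero, one_mul, mul_one, Nat.sub_zero]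
  linarith

/-- `exc` is nonnegative. -/
theorem exc_nonneg (n : ℕ) [NeZero n] (hn : 4 ≤ n) (he : Even n) (x y : ℝ) : 0 ≤ exc n x y := by
  rcases le_total (x * y) 0 with h | h
  · have h1 := scalar_exc_neg n hn he x y h
    have h2 := pw_nonneg n he hn x y
    linarith
  · by_cases h0 : x + y = 0
    · have hx : x * y ≤ 0 := by
        have : x = -y := by linarith
        rw [this]
        nlinarith [sq_nonneg y]
      have h1 := scalar_exc_neg n hn he x y hx
      have h2 := pw_nonneg n he hn x y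
      linarith
    · have h1 := scalar_exc_sq n hn he x y
      have h2 := scalar_dlt_nonneg n hn he x y
      have h3 : 0 < (x + y) ^ 2 := by positivity
      by_contra hc
      push Not at hc
      nlinarith [mul_pos h3 (neg_pos.mpr hc)]

theorem scalar_rearr (X Y : ℝ) (hX : 0 ≤ X) (hY : 0 ≤ Y) (p q : ℕ) :
    X ^ p * Y ^ q + X ^ q * Y ^ p ≤ X ^ (p + q) + Y ^ (p + q) := by
  rw [pow_add, pow_add]
  rcases le_total X Y with h | h
  · have h1 := pow_le_pow_left₀ hX h p
    have h2 := pow_le_pow_left₀ hX h q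
    nlinarith [mul_nonneg (sub_nonneg.mpr h1) (sub_nonneg.mpr h2)]
  · have h1 := pow_le_pow_left₀ hY h p
    have h2 := pow_le_pow_left₀ hY h q
    nlinarith [mul_nonneg (sub_nonneg.mpr h1) (sub_nonneg.mpr h2)]

theorem scalar_geo_bound (N : ℕ) (X Y : ℝ) (hX : 0 ≤ X) (hY : 0 ≤ Y) :
    ∑ r ∈ range (N + 1), X ^ r * Y ^ (N - r) ≤ (N + 1) * ((X ^ N + Y ^ N) / 2) := by
  have h1 : ∑ r ∈ range (N + 1), X ^ r * Y ^ (N - r)
      = ∑ r ∈ range (N + 1), X ^ (N - r) * Y ^ r := by
    rw [← Finset.sum_range_reflect]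
    refine Finset.sum_congr rfl (fun r hr => ?_)
    rw [mem_range] at hr
    have e1 : N + 1 - 1 - r = N - r := by omega
    have e2 : N - (N + 1 - 1 - r) = r := by omega
    rw [e2, e1]
  have h2 : ∑ r ∈ range (N + 1), (X ^ r * Y ^ (N - r) + X ^ (N - r) * Y ^ r)
      ≤ ∑ r ∈ range (N + 1), (X ^ N + Y ^ N) := by
    refine Finset.sum_le_sum (fun r hr => ?_)
    rw [mem_range] at hr
    have h3 := scalar_rearr X Y hX hY r (N - r)
    have e1 : r + (N - r) = N := by omega
    rw [e1] at h3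
    exact h3
  rw [Finset.sum_add_distrib, ← h1, Finset.sum_const, card_range, nsmul_eq_mul] at h2
  push_cast at h2
  linarith

/-- Trivial bound for the symbol. -/
theorem symbol_trivial (n : ℕ) [NeZero n] (hn : 4 ≤ n) (he : Even n) (x y : ℝ) (z : ℂ)
    (hz : ‖z‖ = 1) :
    (∑ r : ZMod n, (ker n x y r : ℂ) * z ^ r.val).re ≤ (n - 1 : ℝ) * (pw n x y / 2) := by
  rw [scalar_ker_sumC]
  have h1 := Complex.re_le_norm (∑ r ∈ range (n - 1),
    (-1) ^ (r + 1) * (x : ℂ) ^ r * (y : ℂ) ^ (n - 2 - r) * z ^ (r + 1))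
  have h2 := norm_sum_le (range (n - 1))
    (fun r => (-1) ^ (r + 1) * (x : ℂ) ^ r * (y : ℂ) ^ (n - 2 - r) * z ^ (r + 1))
  have h3 : ∑ r ∈ range (n - 1),
      ‖(-1) ^ (r + 1) * (x : ℂ) ^ r * (y : ℂ) ^ (n - 2 - r) * z ^ (r + 1)‖
      = ∑ r ∈ range (n - 1), |x| ^ r * |y| ^ (n - 2 - r) := by
    refine Finset.sum_congr rfl (fun r _ => ?_)
    simp [norm_pow, hz]
  have e : n - 1 = (n - 2) + 1 := by omega
  have h4 := scalar_geo_bound (n - 2) |x| |y| (abs_nonneg x) (abs_nonneg y)
  rw [← e] at h4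
  have h5 : |x| ^ (n - 2) = x ^ (n - 2) := (scalar_even2 n hn he).pow_abs x
  have h6 : |y| ^ (n - 2) = y ^ (n - 2) := (scalar_even2 n hn he).pow_abs y
  rw [h5, h6] at h4
  have h7 : ((n - 2 : ℕ) : ℝ) + 1 = n - 1 := by
    have : ((n - 2 : ℕ) : ℝ) = n - 2 := by
      push_cast [Nat.cast_sub (by omega : 2 ≤ n)]
      ring
    rw [this]
    ring
  rw [h7] at h4
  unfold pw
  rw [h3] at h2
  linarith

/-- comparison of `Dlt` and `P (x-y)^2 / 2` for `x * y ≥ 0` -/
theorem scalar_dlt_lower (k : ℕ) (x y : ℝ) (h : 0 ≤ x * y) :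
    (x ^ (2 * (k + 1)) + y ^ (2 * (k + 1))) * (x - y) ^ 2
      ≤ (x ^ 2 - y ^ 2) * (x ^ (2 * (k + 1)) - y ^ (2 * (k + 1))) := by
  have hx : 0 ≤ x ^ (2 * k) := (even_two_mul k).pow_nonneg x
  have hy : 0 ≤ y ^ (2 * k) := (even_two_mul k).pow_nonneg y
  have hm := scalar_mono_pow k x y
  have e1 : x ^ (2 * (k + 1)) = x ^ 2 * x ^ (2 * k) := by ring
  have e2 : y ^ (2 * (k + 1)) = y ^ 2 * y ^ (2 * k) := by ring
  rw [e1, e2]
  set A := x ^ (2 * k)
  set B := y ^ (2 * k)
  -- (x^2 - y^2)(x^2 A - y^2 B) - (x^2 A + y^2 B)(x-y)^2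
  have key : (x ^ 2 - y ^ 2) * (x ^ 2 * A - y ^ 2 * B) - (x ^ 2 * A + y ^ 2 * B) * (x - y) ^ 2
      = 2 * (x * y) * (x ^ 2 * A + y ^ 2 * B) - 2 * (x ^ 2 * y ^ 2) * (A + B) := by ring
  have key2 : 2 * (x * y) * (x ^ 2 * A + y ^ 2 * B) - 2 * (x ^ 2 * y ^ 2) * (A + B)
      = 2 * (x * y) * ((x - y) * (x * A - y * B)) := by ring
  have h3 : 0 ≤ (x - y) * (x * A - y * B) := by
    -- (x-y)(xA - yB) ; x, y of the same sign
    have h4 : (x - y) * (x * A - y * B)
        = (x - y) ^ 2 * ((A + B) / 2) + (x ^ 2 - y ^ 2) * (A - B) / 2 := by ring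
    rw [h4]
    have h5 : 0 ≤ (x - y) ^ 2 * ((A + B) / 2) := by positivity
    linarith
  have h6 : 0 ≤ 2 * (x * y) * ((x - y) * (x * A - y * B)) := by positivity
  linarith

/-- Main bound for the symbol in the right half plane. -/
theorem symbol_right (n : ℕ) [NeZero n] (hn : 4 ≤ n) (he : Even n) (x y : ℝ) (z : ℂ)
    (hz : z ^ n = 1) (hre : 0 ≤ z.re) :
    (∑ r : ZMod n, (ker n x y r : ℂ) * z ^ r.val).re ≤ - (pw n x y / 2) + 2 * exc n x y := by
  have hE := exc_nonneg n hn he x y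
  have hP := pw_nonneg n he hn x y
  have hnorm : ‖z‖ = 1 := Complex.norm_eq_one_of_pow_eq_one hz (by omega)
  have hcs : z.re ^ 2 + z.im ^ 2 = 1 := by
    have h := Complex.sq_norm z
    rw [hnorm, Complex.normSq_apply] at h
    linarith [h]
  have hsym := ker_symbol n hn he x y z hz
  set Kc := ∑ r : ZMod n, (ker n x y r : ℂ) * z ^ r.val with hKc
  set c := z.re with hc
  set s := z.im with hs
  have hre1 : (y + c * x) * Kc.re - (s * x) * Kc.im = -(c * y ^ (n - 1) + x ^ (n - 1)) := by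
    have h := congrArg Complex.re hsym
    have e1 : ((x : ℂ) ^ (n - 1)) = ((x ^ (n - 1) : ℝ) : ℂ) := by push_cast; rfl
    have e2 : ((y : ℂ) ^ (n - 1)) = ((y ^ (n - 1) : ℝ) : ℂ) := by push_cast; rfl
    rw [e1, e2] at h
    simp only [Complex.mul_re, Complex.add_re, Complex.add_im, Complex.mul_im, Complex.ofReal_re,
      Complex.ofReal_im, Complex.neg_re, mul_zero, sub_zero, add_zero, zero_add] at h
    rw [← hc, ← hs] at h
    linarith [h]
  have him1 : (y + c * x) * Kc.im + (s * x) * Kc.re = -(s * y ^ (n - 1)) := by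
    have h := congrArg Complex.im hsym
    have e1 : ((x : ℂ) ^ (n - 1)) = ((x ^ (n - 1) : ℝ) : ℂ) := by push_cast; rfl
    have e2 : ((y : ℂ) ^ (n - 1)) = ((y ^ (n - 1) : ℝ) : ℂ) := by push_cast; rfl
    rw [e1, e2] at h
    simp only [Complex.mul_re, Complex.add_re, Complex.add_im, Complex.mul_im, Complex.ofReal_re,
      Complex.ofReal_im, Complex.neg_im, mul_zero, sub_zero, add_zero, zero_add] at h
    rw [← hc, ← hs] at h
    linarith [h]
  have hx1 : x ^ (n - 1) = x * x ^ (n - 2) := by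
    rw [← pow_succ']
    congr 1
    omega
  have hy1 : y ^ (n - 1) = y * y ^ (n - 2) := by
    rw [← pow_succ']
    congr 1
    omega
  rw [hx1, hy1] at hre1
  rw [hy1] at him1
  have hden : (x ^ 2 + y ^ 2 + 2 * c * x * y) * Kc.re
      = -(c * (x ^ 2 * x ^ (n - 2) + y ^ 2 * y ^ (n - 2))
        + x * y * (x ^ (n - 2) + y ^ (n - 2))) := by
    have h1 : ((y + c * x) ^ 2 + (s * x) ^ 2) * Kc.re
        = (y + c * x) * (-(c * (y * y ^ (n - 2)) + x * x ^ (n - 2)))
          + (s * x) * (-(s * (y * y ^ (n - 2)))) := by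
      linear_combination (y + c * x) * hre1 + (s * x) * him1
    have h2 : (y + c * x) ^ 2 + (s * x) ^ 2 = x ^ 2 + y ^ 2 + 2 * c * x * y := by
      linear_combination x ^ 2 * hcs
    rw [h2] at h1
    rw [h1]
    linear_combination (-(x * (y * y ^ (n - 2)))) * hcs
  have hEsq := scalar_exc_sq n hn he x y
  have hD := scalar_dlt_nonneg n hn he x y
  have hexc : pw n x y = x ^ (n - 2) + y ^ (n - 2) := rfl
  by_cases hc1 : c = 1
  · -- z = 1
    have hs0 : s = 0 := by nlinarith
    have hz1 : z = 1 := by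
      apply Complex.ext
      · simpa using hc1
      · simpa using hs0
    have hK : Kc.re = - exc n x y - pw n x y / 2 := by
      rw [hKc, hz1]
      simp only [one_pow, mul_one]
      rw [← Complex.ofReal_sum, Complex.ofReal_re]
      unfold exc
      ring
    rw [hK]
    linarith
  · have hclt : c < 1 := by
      have : c ≤ 1 := by nlinarith [sq_nonneg s]
      exact lt_of_le_of_ne this hc1
    by_cases hxy0 : x = 0 ∧ y = 0
    · obtain ⟨hx0, hy0⟩ := hxy0
      have hK0 : Kc = 0 := by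
        rw [hKc]
        rw [scalar_ker_sumC, hx0, hy0]
        refine Finset.sum_eq_zero (fun r hr => ?_)
        rcases Nat.eq_zero_or_pos r with h | h
        · subst h
          have : n - 2 ≠ 0 := by omega
          simp [this]
        · simp [h.ne']
      rw [hK0, hexc, hx0, hy0]
      have : n - 2 ≠ 0 := by omega
      simp only [Complex.zero_re, zero_pow this, add_zero, zero_div, neg_zero, zero_add]
      have := exc_nonneg n hn he 0 0
      linarith
    · have hpos : 0 < x ^ 2 + y ^ 2 + 2 * c * x * y := by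
        have h1 : x ^ 2 + y ^ 2 + 2 * c * x * y = c * (x + y) ^ 2 + (1 - c) * (x ^ 2 + y ^ 2) := by
          ring
        have h2 : 0 < x ^ 2 + y ^ 2 := by
          rcases not_and_or.mp hxy0 with h | h
          · positivity
          · positivity
        have h3 : 0 < (1 - c) * (x ^ 2 + y ^ 2) := mul_pos (by linarith) h2
        have h4 : 0 ≤ c * (x + y) ^ 2 := by positivity
        linarith
      set a := x ^ (n - 2) with ha
      set b := y ^ (n - 2) with hb
      have hPab : pw n x y = a + b := rfl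
      have hgoal : (x ^ 2 + y ^ 2 + 2 * c * x * y) * (Kc.re + pw n x y / 2)
          ≤ (x ^ 2 + y ^ 2 + 2 * c * x * y) * (2 * exc n x y) := by
        have h1 : (x ^ 2 + y ^ 2 + 2 * c * x * y) * (Kc.re + pw n x y / 2)
            = (1 - c) * ((a + b) * (x - y) ^ 2) / 2 - c * ((x ^ 2 - y ^ 2) * (a - b) / 2) := by
          rw [mul_add, hden, hPab]
          ring
        rw [h1]
        rcases le_total (x * y) 0 with hxy | hxy
        · have h2 := scalar_exc_neg n hn he x y hxy
          rw [hPab] at h2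
          have h3 : 0 ≤ c * ((x ^ 2 - y ^ 2) * (a - b) / 2) := by
            have : 0 ≤ (x ^ 2 - y ^ 2) * (a - b) / 2 := by linarith
            positivity
          have h4 : (1 - c) * ((a + b) * (x - y) ^ 2) / 2
              ≤ (1 - c) * (exc n x y * (x - y) ^ 2) := by
            have h5 : (a + b) / 2 * (x - y) ^ 2 ≤ exc n x y * (x - y) ^ 2 :=
              mul_le_mul_of_nonneg_right h2 (sq_nonneg _)
            have h6 := mul_le_mul_of_nonneg_left h5 (by linarith : (0:ℝ) ≤ 1 - c)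
            linarith
          have h7 : (1 - c) * (exc n x y * (x - y) ^ 2)
              ≤ (x ^ 2 + y ^ 2 + 2 * c * x * y) * (2 * exc n x y) := by
            have h8 : (1 - c) * (x - y) ^ 2 ≤ 2 * (x ^ 2 + y ^ 2 + 2 * c * x * y) := by
              have e : 2 * (x ^ 2 + y ^ 2 + 2 * c * x * y) - (1 - c) * (x - y) ^ 2
                  = (1 + c) * (x + y) ^ 2 := by ring
              have : 0 ≤ (1 + c) * (x + y) ^ 2 := by
                have : 0 ≤ 1 + c := by linarith
                positivity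
              linarith
            have h9 := mul_le_mul_of_nonneg_right h8 hE
            linarith
          linarith
        · obtain ⟨k, hk⟩ := he
          have hn2 : n - 2 = 2 * ((k - 2) + 1) := by omega
          have h2 := scalar_dlt_lower (k - 2) x y hxy
          rw [← hn2, ← ha, ← hb] at h2
          have h3 : (1 - c) * ((a + b) * (x - y) ^ 2) / 2
              ≤ (1 - c) * ((x ^ 2 - y ^ 2) * (a - b)) / 2 := by
            have := mul_le_mul_of_nonneg_left h2 (by linarith : (0:ℝ) ≤ 1 - c)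
            linarith
          have h4 : (x + y) ^ 2 * exc n x y ≤ (x ^ 2 + y ^ 2 + 2 * c * x * y) * (2 * exc n x y) := by
            have h5 : (x + y) ^ 2 ≤ 2 * (x ^ 2 + y ^ 2 + 2 * c * x * y) := by
              have e : 2 * (x ^ 2 + y ^ 2 + 2 * c * x * y) - (x + y) ^ 2
                  = (x - y) ^ 2 + 4 * (c * (x * y)) := by ring
              have : 0 ≤ c * (x * y) := mul_nonneg hre hxy
              nlinarith [sq_nonneg (x - y)]
            have := mul_le_mul_of_nonneg_right h5 hE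
            linarith
          have h6 : 0 ≤ c * ((x ^ 2 - y ^ 2) * (a - b)) := mul_nonneg hre hD
          rw [hEsq] at h4
          linarith
      have h2 := le_of_mul_le_mul_left hgoal hpos
      linarith

end LibDim
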