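import Pool.Agent.LibDim.Defs
import Pool.Agent.LibDim.Rp

namespace LibDim

open Finset

theorem splitA_one_ne {n : ℕ} (hn : 4 ≤ n) : (1 : ZMod n) ≠ 0 := by
  intro h
  have h1 : ((1 : ℕ) : ZMod n) = 0 := by simpa using h
  rw [ZMod.natCast_eq_zero_iff] at h1
  have := Nat.le_of_dvd (by norm_num) h1
  omega

theorem splitA_two_ne {n : ℕ} (hn : 4 ≤ n) : (1 : ZMod n) + 1 ≠ 0 := by
  intro h
  have h1 : ((2 : ℕ) : ZMod n) = 0 := by
    rw [← h]; norm_num
  rw [ZMod.natCast_eq_zero_iff] at h1
  have := Nat.le_of_dvd (by norm_num) h1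
  omega

theorem splitA_stp_ne {d n : ℕ} (hn : 4 ≤ n) (i : Fin d) : (stp i : Vtx d n) ≠ 0 := by
  intro h
  have h1 := congrFun h i
  simp only [stp, Pi.single_eq_same, Pi.zero_apply] at h1
  exact splitA_one_ne hn h1

theorem splitA_stp_inj {d n : ℕ} (hn : 4 ≤ n) {i k : Fin d} (h : (stp i : Vtx d n) = stp k) :
    i = k := by
  by_contra hik
  have h1 := congrFun h i
  simp only [stp, Pi.single_eq_same, Pi.single_eq_of_ne hik] at h1
  exact splitA_one_ne hn h1

theorem splitA_stp_neg {d n : ℕ} (hn : 4 ≤ n) (i k : Fin d) : (stp i : Vtx d n) ≠ -stp k := by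
  intro h
  have h1 := congrFun h i
  by_cases hik : i = k
  · subst hik
    simp only [stp, Pi.single_eq_same, Pi.neg_apply] at h1
    exact splitA_two_ne hn (by rw [eq_neg_iff_add_eq_zero] at h1; exact h1)
  · simp only [stp, Pi.single_eq_same, Pi.neg_apply, Pi.single_eq_of_ne hik, neg_zero] at h1
    exact splitA_one_ne hn h1

/-- the layer graph: vertices `Fin d → ZMod n`, edges `(y, i)` from `y` to `y + e_i` -/
def layG (d n : ℕ) (hn : 4 ≤ n) : Gr (Vtx d n) (Vtx d n × Fin d) where
  src := fun e => e.1
  tgt := fun e => e.1 + stp e.2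
  ne := by
    intro e h
    exact splitA_stp_ne hn e.2 (by simpa using h.symm)

/-- edge configurations covering every vertex exactly once -/
def Cov {d n : ℕ} (E : Vtx d n → Fin d → Bool) : Prop :=
  ∀ x, ∑ i, ((E x i).toNat + (E (x - stp i) i).toNat) = 1

/-- edge configuration of a partner map -/
def edg {d n : ℕ} (τ : Vtx d n → Vtx d n) : Vtx d n → Fin d → Bool :=
  fun x i => decide (τ x = x + stp i)

theorem splitA_bool {b : Bool} (h : b = true) : b.toNat = 1 := by rw [h]; rfl

theorem splitA_uniq {D : ℕ} (f g : Fin D → Bool) (h : ∑ i, ((f i).toNat + (g i).toNat) = 1) :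
    (∀ i k, f i = true → f k = true → i = k) ∧ (∀ i k, g i = true → g k = true → i = k) ∧
      (∀ i k, f i = true → g k = true → False) := by
  have two : ∀ i k, i ≠ k → ((f i).toNat + (g i).toNat) + ((f k).toNat + (g k).toNat) ≤ 1 := by
    intro i k hik
    rw [← h]
    have : ({i, k} : Finset (Fin D)) ⊆ univ := subset_univ _
    have h2 := Finset.sum_le_sum_of_subset (f := fun i => (f i).toNat + (g i).toNat) this
    rw [Finset.sum_pair hik] at h2
    exact h2
  have one : ∀ i, (f i).toNat + (g i).toNat ≤ 1 := by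
    intro i
    rw [← h]
    exact Finset.single_le_sum (f := fun i => (f i).toNat + (g i).toNat)
      (fun _ _ => Nat.zero_le _) (mem_univ i)
  refine ⟨fun i k hi hk => ?_, fun i k hi hk => ?_, fun i k hi hk => ?_⟩
  · by_contra hik
    have := two i k hik
    rw [splitA_bool hi, splitA_bool hk] at this
    omega
  · by_contra hik
    have := two i k hik
    rw [splitA_bool hi, splitA_bool hk] at this
    omega
  · by_cases hik : i = k
    · subst hik
      have := one i
      rw [splitA_bool hi, splitA_bool hk] at this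
      omega
    · have := two i k hik
      rw [splitA_bool hi, splitA_bool hk] at this
      omega

theorem splitA_exists {D : ℕ} (f g : Fin D → Bool) (h : ∑ i, ((f i).toNat + (g i).toNat) = 1) :
    (∃ i, f i = true) ∨ (∃ i, g i = true) := by
  by_contra hc
  push Not at hc
  have : ∑ i, ((f i).toNat + (g i).toNat) = 0 := by
    refine Finset.sum_eq_zero fun i _ => ?_
    have h1 : f i = false := by simpa using hc.1 i
    have h2 : g i = false := by simpa using hc.2 i
    rw [h1, h2]
    rfl
  omega

theorem splitA_sum {D : ℕ} (f g : Fin D → Bool)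
    (hex : (∃ i, f i = true) ∨ (∃ i, g i = true))
    (hf : ∀ i k, f i = true → f k = true → i = k)
    (hg : ∀ i k, g i = true → g k = true → i = k)
    (hfg : ∀ i k, f i = true → g k = true → False) :
    ∑ i, ((f i).toNat + (g i).toNat) = 1 := by
  rcases hex with ⟨i, hi⟩ | ⟨i, hi⟩
  · rw [Finset.sum_eq_single i]
    · have : g i = false := by
        by_contra hc
        exact hfg i i hi (by simpa using hc)
      rw [hi, this]; rfl
    · intro k _ hk
      have h1 : f k = false := by
        by_contra hc
        exact hk (hf k i (by simpa using hc) hi)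
      have h2 : g k = false := by
        by_contra hc
        exact hfg i k hi (by simpa using hc)
      rw [h1, h2]; rfl
    · intro h; exact absurd (mem_univ i) h
  · rw [Finset.sum_eq_single i]
    · have : f i = false := by
        by_contra hc
        exact hfg i i (by simpa using hc) hi
      rw [hi, this]; rfl
    · intro k _ hk
      have h1 : g k = false := by
        by_contra hc
        exact hk (hg k i (by simpa using hc) hi)
      have h2 : f k = false := by
        by_contra hc
        exact hfg k i (by simpa using hc) hi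
      rw [h1, h2]; rfl
    · intro h; exact absurd (mem_univ i) h

/-- the two ends of a matching edge -/
theorem splitA_back {d n : ℕ} {τ : Vtx d n → Vtx d n} (hτ : IsPM τ) (x : Vtx d n) (i : Fin d) :
    τ (x - stp i) = x - stp i + stp i ↔ τ x = x - stp i := by
  constructor
  · intro h
    rw [sub_add_cancel] at h
    have := hτ.1 (x - stp i)
    rw [h] at this
    exact this
  · intro h
    rw [sub_add_cancel, ← h]
    exact hτ.1 x

theorem splitA_cov {d n : ℕ} (hn : 4 ≤ n) {τ : Vtx d n → Vtx d n} (hτ : IsPM τ) :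
    Cov (edg τ) := by
  intro x
  refine splitA_sum _ _ ?_ ?_ ?_ ?_
  · obtain ⟨i, hi | hi⟩ := hτ.2 x
    · exact Or.inl ⟨i, by simp [edg, hi]⟩
    · refine Or.inr ⟨i, ?_⟩
      simp only [edg, decide_eq_true_eq]
      exact (splitA_back hτ x i).2 hi
  · intro i k hi hk
    simp only [edg, decide_eq_true_eq] at hi hk
    rw [hi] at hk
    exact splitA_stp_inj hn (add_left_cancel hk)
  · intro i k hi hk
    simp only [edg, decide_eq_true_eq] at hi hk
    rw [splitA_back hτ] at hi hk
    rw [hi] at hk
    exact splitA_stp_inj hn (sub_right_injective hk)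
  · intro i k hi hk
    simp only [edg, decide_eq_true_eq] at hi hk
    rw [splitA_back hτ] at hk
    rw [hi, sub_eq_add_neg] at hk
    exact splitA_stp_neg hn i k (add_left_cancel hk)

theorem splitA_inj {d n : ℕ} {τ σ : Vtx d n → Vtx d n} (hτ : IsPM τ) (hσ : IsPM σ)
    (h : edg τ = edg σ) : τ = σ := by
  funext x
  obtain ⟨i, hi | hi⟩ := hτ.2 x
  · have h1 : edg τ x i = true := by simp [edg, hi]
    rw [h] at h1
    simp only [edg, decide_eq_true_eq] at h1
    rw [hi, h1]
  · have h1 : edg τ (x - stp i) i = true := by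
      simp only [edg, decide_eq_true_eq]
      exact (splitA_back hτ x i).2 hi
    rw [h] at h1
    simp only [edg, decide_eq_true_eq] at h1
    rw [splitA_back hσ] at h1
    rw [hi, h1]

open Classical in
/-- partner map of an edge configuration -/
noncomputable def prt {d n : ℕ} (E : Vtx d n → Fin d → Bool) (x : Vtx d n) : Vtx d n :=
  if h : ∃ i, E x i = true then x + stp h.choose
  else if h : ∃ i, E (x - stp i) i = true then x - stp h.choose else x

theorem splitA_prt1 {d n : ℕ} {E : Vtx d n → Fin d → Bool} (hE : Cov E) {x : Vtx d n} {i : Fin d}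
    (h : E x i = true) : prt E x = x + stp i := by
  have hex : ∃ i, E x i = true := ⟨i, h⟩
  unfold prt
  rw [dif_pos hex, (splitA_uniq _ _ (hE x)).1 _ i hex.choose_spec h]

theorem splitA_prt2 {d n : ℕ} {E : Vtx d n → Fin d → Bool} (hE : Cov E) {x : Vtx d n} {i : Fin d}
    (h : E (x - stp i) i = true) : prt E x = x - stp i := by
  have hex : ∃ i, E (x - stp i) i = true := ⟨i, h⟩
  have hne : ¬ ∃ i, E x i = true := by
    rintro ⟨k, hk⟩
    exact (splitA_uniq _ _ (hE x)).2.2 k i hk h
  unfold prt
  rw [dif_neg hne, dif_pos hex, (splitA_uniq _ _ (hE x)).2.1 _ i hex.choose_spec h]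

theorem splitA_prt_pm {d n : ℕ} {E : Vtx d n → Fin d → Bool} (hE : Cov E) : IsPM (prt E) := by
  constructor
  · intro x
    rcases splitA_exists _ _ (hE x) with ⟨i, hi⟩ | ⟨i, hi⟩
    · rw [splitA_prt1 hE hi]
      have : E (x + stp i - stp i) i = true := by rw [add_sub_cancel_right]; exact hi
      rw [splitA_prt2 hE this, add_sub_cancel_right]
    · rw [splitA_prt2 hE hi, splitA_prt1 hE hi, sub_add_cancel]
  · intro x
    rcases splitA_exists _ _ (hE x) with ⟨i, hi⟩ | ⟨i, hi⟩
    · exact ⟨i, Or.inl (splitA_prt1 hE hi)⟩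
    · exact ⟨i, Or.inr (splitA_prt2 hE hi)⟩

theorem splitA_edg_prt {d n : ℕ} (hn : 4 ≤ n) {E : Vtx d n → Fin d → Bool} (hE : Cov E) :
    edg (prt E) = E := by
  funext x i
  by_cases h : E x i = true
  · rw [h]
    simp only [edg, decide_eq_true_eq]
    exact splitA_prt1 hE h
  · have h' : E x i = false := by simpa using h
    rw [h']
    simp only [edg, decide_eq_false_iff_not]
    intro hc
    rcases splitA_exists _ _ (hE x) with ⟨k, hk⟩ | ⟨k, hk⟩
    · rw [splitA_prt1 hE hk] at hc
      have := splitA_stp_inj hn (add_left_cancel hc)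
      subst this
      exact h hk
    · rw [splitA_prt2 hE hk, sub_eq_add_neg] at hc
      exact splitA_stp_neg hn i k (add_left_cancel hc).symm

open Classical in
theorem splitA_sum_pm {d n : ℕ} [NeZero n] (hn : 4 ≤ n) (G : (Vtx d n → Fin d → Bool) → ℝ) :
    ∑ τ ∈ PMs d n, G (edg τ) = ∑ E ∈ univ.filter Cov, G E := by
  refine Finset.sum_bij (fun τ _ => edg τ) ?_ ?_ ?_ ?_
  · intro τ hτ
    simp only [PMs, mem_filter, mem_univ, true_and] at hτ ⊢
    exact splitA_cov hn hτ
  · intro τ hτ σ hσ h
    simp only [PMs, mem_filter, mem_univ, true_and] at hτ hσ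
    exact splitA_inj hτ hσ h
  · intro E hE
    simp only [mem_filter, mem_univ, true_and] at hE
    refine ⟨prt E, ?_, splitA_edg_prt hn hE⟩
    simp only [PMs, mem_filter, mem_univ, true_and]
    exact splitA_prt_pm hE
  · intro τ _
    rfl

/-- vertex of the torus from its layer and the position in the layer -/
def insV {d n : ℕ} (j : Fin (d + 1)) (t : ZMod n) (y : Vtx d n) : Vtx (d + 1) n :=
  j.insertNth (α := fun _ => ZMod n) t y

theorem insV_same {d n : ℕ} (j : Fin (d + 1)) (t : ZMod n) (y : Vtx d n) : insV j t y j = t := by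
  simp [insV]

theorem insV_succ {d n : ℕ} (j : Fin (d + 1)) (t : ZMod n) (y : Vtx d n) (k : Fin d) :
    insV j t y (j.succAbove k) = y k := by
  simp [insV]

theorem insV_ext {d n : ℕ} (j : Fin (d + 1)) {x x' : Vtx (d + 1) n} (h1 : x j = x' j)
    (h2 : ∀ k, x (j.succAbove k) = x' (j.succAbove k)) : x = x' := by
  funext i
  rcases Fin.eq_self_or_eq_succAbove j i with rfl | ⟨k, rfl⟩
  · exact h1
  · exact h2 k

theorem insV_sub {d n : ℕ} (j : Fin (d + 1)) (t : ZMod n) (y : Vtx d n) :
    insV j t y - stp j = insV j (t - 1) y := by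
  refine insV_ext j ?_ fun k => ?_
  · rw [Pi.sub_apply, insV_same, insV_same, stp, Pi.single_eq_same]
  · rw [Pi.sub_apply, insV_succ, insV_succ, stp, Pi.single_eq_of_ne (Fin.succAbove_ne j k),
      sub_zero]

theorem insV_sub' {d n : ℕ} (j : Fin (d + 1)) (t : ZMod n) (y : Vtx d n) (k : Fin d) :
    insV j t y - stp (j.succAbove k) = insV j t (y - stp k) := by
  refine insV_ext j ?_ fun l => ?_
  · rw [Pi.sub_apply, insV_same, insV_same, stp, Pi.single_eq_of_ne (Fin.succAbove_ne j k).symm,
      sub_zero]
  · rw [Pi.sub_apply, insV_succ, insV_succ, Pi.sub_apply, stp, stp]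
    by_cases hlk : l = k
    · subst hlk
      rw [Pi.single_eq_same, Pi.single_eq_same]
    · rw [Pi.single_eq_of_ne hlk, Pi.single_eq_of_ne]
      intro h
      exact hlk (Fin.succAbove_right_injective h)

theorem insV_self {d n : ℕ} (j : Fin (d + 1)) (x : Vtx (d + 1) n) :
    insV j (x j) (fun k => x (j.succAbove k)) = x := by
  refine insV_ext j ?_ fun k => ?_
  · rw [insV_same]
  · rw [insV_succ]

/-- edge configurations of the torus are stacks of layers -/
def eqvL {d n : ℕ} (j : Fin (d + 1)) : (Vtx (d + 1) n → Fin (d + 1) → Bool) ≃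
    (ZMod n → Vtx d n → Bool) × (ZMod n → Vtx d n × Fin d → Bool) where
  toFun E := (fun t y => E (insV j (t - 1) y) j, fun t e => E (insV j t e.1) (j.succAbove e.2))
  invFun p := fun x => j.insertNth (α := fun _ => Bool) (p.1 (x j + 1) (fun k => x (j.succAbove k)))
    (fun k => p.2 (x j) (fun k => x (j.succAbove k), k))
  left_inv := by
    intro E
    funext x i
    rcases Fin.eq_self_or_eq_succAbove j i with rfl | ⟨k, rfl⟩
    · simp only [Fin.insertNth_apply_same, add_sub_cancel_right]
      rw [insV_self]
    · simp only [Fin.insertNth_apply_succAbove]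
      rw [insV_self]
  right_inv := by
    rintro ⟨a, η⟩
    refine Prod.ext ?_ ?_
    · funext t y
      simp only [Fin.insertNth_apply_same, insV_same, insV_succ, sub_add_cancel]
    · funext t e
      simp only [Fin.insertNth_apply_succAbove, insV_same, insV_succ]

theorem splitA_okL {d n : ℕ} [NeZero n] (hn : 4 ≤ n) (j : Fin (d + 1))
    (E : Vtx (d + 1) n → Fin (d + 1) → Bool) (t : ZMod n) (y : Vtx d n) :
    ((((eqvL j E).1 t y).toNat + ((eqvL j E).1 (t + 1) y).toNat
      + ∑ e, (if (layG d n hn).src e = y ∨ (layG d n hn).tgt e = y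
          then ((eqvL j E).2 t e).toNat else 0) = 1))
      ↔ ∑ i, ((E (insV j t y) i).toNat + (E (insV j t y - stp i) i).toNat) = 1 := by
  have key : ((eqvL j E).1 t y).toNat + ((eqvL j E).1 (t + 1) y).toNat
      + ∑ e, (if (layG d n hn).src e = y ∨ (layG d n hn).tgt e = y
          then ((eqvL j E).2 t e).toNat else 0)
      = ∑ i, ((E (insV j t y) i).toNat + (E (insV j t y - stp i) i).toNat) := by
    rw [Fin.sum_univ_succAbove _ j]
    have e1 : (eqvL j E).1 t y = E (insV j t y - stp j) j := by
      rw [insV_sub]; rfl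
    have e2 : (eqvL j E).1 (t + 1) y = E (insV j t y) j := by
      show E (insV j (t + 1 - 1) y) j = _
      rw [add_sub_cancel_right]
    have e3 : ∑ e, (if (layG d n hn).src e = y ∨ (layG d n hn).tgt e = y
          then ((eqvL j E).2 t e).toNat else 0)
        = ∑ k : Fin d, ((E (insV j t y) (j.succAbove k)).toNat
          + (E (insV j t y - stp (j.succAbove k)) (j.succAbove k)).toNat) := by
      rw [Fintype.sum_prod_type_right]
      refine Finset.sum_congr rfl fun k _ => ?_
      have h1 : ∀ y' : Vtx d n, (if (layG d n hn).src (y', k) = y ∨ (layG d n hn).tgt (y', k) = y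
          then ((eqvL j E).2 t (y', k)).toNat else 0)
          = (if y' = y then (E (insV j t y') (j.succAbove k)).toNat else 0)
            + (if y' = y - stp k then (E (insV j t y') (j.succAbove k)).toNat else 0) := by
        intro y'
        have hs : (layG d n hn).src (y', k) = y' := rfl
        have ht : (layG d n hn).tgt (y', k) = y' + stp k := rfl
        have hE : (eqvL j E).2 t (y', k) = E (insV j t y') (j.succAbove k) := rfl
        rw [hs, ht, hE]
        have hiff : y' + stp k = y ↔ y' = y - stp k := eq_sub_iff_add_eq.symm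
        by_cases ha : y' = y
        · have hb : ¬ y' = y - stp k := by
            rw [ha]
            intro h
            exact splitA_stp_ne hn k (by
              have := sub_eq_self.1 h.symm
              exact this)
          rw [if_pos (Or.inl ha), if_pos ha, if_neg hb, add_zero]
        · by_cases hb : y' = y - stp k
          · rw [if_pos (Or.inr (hiff.2 hb)), if_neg ha, if_pos hb, zero_add]
          · rw [if_neg (by rw [not_or]; exact ⟨ha, fun h => hb (hiff.1 h)⟩), if_neg ha,
              if_neg hb]
      rw [Finset.sum_congr rfl fun y' _ => h1 y', Finset.sum_add_distrib, Finset.sum_ite_eq',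
        Finset.sum_ite_eq', if_pos (mem_univ _), if_pos (mem_univ _), insV_sub']
    rw [e1, e2, e3]
    omega
  rw [key]

/-- Sums over perfect matchings of functions of the edges inside the layers `x_j = t` are stack
sums. -/
theorem pm_stack (d n : ℕ) [NeZero n] (hn : 4 ≤ n) (j : Fin (d + 1))
    (F : (ZMod n → (Vtx d n × Fin d) → Bool) → ℝ) :
    ∑ τ ∈ PMs (d + 1) n, F (fun t e => decide (τ (j.insertNth t e.1)
        = j.insertNth t e.1 + stp (j.succAbove e.2)))
      = stack (layG d n hn) n F := by
  classical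
  have h1 : ∑ τ ∈ PMs (d + 1) n, F (fun t e => decide (τ (j.insertNth t e.1)
        = j.insertNth t e.1 + stp (j.succAbove e.2)))
      = ∑ τ ∈ PMs (d + 1) n, F ((eqvL j (edg τ)).2) := by
    refine Finset.sum_congr rfl fun τ _ => ?_
    rfl
  rw [h1, splitA_sum_pm hn (fun E => F ((eqvL j E).2)), Finset.sum_filter]
  unfold stack
  rw [← Fintype.sum_prod_type' (f := fun (a : ZMod n → Vtx d n → Bool)
    (η : ZMod n → Vtx d n × Fin d → Bool) =>
      (∏ t : ZMod n, wgt (layG d n hn) (a t) (η t) (a (t + 1))) * F η)]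
  refine Fintype.sum_equiv (eqvL j) _ _ fun E => ?_
  have h2 : (∏ t : ZMod n, wgt (layG d n hn) ((eqvL j E).1 t) ((eqvL j E).2 t)
      ((eqvL j E).1 (t + 1))) = if Cov E then 1 else 0 := by
    unfold wgt
    rw [Fintype.prod_boole]
    congr 1
    rw [eq_iff_iff]
    constructor
    · intro h x
      have h3 := h (x j) (fun k => x (j.succAbove k))
      rw [splitA_okL hn j E, insV_self] at h3
      exact h3
    · intro h t y
      rw [splitA_okL hn j E]
      exact h _
  simp only [h2]
  split_ifs <;> simp

end LibDim
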