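import Pool.Agent.LibDim.SplitA

namespace LibDim

open Finset

/-- sign of a vertex splits -/
theorem splitB_sgn (d n : ℕ) [NeZero n] (j : Fin (d + 1)) (t : ZMod n) (y : Vtx d n) :
    sgnV (d := d + 1) (n := n) (j.insertNth t y) = (-1) ^ t.val * (-1) ^ (∑ l, (y l).val) := by
  unfold sgnV
  rw [← pow_add, Fin.sum_univ_succAbove _ j]
  simp only [Fin.insertNth_apply_same, Fin.insertNth_apply_succAbove]

/-- sum over the torus is a sum over layers -/
theorem splitB_sum (d n : ℕ) [NeZero n] (j : Fin (d + 1)) (f : Vtx (d + 1) n → ℝ) :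
    ∑ x, f x = ∑ t : ZMod n, ∑ y : Vtx d n, f (j.insertNth t y) := by
  rw [← (Fin.insertNthEquiv (fun _ => ZMod n) j).sum_comp f, Fintype.sum_prod_type]
  rfl

/-- shift of a layer -/
theorem splitB_ins (d n : ℕ) [NeZero n] (j : Fin (d + 1)) (t : ZMod n) (y : Vtx d n) :
    (j.insertNth (t + 1) y : Vtx (d + 1) n) = (j.insertNth t y : Vtx (d + 1) n) + stp j := by
  funext k
  refine Fin.succAboveCases j ?_ (fun l => ?_) k
  · simp [stp, Pi.add_apply]
  · simp [stp, Pi.add_apply, Fin.succAbove_ne]

/-- layer weights -/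
noncomputable def splitW (d n : ℕ) [NeZero n] (j : Fin (d + 1)) (i' : Fin d)
    (w : Vtx (d + 1) n → ℝ) (t : ZMod n) (e : Vtx d n × Fin d) : ℝ :=
  if e.2 = i' then (-1) ^ (∑ l, (e.1 l).val) * w (j.insertNth t e.1) else 0

theorem splitB_dif (d n : ℕ) [NeZero n] (j : Fin (d + 1)) (i' : Fin d)
    (w : Vtx (d + 1) n → ℝ) :
    dif1 (splitW d n j i' w) = splitW d n j i' (difV j w) := by
  funext t e
  change splitW d n j i' w (t + 1) e - splitW d n j i' w t e = _
  unfold splitW difV
  split_ifs
  · rw [splitB_ins]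
    ring
  · ring

theorem splitB_difm (d n : ℕ) [NeZero n] (j : Fin (d + 1)) (i' : Fin d) (m : ℕ) :
    ∀ w : Vtx (d + 1) n → ℝ,
    (dif1^[m]) (splitW d n j i' w) = splitW d n j i' ((difV j)^[m] w) := by
  induction m with
  | zero => intro w; rfl
  | succ m ih =>
    intro w
    rw [Function.iterate_succ_apply, Function.iterate_succ_apply, splitB_dif, ih]

theorem splitB_sq (d n : ℕ) [NeZero n] (j : Fin (d + 1)) (i' : Fin d)
    (w : Vtx (d + 1) n → ℝ) :
    ∑ t, ∑ e, splitW d n j i' w t e ^ 2 = ∑ x, w x ^ 2 := by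
  rw [splitB_sum d n j (fun x => w x ^ 2)]
  refine Finset.sum_congr rfl fun t _ => ?_
  rw [Fintype.sum_prod_type]
  refine Finset.sum_congr rfl fun y _ => ?_
  rw [Finset.sum_eq_single i']
  · simp only [splitW, if_true, mul_pow, ← pow_mul]
    rw [mul_comm (∑ l, (y l).val) 2, pow_mul]
    simp
  · intro b _ hb
    simp [splitW, hb]
  · intro h
    exact absurd (Finset.mem_univ _) h

theorem splitB_edge (d n : ℕ) [NeZero n] (j : Fin (d + 1)) (i' : Fin d)
    (w : Vtx (d + 1) n → ℝ) (τ : Vtx (d + 1) n → Vtx (d + 1) n) :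
    edgeSum (j.succAbove i') w τ = ∑ t : ZMod n, (-1) ^ t.val *
      linF (splitW d n j i' w t) (fun e => decide (τ (j.insertNth t e.1)
        = j.insertNth t e.1 + stp (j.succAbove e.2))) := by
  classical
  unfold edgeSum
  rw [splitB_sum d n j]
  refine Finset.sum_congr rfl fun t _ => ?_
  unfold linF
  rw [Fintype.sum_prod_type, Finset.mul_sum]
  refine Finset.sum_congr rfl fun y _ => ?_
  rw [Finset.sum_eq_single i']
  · rw [splitB_sgn]
    simp only [splitW, if_true]
    by_cases h : τ (j.insertNth t y) = j.insertNth t y + stp (j.succAbove i')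
    · simp [h]
      ring
    · simp [h]
  · intro b _ hb
    simp [splitW, hb]
  · intro h
    exact absurd (Finset.mem_univ _) h

/-- shift of the edges -/
def splitSh (d n : ℕ) (i' : Fin d) : (Vtx d n × Fin d) ≃ (Vtx d n × Fin d) :=
  (Equiv.addRight (stp i')).prodCongr (Equiv.refl _)

theorem splitB_K (d n : ℕ) [NeZero n] (hn : 4 ≤ n) (i' : Fin d)
    [DecidableRel (share (layG d n hn))] (v : (Vtx d n × Fin d) → ℝ)
    (hv : ∀ e, e ∉ (univ ×ˢ {i'} : Finset (Vtx d n × Fin d)) → v e = 0) :
    ∑ e, ∑ f, (if share (layG d n hn) e f then |v e * v f| else 0) ≤ 3 * ∑ e, v e ^ 2 := by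
  classical
  have h1 : ∀ e f, (if share (layG d n hn) e f then |v e * v f| else 0) ≤
      (if f = e then (v e) ^ 2 else 0) + (if f = splitSh d n i' e then (v e ^ 2 + v f ^ 2) / 2 else 0)
        + (if f = (splitSh d n i').symm e then (v e ^ 2 + v f ^ 2) / 2 else 0) := by
    intro e f
    have p1 : 0 ≤ (if f = e then (v e) ^ 2 else 0) := by
      split_ifs
      · positivity
      · exact le_rfl
    have p2 : 0 ≤ (if f = splitSh d n i' e then (v e ^ 2 + v f ^ 2) / 2 else 0) := by
      split_ifs
      · positivity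
      · exact le_rfl
    have p3 : 0 ≤ (if f = (splitSh d n i').symm e then (v e ^ 2 + v f ^ 2) / 2 else 0) := by
      split_ifs
      · positivity
      · exact le_rfl
    have hab : |v e * v f| ≤ (v e ^ 2 + v f ^ 2) / 2 := by
      rw [abs_le]
      constructor
      · nlinarith [sq_nonneg (v e + v f)]
      · nlinarith [sq_nonneg (v e - v f)]
    by_cases hs : share (layG d n hn) e f
    · rw [if_pos hs]
      by_cases he : e.2 = i'
      · by_cases hf : f.2 = i'
        · have hc : f = e ∨ f = splitSh d n i' e ∨ f = (splitSh d n i').symm e := by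
            obtain ⟨y, k⟩ := e
            obtain ⟨y', k'⟩ := f
            simp only at he hf
            subst he
            subst hf
            have hs' : y = y' ∨ y = y' + stp k' ∨ y + stp k' = y' ∨ y + stp k' = y' + stp k' := hs
            rcases hs' with h | h | h | h
            · exact Or.inl (by rw [h])
            · refine Or.inr (Or.inr ?_)
              rw [Equiv.eq_symm_apply]
              simp only [splitSh, Equiv.prodCongr_apply, Prod.map_apply, Equiv.coe_addRight,
                Equiv.refl_apply]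
              rw [h]
            · refine Or.inr (Or.inl ?_)
              simp only [splitSh, Equiv.prodCongr_apply, Prod.map_apply, Equiv.coe_addRight,
                Equiv.refl_apply]
              rw [h]
            · exact Or.inl (by rw [add_right_cancel h])
          rcases hc with h | h | h
          · have : |v e * v f| = v e ^ 2 := by
              rw [h, abs_mul_self]
              ring
            rw [if_pos h] at p1 ⊢
            rw [this]
            linarith
          · rw [if_pos h] at p2 ⊢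
            linarith
          · rw [if_pos h] at p3 ⊢
            linarith
        · have h0 : v f = 0 := hv f (fun hm => hf (by simpa using (Finset.mem_product.1 hm).2))
          have h00 : |v e * v f| = 0 := by rw [h0, mul_zero, abs_zero]
          rw [h00]
          exact add_nonneg (add_nonneg p1 p2) p3
      · have h0 : v e = 0 := hv e (fun hm => he (by simpa using (Finset.mem_product.1 hm).2))
        have h00 : |v e * v f| = 0 := by rw [h0, zero_mul, abs_zero]
        rw [h00]
        exact add_nonneg (add_nonneg p1 p2) p3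
    · rw [if_neg hs]
      exact add_nonneg (add_nonneg p1 p2) p3
  calc ∑ e, ∑ f, (if share (layG d n hn) e f then |v e * v f| else 0)
      ≤ ∑ e, ∑ f, ((if f = e then (v e) ^ 2 else 0)
        + (if f = splitSh d n i' e then (v e ^ 2 + v f ^ 2) / 2 else 0)
        + (if f = (splitSh d n i').symm e then (v e ^ 2 + v f ^ 2) / 2 else 0)) :=
        Finset.sum_le_sum fun e _ => Finset.sum_le_sum fun f _ => h1 e f
    _ = ∑ e, (v e ^ 2 + (v e ^ 2 + v (splitSh d n i' e) ^ 2) / 2
        + (v e ^ 2 + v ((splitSh d n i').symm e) ^ 2) / 2) := by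
        refine Finset.sum_congr rfl fun e _ => ?_
        rw [Finset.sum_add_distrib, Finset.sum_add_distrib]
        simp
    _ = 3 * ∑ e, v e ^ 2 := by
        have a1 : ∑ e, v (splitSh d n i' e) ^ 2 = ∑ e, v e ^ 2 :=
          (splitSh d n i').sum_comp (fun e => v e ^ 2)
        have a2 : ∑ e, v ((splitSh d n i').symm e) ^ 2 = ∑ e, v e ^ 2 :=
          (splitSh d n i').symm.sum_comp (fun e => v e ^ 2)
        rw [Finset.sum_add_distrib, Finset.sum_add_distrib, ← Finset.sum_div, ← Finset.sum_div,
          Finset.sum_add_distrib, Finset.sum_add_distrib, a1, a2]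
        ring

/-- Second moment bound for one component, transfer direction `j ≠ i`. -/
theorem edge_moment (d n : ℕ) [NeZero n] (hn : 4 ≤ n) (he : Even n) (i j : Fin d) (hij : i ≠ j)
    (w : Vtx d n → ℝ) (m : ℕ) :
    ∑ τ ∈ PMs d n, edgeSum i w τ ^ 2
      ≤ ((15 / 2) * ∑ x, w x ^ 2 + (n : ℝ) ^ d * (1 / 2) ^ m * ∑ x, ((difV j)^[m] w x) ^ 2)
        * (PMs d n).card := by
  classical
  obtain ⟨d', rfl⟩ : ∃ d', d = d' + 1 := by
    rcases d with _ | d'
    · exact i.elim0
    · exact ⟨d', rfl⟩
  obtain ⟨i', rfl⟩ := Fin.exists_succAbove_eq hij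
  have e1 : ∑ τ ∈ PMs (d' + 1) n, edgeSum (j.succAbove i') w τ ^ 2
      = stack (layG d' n hn) n (fun η => (∑ t : ZMod n, (-1) ^ t.val *
        linF (splitW d' n j i' w t) (η t)) ^ 2) := by
    rw [← pm_stack d' n hn j]
    refine Finset.sum_congr rfl fun τ _ => ?_
    rw [splitB_edge]
  have e2 : ((PMs (d' + 1) n).card : ℝ) = stack (layG d' n hn) n (fun _ => 1) := by
    rw [← pm_stack d' n hn j]
    simp
  have h := stack_ineq (layG d' n hn) n hn he (splitW d' n j i' w) m (univ ×ˢ {i'})
    (fun t e hes => by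
      have : e.2 ≠ i' := fun h => hes (Finset.mem_product.2
        ⟨Finset.mem_univ _, Finset.mem_singleton.2 h⟩)
      simp [splitW, this])
    (fun v hv => splitB_K d' n hn i' v hv)
  rw [e1, e2]
  refine h.trans (le_of_eq ?_)
  rw [splitB_difm, splitB_sq, splitB_sq]
  have hc : (((univ ×ˢ {i'} : Finset (Vtx d' n × Fin d')).card : ℕ) : ℝ) = (n : ℝ) ^ d' := by
    rw [Finset.card_product, Finset.card_singleton, mul_one, Finset.card_univ]
    simp [Vtx, ZMod.card]
  rw [hc]
  ring

theorem splitB_par (n : ℕ) [NeZero n] (hn : 4 ≤ n) (he : Even n) (a : ZMod n) :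
    (a + 1).val % 2 = (a.val + 1) % 2 := by
  have : Fact (1 < n) := ⟨by omega⟩
  rw [ZMod.val_add, ZMod.val_one, Nat.mod_mod_of_dvd _ he.two_dvd]

/-- perfect matchings exist: x ↦ x ± e_0 according to the parity of (x 0).val (n even) -/
theorem pm_pos (d n : ℕ) [NeZero n] (hd : 0 < d) (hn : 4 ≤ n) (he : Even n) :
    0 < (PMs d n).card := by
  classical
  rw [Finset.card_pos]
  refine ⟨fun x => if (x ⟨0, hd⟩).val % 2 = 0 then x + stp ⟨0, hd⟩ else x - stp ⟨0, hd⟩, ?_⟩
  rw [PMs, Finset.mem_filter]
  refine ⟨Finset.mem_univ _, ?_, ?_⟩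
  · intro x
    by_cases hx : (x ⟨0, hd⟩).val % 2 = 0
    · have h2 : ((x + stp ⟨0, hd⟩ : Vtx d n) ⟨0, hd⟩).val % 2 ≠ 0 := by
        have : (x + stp ⟨0, hd⟩ : Vtx d n) ⟨0, hd⟩ = x ⟨0, hd⟩ + 1 := by
          simp [stp]
        rw [this, splitB_par n hn he]
        omega
      simp only [hx, if_true, h2, if_false]
      abel
    · have h2 : ((x - stp ⟨0, hd⟩ : Vtx d n) ⟨0, hd⟩).val % 2 = 0 := by
        have h3 : (x - stp ⟨0, hd⟩ : Vtx d n) ⟨0, hd⟩ = x ⟨0, hd⟩ - 1 := by
          simp [stp]
        have h4 := splitB_par n hn he (x ⟨0, hd⟩ - 1)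
        rw [sub_add_cancel] at h4
        rw [h3]
        omega
      simp only [hx, if_false, h2, if_true]
      abel
  · intro x
    refine ⟨⟨0, hd⟩, ?_⟩
    by_cases hx : (x ⟨0, hd⟩).val % 2 = 0
    · exact Or.inl (by simp only [hx, if_true])
    · exact Or.inr (by simp only [hx, if_false])

end LibDim
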